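import Mathlib

set_option autoImplicit false

namespace Pool.Agent.TM32

/-- the order `ℤ[√-n]` -/
abbrev Od (n : ℕ) : Type := Zsqrtd (-(n : ℤ))

theorem od_norm (n : ℕ) (z : Od n) : z.norm = z.re ^ 2 + n * z.im ^ 2 := by
  rw [Zsqrtd.norm_def]; ring

theorem od_norm_pos (n : ℕ) (h0 : 0 < n) (z : Od n) (hz : z ≠ 0) : 0 < z.norm := by
  have h1 : 0 ≤ z.norm := by rw [od_norm]; positivity
  have h2 : z.norm ≠ 0 := by
    intro h
    exact hz ((Zsqrtd.norm_eq_zero_iff (by omega) z).1 h)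
  omega

instance instNZD (n : ℕ) [h : NeZero n] : NoZeroDivisors (Od n) where
  eq_zero_or_eq_zero_of_mul_eq_zero := by
    intro a b hab
    have hn : (-(n : ℤ)) < 0 := by have := h.out; omega
    have h1 : a.norm * b.norm = 0 := by rw [← Zsqrtd.norm_mul, hab, Zsqrtd.norm_zero]
    rcases mul_eq_zero.1 h1 with h2 | h2
    · exact Or.inl ((Zsqrtd.norm_eq_zero_iff hn a).1 h2)
    · exact Or.inr ((Zsqrtd.norm_eq_zero_iff hn b).1 h2)

instance dom (n : ℕ) [NeZero n] : IsDomain (Od n) := NoZeroDivisors.to_isDomain _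

/-- additive/ℤ-linear coordinates -/
def odLin (n : ℕ) : Od n ≃ₗ[ℤ] (Fin 2 → ℤ) where
  toFun z := ![z.re, z.im]
  invFun v := ⟨v 0, v 1⟩
  left_inv z := by ext <;> simp
  right_inv v := by ext i; fin_cases i <;> simp
  map_add' a b := by ext i; fin_cases i <;> simp
  map_smul' c a := by
    ext i; fin_cases i <;> simp

instance od_finite (n : ℕ) : Module.Finite ℤ (Od n) :=
  Module.Finite.equiv (odLin n).symm

instance od_free (n : ℕ) : Module.Free ℤ (Od n) :=
  Module.Free.of_equiv (odLin n).symm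

instance od_noeth (n : ℕ) : IsNoetherianRing (Od n) := IsNoetherianRing.of_finite ℤ (Od n)

instance od_integral (n : ℕ) : Algebra.IsIntegral ℤ (Od n) := Algebra.IsIntegral.of_finite ℤ (Od n)

end Pool.Agent.TM32
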