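import Mathlib
import Pool.Agent.Lib_helper72.TM32.Ded
set_option autoImplicit false
namespace Pool.Agent.TM32

theorem int_of_integral {K : Type*} [Field K] [CharZero K] (a m : ℤ) (hm : m ≠ 0)
    (h : IsIntegral ℤ ((a : K) / (m : K))) : m ∣ a := by
  have h1 : ((a : K) / (m : K)) = algebraMap ℚ K ((a : ℚ) / (m : ℚ)) := by
    rw [map_div₀]; simp
  rw [h1] at h
  have h2 : IsIntegral ℤ ((a : ℚ) / (m : ℚ)) :=
    (isIntegral_algebraMap_iff (algebraMap ℚ K).injective).1 h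
  obtain ⟨t, ht⟩ := IsIntegrallyClosed.isIntegral_iff.1 h2
  refine ⟨t, ?_⟩
  have hm' : (m : ℚ) ≠ 0 := by exact_mod_cast hm
  have h3 : (t : ℚ) = (a : ℚ) / (m : ℚ) := by simpa using ht
  rw [eq_div_iff hm'] at h3
  have h4 : (t * m : ℤ) = a := by exact_mod_cast h3
  rw [← h4]; ring

theorem sq_dvd_of_squarefree (n : ℕ) (hs : Squarefree n) (m c : ℤ) (h : m ^ 2 ∣ (n : ℤ) * c ^ 2) :
    m ∣ c := by
  rcases eq_or_ne m 0 with rfl | hm
  · have h1 : (n : ℤ) * c ^ 2 = 0 := by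
      have : (0 : ℤ) ^ 2 = 0 := by norm_num
      rw [this] at h; exact zero_dvd_iff.1 h
    have hn : (n : ℤ) ≠ 0 := by
      have := hs.ne_zero; exact_mod_cast this
    rcases mul_eq_zero.1 h1 with h2 | h2
    · exact absurd h2 hn
    · rw [pow_eq_zero_iff (by norm_num)] at h2; rw [h2]
  · -- use gcd
    obtain ⟨g, m', c', hg, hco, hm', hc'⟩ := Int.exists_gcd_one' (m := m) (n := c)
      (Int.gcd_pos_of_ne_zero_left _ hm)
    have hg2 : ((g : ℤ)) ^ 2 ≠ 0 := by positivity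
    have h1 : m' ^ 2 ∣ (n : ℤ) * c' ^ 2 := by
      rw [hm', hc'] at h
      have h2 : (g : ℤ) ^ 2 * m' ^ 2 ∣ (g : ℤ) ^ 2 * ((n : ℤ) * c' ^ 2) := by
        convert h using 1 <;> ring
      exact (mul_dvd_mul_iff_left hg2).1 h2
    have hco2 : IsCoprime (m' ^ 2) (c' ^ 2) := (Int.isCoprime_iff_gcd_eq_one.2 hco).pow
    have h3 : m' ^ 2 ∣ (n : ℤ) := hco2.dvd_of_dvd_mul_right h1
    have hsz : Squarefree (n : ℤ) := Int.squarefree_natCast.2 hs
    have h4 : IsUnit m' := hsz m' (by rw [← pow_two]; exact h3)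
    rw [hm', hc']
    have h5 : m' ∣ c' := h4.dvd
    exact mul_dvd_mul h5 (dvd_refl _)

theorem both_dvd (n : ℕ) (hs : Squarefree n) (h4 : n % 4 = 1) (m a b : ℤ) (hm : m ≠ 0)
    (h1 : m ∣ 2 * a) (h2 : m ^ 2 ∣ a ^ 2 + n * b ^ 2) : m ∣ a ∧ m ∣ b := by
  obtain ⟨t, ht⟩ := h1
  obtain ⟨N, hN⟩ := h2
  have h3 : m ∣ 2 * b := by
    apply sq_dvd_of_squarefree n hs
    refine ⟨4 * N - t ^ 2, ?_⟩
    have : 4 * (a ^ 2 + n * b ^ 2) = 4 * (m ^ 2 * N) := by rw [hN]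
    have h5 : (2 * a) ^ 2 = (m * t) ^ 2 := by rw [ht]
    linarith [this, h5]
  obtain ⟨s, hss⟩ := h3
  have h6 : m ^ 2 * (t ^ 2 + n * s ^ 2) = m ^ 2 * (4 * N) := by
    have h5 : (2 * a) ^ 2 = (m * t) ^ 2 := by rw [ht]
    have h7 : (2 * b) ^ 2 = (m * s) ^ 2 := by rw [hss]
    have h8 : 4 * (a ^ 2 + n * b ^ 2) = 4 * (m ^ 2 * N) := by rw [hN]
    have h9 : m ^ 2 * (t ^ 2 + n * s ^ 2) = (m * t) ^ 2 + n * (m * s) ^ 2 := by ring
    rw [h9, ← h5, ← h7]
    linarith [h8]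
  have h7 : t ^ 2 + n * s ^ 2 = 4 * N := mul_left_cancel₀ (pow_ne_zero 2 hm) h6
  obtain ⟨k, hk⟩ : ∃ k : ℤ, (n : ℤ) = 4 * k + 1 := ⟨(n / 4 : ℕ), by omega⟩
  have h8 : t ^ 2 + s ^ 2 = 4 * (N - k * s ^ 2) := by rw [hk] at h7; linarith [h7]
  have ht2 : t % 2 = 0 := by
    by_contra hne
    obtain ⟨t', ht'⟩ : ∃ t', t = 2 * t' + 1 := ⟨t / 2, by omega⟩
    rcases Int.even_or_odd' s with ⟨s', hs' | hs'⟩
    · rw [ht', hs'] at h8
      have : (4 : ℤ) * (t' ^ 2 + t' + s' ^ 2) + 1 = 4 * (N - k * (2 * s') ^ 2) := by linarith [h8]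
      omega
    · rw [ht', hs'] at h8
      have : (4 : ℤ) * (t' ^ 2 + t' + s' ^ 2 + s') + 2 = 4 * (N - k * (2 * s' + 1) ^ 2) := by
        linarith [h8]
      omega
  have hs2 : s % 2 = 0 := by
    by_contra hne
    obtain ⟨t', ht'⟩ : ∃ t', s = 2 * t' + 1 := ⟨s / 2, by omega⟩
    rcases Int.even_or_odd' t with ⟨s', hs' | hs'⟩
    · rw [hs', ht'] at h8
      have : (4 : ℤ) * (t' ^ 2 + t' + s' ^ 2) + 1 = 4 * (N - k * (2 * t' + 1) ^ 2) := by
        linarith [h8]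
      omega
    · omega
  obtain ⟨t', ht'⟩ : ∃ t', t = 2 * t' := ⟨t / 2, by omega⟩
  obtain ⟨s', hs'⟩ : ∃ s', s = 2 * s' := ⟨s / 2, by omega⟩
  constructor
  · refine ⟨t', ?_⟩
    rw [ht'] at ht; linarith [ht]
  · refine ⟨s', ?_⟩
    rw [hs'] at hss; linarith [hss]

theorem intClosed_aux (n : ℕ) [NeZero n] (hs : Squarefree n) (h4 : n % 4 = 1)
    (K : Type) [Field K] [Algebra (Od n) K] [IsFractionRing (Od n) K] (x : K)
    (hx : IsIntegral (Od n) x) : ∃ y, algebraMap (Od n) K y = x := by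
  have hn0 : 0 < n := Nat.pos_of_ne_zero (NeZero.ne n)
  have hxZ : IsIntegral ℤ x := isIntegral_trans (A := Od n) x hx
  have : CharZero (K) :=
    charZero_of_injective_algebraMap (IsFractionRing.injective (Od n) (K))
  obtain ⟨z, w, hw, rfl⟩ := IsFractionRing.div_surjective (A := Od n) x
  have hw0 : w ≠ 0 := nonZeroDivisors.ne_zero hw
  set ι := algebraMap (Od n) (K) with hι
  have hιinj : Function.Injective ι := IsFractionRing.injective (Od n) (K)
  set m : ℤ := w.norm with hmdef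
  have hm : 0 < m := od_norm_pos n hn0 w hw0
  set z' := z * star w with hz'
  have hwK : ι w ≠ 0 := by
    rw [Ne, map_eq_zero_iff ι hιinj]; exact hw0
  have hsw : star w ≠ 0 := by
    intro h
    apply hw0
    have := congrArg star h
    simpa using this
  have hswK : ι (star w) ≠ 0 := by
    rw [Ne, map_eq_zero_iff ι hιinj]; exact hsw
  have hmι : ι w * ι (star w) = (m : K) := by
    rw [← map_mul, ← Zsqrtd.norm_eq_mul_conj, map_intCast]
  have hmK : (m : K) ≠ 0 := by exact_mod_cast hm.ne'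
  have hx1 : ι z / ι w = ι z' / (m : K) := by
    rw [← hmι, hz', map_mul]
    field_simp
  rw [hx1] at hxZ
  -- conjugation
  let σ0 : Od n ≃+* Od n := starRingAut
  let σ : K ≃+* K := IsFractionRing.ringEquivOfRingEquiv σ0
  have hσ : ∀ a : Od n, σ (ι a) = ι (star a) := by
    intro a
    exact IsFractionRing.ringEquivOfRingEquiv_algebraMap σ0 a
  have hσx : σ (ι z' / (m : K)) = ι (star z') / (m : K) := by
    rw [map_div₀, hσ, map_intCast]
  have hxZ' : IsIntegral ℤ (ι (star z') / (m : K)) := by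
    rw [← hσx]
    exact hxZ.map (σ.toRingHom.toIntAlgHom)
  have htr : IsIntegral ℤ (((2 * z'.re : ℤ) : K) / (m : K)) := by
    have h1 := hxZ.add hxZ'
    have h2 : ι z' / (m : K) + ι (star z') / (m : K)
        = ((2 * z'.re : ℤ) : K) / (m : K) := by
      rw [← add_div, ← map_add, ← map_intCast ι (2 * z'.re)]
      congr 2
      ext <;> simp <;> ring
    rw [h2] at h1
    exact h1
  have hnm : IsIntegral ℤ (((z'.norm : ℤ) : K) /
      ((m ^ 2 : ℤ) : K)) := by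
    have h1 := hxZ.mul hxZ'
    have h2 : ι z' / (m : K) * (ι (star z') / (m : K))
        = ((z'.norm : ℤ) : K) / ((m ^ 2 : ℤ) : K) := by
      rw [div_mul_div_comm, ← map_mul, ← Zsqrtd.norm_eq_mul_conj, map_intCast]
      push_cast
      rw [pow_two]
    rw [h2] at h1
    exact h1
  have hd1 := int_of_integral _ _ hm.ne' htr
  have hd2 := int_of_integral _ _ (pow_ne_zero 2 hm.ne') hnm
  rw [od_norm] at hd2
  obtain ⟨⟨a, ha⟩, ⟨b, hb⟩⟩ := both_dvd n hs h4 m z'.re z'.im hm.ne' hd1 hd2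
  refine ⟨⟨a, b⟩, ?_⟩
  rw [hx1, eq_div_iff hmK, ← map_intCast ι m, ← map_mul]
  congr 1
  ext
  · simp [ha, mul_comm]
  · simp [hb, mul_comm]

theorem intClosed (n : ℕ) [NeZero n] (hs : Squarefree n) (h4 : n % 4 = 1) :
    IsIntegrallyClosed (Od n) := by
  rw [isIntegrallyClosed_iff (FractionRing (Od n))]
  intro x hx
  exact intClosed_aux n hs h4 (FractionRing (Od n)) x hx

theorem ded4 (n : ℕ) [NeZero n] (hs : Squarefree n) (h4 : n % 4 = 1) :
    IsDedekindDomain (Od n) := by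
  have := intClosed n hs h4
  exact { }

theorem ded (n : ℕ) (hs : Squarefree n) (h8 : n % 8 = 1) : IsDedekindDomain (Od n) := by
  have : NeZero n := ⟨hs.ne_zero⟩
  exact ded4 n hs (by omega)

end Pool.Agent.TM32
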