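import Mathlib
set_option autoImplicit false
namespace Pool.Agent.TM32

/-- Lipschitz quaternions -/
abbrev Hq : Type := Quaternion ℤ

/-- the norm -/
def nrm (a : Hq) : ℤ := a.re ^ 2 + a.imI ^ 2 + a.imJ ^ 2 + a.imK ^ 2

theorem nrm_mul (a b : Hq) : nrm (a * b) = nrm a * nrm b := by
  simp only [nrm, Quaternion.re_mul, Quaternion.imI_mul, Quaternion.imJ_mul, Quaternion.imK_mul]
  ring

theorem nrm_star (a : Hq) : nrm (star a) = nrm a := by
  simp [nrm]

theorem nrm_int (m : ℤ) : nrm (m : Hq) = m ^ 2 := by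
  simp [nrm]

theorem re_zero' : (0 : Hq).re = 0 := rfl
theorem imI_zero' : (0 : Hq).imI = 0 := rfl
theorem imJ_zero' : (0 : Hq).imJ = 0 := rfl
theorem imK_zero' : (0 : Hq).imK = 0 := rfl

theorem nrm_zero : nrm (0 : Hq) = 0 := by
  unfold nrm; rw [re_zero', imI_zero', imJ_zero', imK_zero']; norm_num

theorem re_int (m : ℤ) : (m : Hq).re = m := rfl
theorem imI_int (m : ℤ) : (m : Hq).imI = 0 := rfl
theorem imJ_int (m : ℤ) : (m : Hq).imJ = 0 := rfl
theorem imK_int (m : ℤ) : (m : Hq).imK = 0 := rfl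

theorem nrm_nonneg (a : Hq) : 0 ≤ nrm a := by
  unfold nrm; positivity

theorem nrm_eq_zero (a : Hq) (h : nrm a = 0) : a = 0 := by
  unfold nrm at h
  have h1 : a.re = 0 := by nlinarith [sq_nonneg a.re, sq_nonneg a.imI, sq_nonneg a.imJ, sq_nonneg a.imK]
  have h2 : a.imI = 0 := by nlinarith [sq_nonneg a.re, sq_nonneg a.imI, sq_nonneg a.imJ, sq_nonneg a.imK]
  have h3 : a.imJ = 0 := by nlinarith [sq_nonneg a.re, sq_nonneg a.imI, sq_nonneg a.imJ, sq_nonneg a.imK]
  have h4 : a.imK = 0 := by nlinarith [sq_nonneg a.re, sq_nonneg a.imI, sq_nonneg a.imJ, sq_nonneg a.imK]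
  apply Quaternion.ext
  · rw [h1]; rfl
  · rw [h2]; rfl
  · rw [h3]; rfl
  · rw [h4]; rfl

theorem star_mul_self' (a : Hq) : star a * a = ((nrm a : ℤ) : Hq) := by
  apply Quaternion.ext
  · simp only [re_int, Quaternion.re_mul, Quaternion.re_star, Quaternion.imI_star,
      Quaternion.imJ_star, Quaternion.imK_star, nrm]; ring
  · simp only [imI_int, Quaternion.imI_mul, Quaternion.re_star, Quaternion.imI_star,
      Quaternion.imJ_star, Quaternion.imK_star]; ring
  · simp only [imJ_int, Quaternion.imJ_mul, Quaternion.re_star, Quaternion.imI_star,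
      Quaternion.imJ_star, Quaternion.imK_star]; ring
  · simp only [imK_int, Quaternion.imK_mul, Quaternion.re_star, Quaternion.imI_star,
      Quaternion.imJ_star, Quaternion.imK_star]; ring

theorem self_mul_star' (a : Hq) : a * star a = ((nrm a : ℤ) : Hq) := by
  apply Quaternion.ext
  · simp only [re_int, Quaternion.re_mul, Quaternion.re_star, Quaternion.imI_star,
      Quaternion.imJ_star, Quaternion.imK_star, nrm]; ring
  · simp only [imI_int, Quaternion.imI_mul, Quaternion.re_star, Quaternion.imI_star,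
      Quaternion.imJ_star, Quaternion.imK_star]; ring
  · simp only [imJ_int, Quaternion.imJ_mul, Quaternion.re_star, Quaternion.imI_star,
      Quaternion.imJ_star, Quaternion.imK_star]; ring
  · simp only [imK_int, Quaternion.imK_mul, Quaternion.re_star, Quaternion.imI_star,
      Quaternion.imJ_star, Quaternion.imK_star]; ring

theorem int_comm (m : ℤ) (a : Hq) : (m : Hq) * a = a * (m : Hq) := (Int.cast_commute m a).eq

theorem int_cancel (m : ℤ) (hm : m ≠ 0) (a b : Hq) (h : (m : Hq) * a = (m : Hq) * b) : a = b := by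
  have h1 : (m : Hq) * (a - b) = 0 := by rw [mul_sub, h, sub_self]
  have h2 : nrm ((m : Hq) * (a - b)) = 0 := by rw [h1]; exact nrm_zero
  rw [nrm_mul, nrm_int] at h2
  rcases mul_eq_zero.1 h2 with h3 | h3
  · exact absurd (pow_eq_zero_iff (two_ne_zero)|>.1 h3) hm
  · exact sub_eq_zero.1 (nrm_eq_zero _ h3)

theorem int_cancel' (m : ℤ) (hm : m ≠ 0) (a b : Hq) (h : a * (m : Hq) = b * (m : Hq)) : a = b := by
  apply int_cancel m hm
  rw [int_comm, int_comm, h]

theorem mul_right_cancel' (a b c : Hq) (hc : nrm c ≠ 0) (h : a * c = b * c) : a = b := by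
  apply int_cancel' (nrm c) hc
  rw [← self_mul_star', ← mul_assoc, ← mul_assoc, h]

theorem mul_left_cancel' (a b c : Hq) (hc : nrm c ≠ 0) (h : c * a = c * b) : a = b := by
  apply int_cancel (nrm c) hc
  rw [← star_mul_self', mul_assoc, mul_assoc, h]

/-- rounding -/
theorem round_int (N : ℤ) (hN : 0 < N) (c : ℤ) :
    ∃ q : ℤ, -N ≤ 2 * (c - q * N) ∧ 2 * (c - q * N) ≤ N := by
  refine ⟨(2 * c + N) / (2 * N), ?_, ?_⟩
  · have h1 := Int.mul_ediv_add_emod (2 * c + N) (2 * N)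
    have h2 := Int.emod_lt_of_pos (2 * c + N) (b := 2 * N) (by omega)
    have h3 := Int.emod_nonneg (2 * c + N) (b := 2 * N) (by omega)
    nlinarith
  · have h1 := Int.mul_ediv_add_emod (2 * c + N) (2 * N)
    have h2 := Int.emod_lt_of_pos (2 * c + N) (b := 2 * N) (by omega)
    have h3 := Int.emod_nonneg (2 * c + N) (b := 2 * N) (by omega)
    nlinarith

theorem sq_le_of_abs (x N : ℤ) (h1 : -N ≤ 2 * x) (h2 : 2 * x ≤ N) : 4 * x ^ 2 ≤ N ^ 2 := by
  nlinarith

theorem sq_lt_of_abs (x N : ℤ) (hN : N % 2 = 1) (_hN0 : 0 < N) (h1 : -N ≤ 2 * x) (h2 : 2 * x ≤ N) :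
    4 * x ^ 2 < N ^ 2 := by
  have h3 : 2 * x ≤ N - 1 := by omega
  have h4 : -(N - 1) ≤ 2 * x := by omega
  nlinarith

theorem nrm_sub_int (c q : Hq) (N : ℤ) : nrm (c - q * (N : Hq)) = (c.re - q.re * N) ^ 2 +
    (c.imI - q.imI * N) ^ 2 + (c.imJ - q.imJ * N) ^ 2 + (c.imK - q.imK * N) ^ 2 := by
  simp only [nrm, Quaternion.re_sub, Quaternion.imI_sub, Quaternion.imJ_sub, Quaternion.imK_sub,
      Quaternion.re_mul, Quaternion.imI_mul, Quaternion.imJ_mul, Quaternion.imK_mul, re_int,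
      imI_int, imJ_int, imK_int]
  ring

theorem division (a b : Hq) (hb : 0 < nrm b) :
    ∃ q : Hq, nrm (a - q * b) ≤ nrm b ∧ (nrm b % 2 = 1 → nrm (a - q * b) < nrm b) := by
  set c := a * star b with hc
  obtain ⟨q0, h01, h02⟩ := round_int (nrm b) hb c.re
  obtain ⟨q1, h11, h12⟩ := round_int (nrm b) hb c.imI
  obtain ⟨q2, h21, h22⟩ := round_int (nrm b) hb c.imJ
  obtain ⟨q3, h31, h32⟩ := round_int (nrm b) hb c.imK
  let q : Hq := ⟨q0, q1, q2, q3⟩
  have hr : (a - q * b) * star b = c - q * ((nrm b : ℤ) : Hq) := by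
    rw [sub_mul, mul_assoc, self_mul_star']
  have hn : nrm (a - q * b) * nrm b = (c.re - q0 * nrm b) ^ 2 + (c.imI - q1 * nrm b) ^ 2 +
      (c.imJ - q2 * nrm b) ^ 2 + (c.imK - q3 * nrm b) ^ 2 := by
    have h1 : nrm (a - q * b) * nrm b = nrm (c - q * ((nrm b : ℤ) : Hq)) := by
      rw [← hr, nrm_mul, nrm_star]
    rw [h1, nrm_sub_int]
  refine ⟨q, ?_, ?_⟩
  · have h1 := sq_le_of_abs _ _ h01 h02
    have h2 := sq_le_of_abs _ _ h11 h12
    have h3 := sq_le_of_abs _ _ h21 h22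
    have h4 := sq_le_of_abs _ _ h31 h32
    have h5 : nrm (a - q * b) * nrm b ≤ nrm b * nrm b := by rw [hn]; nlinarith
    exact le_of_mul_le_mul_right h5 hb
  · intro hodd
    have h1 := sq_lt_of_abs _ _ hodd hb h01 h02
    have h2 := sq_lt_of_abs _ _ hodd hb h11 h12
    have h3 := sq_lt_of_abs _ _ hodd hb h21 h22
    have h4 := sq_lt_of_abs _ _ hodd hb h31 h32
    have h5 : nrm (a - q * b) * nrm b < nrm b * nrm b := by rw [hn]; nlinarith
    exact lt_of_mul_lt_mul_right h5 hb.le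

theorem nrm_sub (x y : Hq) : ∃ t : ℤ, nrm (x - y) = nrm x + nrm y - 2 * t := by
  refine ⟨x.re * y.re + x.imI * y.imI + x.imJ * y.imJ + x.imK * y.imK, ?_⟩
  simp only [nrm, Quaternion.re_sub, Quaternion.imI_sub, Quaternion.imJ_sub, Quaternion.imK_sub]
  ring

/-- left ideals which contain an element of odd norm are principal -/
theorem principal_odd (J : Ideal Hq) (m : Hq) (hm : nrm m % 2 = 1) (hmJ : m ∈ J) :
    ∃ b ∈ J, nrm b % 2 = 1 ∧ ∀ x ∈ J, ∃ q : Hq, x = q * b := by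
  classical
  have hex : ∃ k : ℕ, ∃ b ∈ J, nrm b % 2 = 1 ∧ (nrm b).toNat = k := ⟨_, m, hmJ, hm, rfl⟩
  obtain ⟨b, hbJ, hb1, hbk⟩ := Nat.find_spec hex
  have hmin : ∀ b' ∈ J, nrm b' % 2 = 1 → nrm b ≤ nrm b' := by
    intro b' hb' h1
    by_contra hlt
    have h2 : (nrm b').toNat < Nat.find hex := by
      have := nrm_nonneg b'
      omega
    exact Nat.find_min hex h2 ⟨b', hb', h1, rfl⟩
  have hbpos : 0 < nrm b := by have := nrm_nonneg b; omega
  refine ⟨b, hbJ, hb1, ?_⟩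
  intro x hx
  obtain ⟨q, -, hq⟩ := division x b hbpos
  have hlt := hq hb1
  have hrJ : x - q * b ∈ J := J.sub_mem hx (J.mul_mem_left q hbJ)
  refine ⟨q, ?_⟩
  by_contra hne
  set r := x - q * b with hr
  have hr0 : nrm r ≠ 0 := by
    intro h0
    exact hne (sub_eq_zero.1 (nrm_eq_zero _ h0))
  have hrpos : 0 < nrm r := by have := nrm_nonneg r; omega
  have hreven : nrm r % 2 = 0 := by
    by_contra h
    have := hmin r hrJ (by omega)
    omega
  obtain ⟨q', hq', -⟩ := division b r hrpos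
  have hb'J : b - q' * r ∈ J := J.sub_mem hbJ (J.mul_mem_left q' hrJ)
  have h3 : nrm (b - q' * r) % 2 = 1 := by
    obtain ⟨t, ht⟩ := nrm_sub b (q' * r)
    rw [ht, nrm_mul]
    obtain ⟨s, hs⟩ : ∃ s, nrm r = 2 * s := ⟨nrm r / 2, by omega⟩
    rw [hs]
    have : nrm b + nrm q' * (2 * s) - 2 * t = nrm b + 2 * (nrm q' * s - t) := by ring
    rw [this]; omega
  have := hmin _ hb'J h3
  omega

end Pool.Agent.TM32
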