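import Mathlib
import Pool.Agent.Lib_helper72.TM32.Ded
import Pool.Agent.Lib_helper72.TM32.Quat
set_option autoImplicit false
namespace Pool.Agent.TM32

/-- pure quaternions of norm `n` with odd first coordinate -/
structure IsOm (n : ℕ) (μ : Hq) : Prop where
  re0 : μ.re = 0
  sum : μ.imI ^ 2 + μ.imJ ^ 2 + μ.imK ^ 2 = n
  odd : μ.imI % 2 = 1

theorem IsOm.sq {n : ℕ} {μ : Hq} (h : IsOm n μ) : μ * μ = ((-(n : ℤ) : ℤ) : Hq) := by
  apply Quaternion.ext
  · rw [Quaternion.re_mul, re_int, h.re0, ← h.sum]; ring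
  · rw [Quaternion.imI_mul, imI_int, h.re0]; ring
  · rw [Quaternion.imJ_mul, imJ_int, h.re0]; ring
  · rw [Quaternion.imK_mul, imK_int, h.re0]; ring

theorem IsOm.nrm {n : ℕ} {μ : Hq} (h : IsOm n μ) : nrm μ = n := by
  unfold TM32.nrm; rw [h.re0, ← h.sum]; ring

/-- the embedding of the order -/
def phi {n : ℕ} {μ : Hq} (h : IsOm n μ) : Od n →+* Hq where
  toFun z := (z.re : Hq) + (z.im : Hq) * μ
  map_one' := by simp
  map_zero' := by simp
  map_add' x y := by simp [add_mul]; abel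
  map_mul' x y := by
    have h2 : ((x.im : Hq) * μ) * ((y.im : Hq) * μ) = ((-(n : ℤ) * x.im * y.im : ℤ) : Hq) := by
      have e1 : (-(n : ℤ) * x.im * y.im : ℤ) = (x.im * y.im) * (-(n : ℤ)) := by ring
      rw [e1, Int.cast_mul (x.im * y.im), ← h.sq, mul_assoc, ← mul_assoc μ, ← int_comm y.im μ,
        Int.cast_mul]
      noncomm_ring
    have h3 : ((x.im : Hq) * μ) * (y.re : Hq) = ((x.im * y.re : ℤ) : Hq) * μ := by
      rw [mul_assoc, ← int_comm y.re μ]
      push_cast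
      noncomm_ring
    have h4 : (x.re : Hq) * ((y.im : Hq) * μ) = ((x.re * y.im : ℤ) : Hq) * μ := by
      push_cast
      noncomm_ring
    rw [mul_add, add_mul, add_mul, h2, h3, h4, Zsqrtd.re_mul, Zsqrtd.im_mul, Int.cast_add,
      Int.cast_add, add_mul, Int.cast_mul x.re y.re]
    abel

theorem phi_apply {n : ℕ} {μ : Hq} (h : IsOm n μ) (z : Od n) :
    phi h z = (z.re : Hq) + (z.im : Hq) * μ := rfl

theorem phi_re {n : ℕ} {μ : Hq} (h : IsOm n μ) (z : Od n) : (phi h z).re = z.re := by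
  rw [phi_apply, Quaternion.re_add, Quaternion.re_mul, re_int, re_int, imI_int, imJ_int, imK_int,
    h.re0]; ring

theorem phi_imI {n : ℕ} {μ : Hq} (h : IsOm n μ) (z : Od n) : (phi h z).imI = z.im * μ.imI := by
  rw [phi_apply, Quaternion.imI_add, Quaternion.imI_mul, re_int, imI_int, imI_int, imJ_int, imK_int]
  ring

theorem phi_imJ {n : ℕ} {μ : Hq} (h : IsOm n μ) (z : Od n) : (phi h z).imJ = z.im * μ.imJ := by
  rw [phi_apply, Quaternion.imJ_add, Quaternion.imJ_mul, re_int, imI_int, imJ_int, imJ_int, imK_int]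
  ring

theorem phi_imK {n : ℕ} {μ : Hq} (h : IsOm n μ) (z : Od n) : (phi h z).imK = z.im * μ.imK := by
  rw [phi_apply, Quaternion.imK_add, Quaternion.imK_mul, re_int, imI_int, imJ_int, imK_int, imK_int]
  ring

theorem phi_int {n : ℕ} {μ : Hq} (h : IsOm n μ) (t : ℤ) : phi h (t : Od n) = (t : Hq) :=
  map_intCast _ _

theorem phi_sqrtd {n : ℕ} {μ : Hq} (h : IsOm n μ) : phi h (Zsqrtd.sqrtd) = μ := by
  rw [phi_apply]; simp

theorem phi_inj {n : ℕ} {μ : Hq} (h : IsOm n μ) (x y : Od n) (he : phi h x = phi h y) : x = y := by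
  have h1 : μ.imI ≠ 0 := by have := h.odd; omega
  apply Zsqrtd.ext
  · rw [← phi_re h, he, phi_re]
  · have h2 := congrArg (fun q : Hq => q.imI) he
    simp only [phi_imI] at h2
    exact mul_right_cancel₀ h1 h2

theorem nrm_phi {n : ℕ} {μ : Hq} (h : IsOm n μ) (z : Od n) : nrm (phi h z) = z.norm := by
  unfold nrm
  rw [phi_re, phi_imI, phi_imJ, phi_imK, od_norm]
  linear_combination z.im ^ 2 * h.sum

theorem phi_comm {n : ℕ} {μ : Hq} (h : IsOm n μ) (z : Od n) : phi h z * μ = μ * phi h z := by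
  have h1 : phi h z * phi h Zsqrtd.sqrtd = phi h Zsqrtd.sqrtd * phi h z := by
    rw [← map_mul, ← map_mul, mul_comm]
  rw [phi_sqrtd] at h1
  exact h1

/-- Bezout for the coordinates of `μ` -/
theorem IsOm.bez {n : ℕ} (hs : Squarefree n) {μ : Hq} (h : IsOm n μ) :
    ∃ a b c : ℤ, a * μ.imI + b * μ.imJ + c * μ.imK = 1 := by
  set g := Int.gcd μ.imJ μ.imK with hg
  set d := Int.gcd μ.imI g with hd
  have h1 : (d : ℤ) ∣ μ.imI := Int.gcd_dvd_left _ _
  have h2 : (d : ℤ) ∣ g := Int.gcd_dvd_right _ _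
  have h3 : (d : ℤ) ∣ μ.imJ := h2.trans (Int.gcd_dvd_left _ _)
  have h4 : (d : ℤ) ∣ μ.imK := h2.trans (Int.gcd_dvd_right _ _)
  have h5 : (d : ℤ) * d ∣ (n : ℤ) := by
    rw [← h.sum]
    have e1 : (d : ℤ) * d ∣ μ.imI ^ 2 := by rw [pow_two]; exact mul_dvd_mul h1 h1
    have e2 : (d : ℤ) * d ∣ μ.imJ ^ 2 := by rw [pow_two]; exact mul_dvd_mul h3 h3
    have e3 : (d : ℤ) * d ∣ μ.imK ^ 2 := by rw [pow_two]; exact mul_dvd_mul h4 h4
    exact dvd_add (dvd_add e1 e2) e3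
  have h6 : d * d ∣ n := by exact_mod_cast h5
  have h7 : d = 1 := Nat.isUnit_iff.1 (hs d h6)
  have e1 := Int.gcd_eq_gcd_ab μ.imI g
  have e2 := Int.gcd_eq_gcd_ab μ.imJ μ.imK
  rw [← hd, h7] at e1
  rw [← hg] at e2
  refine ⟨Int.gcdA μ.imI g, Int.gcdB μ.imI g * Int.gcdA μ.imJ μ.imK,
    Int.gcdB μ.imI g * Int.gcdB μ.imJ μ.imK, ?_⟩
  have : (1 : ℤ) = μ.imI * Int.gcdA μ.imI g + (μ.imJ * Int.gcdA μ.imJ μ.imK +
      μ.imK * Int.gcdB μ.imJ μ.imK) * Int.gcdB μ.imI g := by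
    rw [← e2]; exact_mod_cast e1
  linear_combination -this

theorem commutant {n : ℕ} (hs : Squarefree n) {μ : Hq} (h : IsOm n μ) (x : Hq)
    (hx : x * μ = μ * x) : ∃ z : Od n, x = phi h z := by
  obtain ⟨a, b, c, habc⟩ := h.bez hs
  have hI := congrArg (fun q : Hq => q.imI) hx
  have hJ := congrArg (fun q : Hq => q.imJ) hx
  have hK := congrArg (fun q : Hq => q.imK) hx
  simp only [Quaternion.imI_mul, Quaternion.imJ_mul, Quaternion.imK_mul, h.re0] at hI hJ hK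
  have h1 : x.imJ * μ.imK = x.imK * μ.imJ := by linarith
  have h2 : x.imK * μ.imI = x.imI * μ.imK := by linarith
  have h3 : x.imI * μ.imJ = x.imJ * μ.imI := by linarith
  refine ⟨⟨x.re, a * x.imI + b * x.imJ + c * x.imK⟩, ?_⟩
  apply Quaternion.ext
  · rw [phi_re]
  · rw [phi_imI]
    show x.imI = (a * x.imI + b * x.imJ + c * x.imK) * μ.imI
    linear_combination (-x.imI) * habc + b * h3 - c * h2
  · rw [phi_imJ]
    show x.imJ = (a * x.imI + b * x.imJ + c * x.imK) * μ.imJ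
    linear_combination (-x.imJ) * habc + c * h1 - a * h3
  · rw [phi_imK]
    show x.imK = (a * x.imI + b * x.imJ + c * x.imK) * μ.imK
    linear_combination (-x.imK) * habc + a * h2 - b * h1

theorem phi_div {n : ℕ} (hs : Squarefree n) {μ : Hq} (h : IsOm n μ) (N : ℤ) (hN : N ≠ 0) (q : Hq)
    (z : Od n) (hq : (N : Hq) * q = phi h z) : ∃ z' : Od n, q = phi h z' ∧ z = (N : Od n) * z' := by
  have h1 : q * μ = μ * q := by
    apply int_cancel N hN
    rw [← mul_assoc, hq, phi_comm, ← hq, ← mul_assoc, ← mul_assoc, int_comm]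
  obtain ⟨z', hz'⟩ := commutant hs h q h1
  refine ⟨z', hz', ?_⟩
  apply phi_inj h
  rw [map_mul, phi_int, ← hz', hq]

/-- same with an element of the order -/
theorem phi_div' {n : ℕ} [NeZero n] (hs : Squarefree n) {μ : Hq} (h : IsOm n μ) (w : Od n)
    (hw : w ≠ 0) (q : Hq) (z : Od n) (hq : q * phi h w = phi h z) :
    ∃ z' : Od n, q = phi h z' ∧ z = w * z' := by
  have hn0 : 0 < n := Nat.pos_of_ne_zero (NeZero.ne n)
  have hN : w.norm ≠ 0 := (od_norm_pos n hn0 w hw).ne'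
  have h1 : ((w.norm : ℤ) : Hq) * q = phi h (z * star w) := by
    rw [map_mul, ← hq, mul_assoc, ← map_mul, ← Zsqrtd.norm_eq_mul_conj, phi_int, int_comm]
  obtain ⟨z', hz', hz''⟩ := phi_div hs h w.norm hN q _ h1
  refine ⟨z', hz', ?_⟩
  have hsw : star w ≠ 0 := by
    intro h0
    apply hw
    have := congrArg star h0
    simpa using this
  apply mul_right_cancel₀ hsw
  rw [hz'', Zsqrtd.norm_eq_mul_conj]; ring

end Pool.Agent.TM32
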