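import Mathlib
import Pool.Agent.Lib_helper72.TM32.Phi
set_option autoImplicit false
namespace Pool.Agent.TM32

/-- the ideal of the order attached to a quaternion -/
def Iq {n : ℕ} {μ : Hq} (h : IsOm n μ) (a : Hq) : Ideal (Od n) := (Ideal.span {a}).comap (phi h)

theorem mem_Iq {n : ℕ} {μ : Hq} (h : IsOm n μ) (a : Hq) (z : Od n) :
    z ∈ Iq h a ↔ ∃ q : Hq, phi h z = q * a := by
  unfold Iq
  rw [Ideal.mem_comap, Ideal.mem_span_singleton']
  constructor
  · rintro ⟨q, hq⟩; exact ⟨q, hq.symm⟩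
  · rintro ⟨q, hq⟩; exact ⟨q, hq.symm⟩

theorem add_star_int (q : Hq) : q + star q = ((2 * q.re : ℤ) : Hq) := by
  apply Quaternion.ext
  · rw [Quaternion.re_add, Quaternion.re_star, re_int]; ring
  · rw [Quaternion.imI_add, Quaternion.imI_star, imI_int]; ring
  · rw [Quaternion.imJ_add, Quaternion.imJ_star, imJ_int]; ring
  · rw [Quaternion.imK_add, Quaternion.imK_star, imK_int]; ring

theorem quad_id (b x : Hq) : b * x * b = ((2 * (b * x).re : ℤ) : Hq) * b
    - ((nrm b : ℤ) : Hq) * star x := by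
  have h1 : b * x = ((2 * (b * x).re : ℤ) : Hq) - star (b * x) := by
    rw [← add_star_int (b * x)]; abel
  have h2 : star (b * x) * b = ((nrm b : ℤ) : Hq) * star x := by
    rw [star_mul, mul_assoc, star_mul_self', int_comm]
  calc b * x * b = (((2 * (b * x).re : ℤ) : Hq) - star (b * x)) * b := by rw [← h1]
    _ = _ := by rw [sub_mul, h2]

theorem re_mul_comm (a b : Hq) : (a * b).re = (b * a).re := by
  rw [Quaternion.re_mul, Quaternion.re_mul]; ring

theorem twist_star (a μ μ1 : Hq) (ha : nrm a ≠ 0) (ht : a * μ = μ1 * a) :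
    μ * star a = star a * μ1 := by
  apply mul_right_cancel' _ _ a ha
  rw [mul_assoc, star_mul_self', mul_assoc, ← ht, ← mul_assoc, star_mul_self', int_comm]

/-- constructor -/
def mkq (a b c d : ℤ) : Hq := ⟨a, b, c, d⟩
theorem mkq_re (a b c d : ℤ) : (mkq a b c d).re = a := rfl
theorem mkq_imI (a b c d : ℤ) : (mkq a b c d).imI = b := rfl
theorem mkq_imJ (a b c d : ℤ) : (mkq a b c d).imJ = c := rfl
theorem mkq_imK (a b c d : ℤ) : (mkq a b c d).imK = d := rfl

/-- primitive quaternions -/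
def Prim (a : Hq) : Prop := ∃ u v w t : ℤ, u * a.re + v * a.imI + w * a.imJ + t * a.imK = 1

theorem int_mul_re (c : ℤ) (a : Hq) : ((c : Hq) * a).re = c * a.re := by
  rw [Quaternion.re_mul, re_int, imI_int, imJ_int, imK_int]; ring
theorem int_mul_imI (c : ℤ) (a : Hq) : ((c : Hq) * a).imI = c * a.imI := by
  rw [Quaternion.imI_mul, re_int, imI_int, imJ_int, imK_int]; ring
theorem int_mul_imJ (c : ℤ) (a : Hq) : ((c : Hq) * a).imJ = c * a.imJ := by
  rw [Quaternion.imJ_mul, re_int, imI_int, imJ_int, imK_int]; ring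
theorem int_mul_imK (c : ℤ) (a : Hq) : ((c : Hq) * a).imK = c * a.imK := by
  rw [Quaternion.imK_mul, re_int, imI_int, imJ_int, imK_int]; ring

theorem content (a : Hq) (ha : nrm a ≠ 0) :
    ∃ (c : ℤ) (a' : Hq), a = (c : Hq) * a' ∧ Prim a' := by
  set g1 := Int.gcd a.re a.imI with hg1
  set g2 := Int.gcd a.imJ a.imK with hg2
  set c := Int.gcd g1 g2 with hc
  have d1 : (c : ℤ) ∣ g1 := Int.gcd_dvd_left _ _
  have d2 : (c : ℤ) ∣ g2 := Int.gcd_dvd_right _ _
  obtain ⟨x0, hx0⟩ : (c : ℤ) ∣ a.re := d1.trans (Int.gcd_dvd_left _ _)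
  obtain ⟨x1, hx1⟩ : (c : ℤ) ∣ a.imI := d1.trans (Int.gcd_dvd_right _ _)
  obtain ⟨x2, hx2⟩ : (c : ℤ) ∣ a.imJ := d2.trans (Int.gcd_dvd_left _ _)
  obtain ⟨x3, hx3⟩ : (c : ℤ) ∣ a.imK := d2.trans (Int.gcd_dvd_right _ _)
  have e1 := Int.gcd_eq_gcd_ab a.re a.imI
  have e2 := Int.gcd_eq_gcd_ab a.imJ a.imK
  have e3 := Int.gcd_eq_gcd_ab g1 g2
  rw [← hg1] at e1
  rw [← hg2] at e2
  rw [← hc] at e3
  have hc0 : (c : ℤ) ≠ 0 := by
    intro h0
    apply ha
    unfold nrm
    rw [hx0, hx1, hx2, hx3, h0]; ring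
  refine ⟨c, mkq x0 x1 x2 x3, ?_, ?_⟩
  · apply Quaternion.ext
    · rw [int_mul_re, mkq_re]; exact hx0
    · rw [int_mul_imI, mkq_imI]; exact hx1
    · rw [int_mul_imJ, mkq_imJ]; exact hx2
    · rw [int_mul_imK, mkq_imK]; exact hx3
  · refine ⟨Int.gcdA g1 g2 * Int.gcdA a.re a.imI, Int.gcdA g1 g2 * Int.gcdB a.re a.imI,
      Int.gcdB g1 g2 * Int.gcdA a.imJ a.imK, Int.gcdB g1 g2 * Int.gcdB a.imJ a.imK, ?_⟩
    apply mul_left_cancel₀ hc0
    show (c : ℤ) * (_ * x0 + _ * x1 + _ * x2 + _ * x3) = (c : ℤ) * 1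
    linear_combination (-Int.gcdA g1 g2 * Int.gcdA a.re a.imI) * hx0
      + (-Int.gcdA g1 g2 * Int.gcdB a.re a.imI) * hx1
      + (-Int.gcdB g1 g2 * Int.gcdA a.imJ a.imK) * hx2
      + (-Int.gcdB g1 g2 * Int.gcdB a.imJ a.imK) * hx3 - e3 - Int.gcdA g1 g2 * e1
      - Int.gcdB g1 g2 * e2

theorem bez3 (x y z : ℤ) (h : ∀ d : ℤ, d ∣ x → d ∣ y → d ∣ z → IsUnit d) :
    ∃ u v w : ℤ, u * x + v * y + w * z = 1 := by
  set g := Int.gcd y z with hg
  set d := Int.gcd x g with hd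
  have h1 : (d : ℤ) ∣ x := Int.gcd_dvd_left _ _
  have h2 : (d : ℤ) ∣ g := Int.gcd_dvd_right _ _
  have h3 : (d : ℤ) ∣ y := h2.trans (Int.gcd_dvd_left _ _)
  have h4 : (d : ℤ) ∣ z := h2.trans (Int.gcd_dvd_right _ _)
  have h7 : d = 1 := by
    have := Int.isUnit_iff.1 (h d h1 h3 h4)
    omega
  have e1 := Int.gcd_eq_gcd_ab x g
  have e2 := Int.gcd_eq_gcd_ab y z
  rw [← hd, h7] at e1
  rw [← hg] at e2
  have e1' : (1 : ℤ) = x * Int.gcdA x g + g * Int.gcdB x g := by exact_mod_cast e1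
  refine ⟨Int.gcdA x g, Int.gcdB x g * Int.gcdA y z, Int.gcdB x g * Int.gcdB y z, ?_⟩
  linear_combination -e1' - Int.gcdB x g * e2

theorem star_re (a : Hq) : (star a).re = a.re := Quaternion.re_star a

theorem key_prim {n : ℕ} (hs : Squarefree n) {μ : Hq} (h : IsOm n μ) (a μ1 : Hq)
    (hm : nrm a % 2 = 1) (ht : a * μ = μ1 * a) (hp : Prim a) :
    ∃ (r : ℤ) (q X Y : Hq), μ - (r : Hq) = q * a ∧
      a = X * (μ - (r : Hq)) + Y * ((nrm a : ℤ) : Hq) := by
  have ha0 : nrm a ≠ 0 := by omega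
  obtain ⟨u, v, w, t, huv⟩ := hp
  set m := nrm a with hmdef
  set b := star a with hb
  have hbm : nrm b = m := nrm_star a
  obtain ⟨s, hs2⟩ : ∃ s, m + 1 = 2 * s := ⟨(m + 1) / 2, by omega⟩
  let g : Hq := ⟨s * u, s * v, s * w, s * t⟩
  have hg : 2 * (b * g).re = m + 1 := by
    rw [Quaternion.re_mul, hb, Quaternion.re_star, Quaternion.imI_star, Quaternion.imJ_star,
      Quaternion.imK_star]
    show 2 * (a.re * (s * u) - -a.imI * (s * v) - -a.imJ * (s * w) - -a.imK * (s * t)) = m + 1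
    linear_combination 2 * s * huv - hs2
  have hbgb : b = b * g * b + ((m : ℤ) : Hq) * (star g - b) := by
    rw [quad_id, hg, hbm, mul_sub, Int.cast_add, add_mul]
    simp
  have htw : μ * b = b * μ1 := twist_star a μ μ1 ha0 ht
  set r : ℤ := 2 * (b * (g * μ)).re with hr
  set q : Hq := (star g - b) * μ1 - star (g * μ) with hq
  have h1 : (μ - (r : Hq)) * b = ((m : ℤ) : Hq) * q := by
    have e1 : μ * b = b * g * μ * b + ((m : ℤ) : Hq) * ((star g - b) * μ1) := by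
      calc μ * b = b * μ1 := htw
        _ = (b * g * b + ((m : ℤ) : Hq) * (star g - b)) * μ1 := by rw [← hbgb]
        _ = b * g * (b * μ1) + ((m : ℤ) : Hq) * ((star g - b) * μ1) := by
          rw [add_mul, mul_assoc (b * g), mul_assoc ((m : ℤ) : Hq)]
        _ = b * g * μ * b + ((m : ℤ) : Hq) * ((star g - b) * μ1) := by
          rw [← htw, mul_assoc (b * g)]
    have e2 : b * g * μ * b = (r : Hq) * b - ((m : ℤ) : Hq) * star (g * μ) := by
      rw [mul_assoc b g μ, quad_id, hbm]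
    rw [sub_mul, e1, e2, hq, mul_sub]
    abel
  have h2 : μ - (r : Hq) = q * a := by
    apply int_cancel' m ha0
    calc (μ - (r : Hq)) * ((m : ℤ) : Hq) = (μ - (r : Hq)) * (b * a) := by
          rw [hb, star_mul_self']
      _ = ((m : ℤ) : Hq) * (q * a) := by rw [← mul_assoc, h1, mul_assoc]
      _ = q * a * ((m : ℤ) : Hq) := int_comm _ _
  have h3 : (n : ℤ) + r ^ 2 = nrm q * m := by
    rw [hmdef, ← nrm_mul, ← h2]
    unfold nrm
    rw [Quaternion.re_sub, Quaternion.imI_sub, Quaternion.imJ_sub, Quaternion.imK_sub, re_int,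
      imI_int, imJ_int, imK_int, h.re0]
    linear_combination -h.sum
  obtain ⟨x, y, z, hxyz⟩ := bez3 (nrm q) m (2 * r) (by
    intro d d1 d2 d3
    have d4 : d ∣ r := by
      obtain ⟨e, he⟩ := d3
      obtain ⟨f, hf⟩ := d2
      have hd2 : d % 2 = 1 := by
        rcases Int.emod_two_eq_zero_or_one d with h0 | h0
        · exfalso
          obtain ⟨d', hd'⟩ : ∃ d', d = 2 * d' := ⟨d / 2, by omega⟩
          have : m = 2 * (d' * f) := by rw [hf, hd']; ring
          omega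
        · exact h0
      obtain ⟨d', hd'⟩ : ∃ d', d = 2 * d' + 1 := ⟨d / 2, by omega⟩
      refine ⟨r - d' * e, ?_⟩
      rw [hd'] at he ⊢
      linear_combination (-d') * he
    have d5 : d * d ∣ (n : ℤ) := by
      have e1 : d * d ∣ nrm q * m := mul_dvd_mul d1 d2
      have e2 : d * d ∣ r ^ 2 := by rw [pow_two]; exact mul_dvd_mul d4 d4
      rw [← h3] at e1
      exact (dvd_add_left e2).1 e1
    exact (Int.squarefree_natCast.2 hs) d d5)
  have h4 : ((-(2 * r) : ℤ) : Hq) = a * q + star q * star a := by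
    have e1 := add_star_int (a * q)
    rw [star_mul] at e1
    rw [e1, re_mul_comm, ← h2, Quaternion.re_sub, re_int, h.re0]
    congr 1; ring
  have h5 : (1 : Hq) = ((x : Hq) * star q - (z : Hq) * a) * q
      + ((y : Hq) * a - (z : Hq) * star q) * star a := by
    have e1 : (1 : Hq) = (x : Hq) * ((nrm q : ℤ) : Hq) + (y : Hq) * ((m : ℤ) : Hq)
        - (z : Hq) * ((-(2 * r) : ℤ) : Hq) := by
      have : ((x * nrm q + y * m + z * (2 * r) : ℤ) : Hq) = 1 := by rw [hxyz]; simp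
      rw [← this, Int.cast_add, Int.cast_add, Int.cast_mul, Int.cast_mul, Int.cast_mul,
        Int.cast_neg]
      noncomm_ring
    rw [e1, h4, ← star_mul_self' q, hmdef, ← self_mul_star' a]
    noncomm_ring
  refine ⟨r, q, (x : Hq) * star q - (z : Hq) * a, (y : Hq) * a - (z : Hq) * star q, h2, ?_⟩
  calc a = 1 * a := (one_mul a).symm
    _ = (((x : Hq) * star q - (z : Hq) * a) * q
      + ((y : Hq) * a - (z : Hq) * star q) * star a) * a := by rw [← h5]
    _ = _ := by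
      rw [add_mul, mul_assoc _ q a, ← h2, mul_assoc _ (star a) a, star_mul_self']

theorem key {n : ℕ} (hs : Squarefree n) {μ : Hq} (h : IsOm n μ) (a μ1 : Hq)
    (hm : nrm a % 2 = 1) (ht : a * μ = μ1 * a) : a ∈ (Iq h a).map (phi h) := by
  obtain ⟨c, a', hca, hp⟩ := content a (by omega)
  have hn : nrm a = c ^ 2 * nrm a' := by rw [hca, nrm_mul, nrm_int]
  have hc0 : c ≠ 0 := by
    rintro rfl
    rw [hn] at hm; omega
  have hm' : nrm a' % 2 = 1 := by
    rcases Int.emod_two_eq_zero_or_one (nrm a') with h0 | h0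
    · exfalso
      obtain ⟨d', hd'⟩ : ∃ d', nrm a' = 2 * d' := ⟨nrm a' / 2, by omega⟩
      have : nrm a = 2 * (c ^ 2 * d') := by rw [hn, hd']; ring
      omega
    · exact h0
  have ht' : a' * μ = μ1 * a' := by
    apply int_cancel c hc0
    rw [← mul_assoc, ← hca, ht, hca, ← mul_assoc, ← mul_assoc, int_comm]
  obtain ⟨r, q, X, Y, h1, h2⟩ := key_prim hs h a' μ1 hm' ht' hp
  have m1 : (c : Od n) * (Zsqrtd.sqrtd - (r : Od n)) ∈ Iq h a := by
    rw [mem_Iq]
    refine ⟨q, ?_⟩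
    rw [map_mul, map_sub, phi_int, phi_int, phi_sqrtd, h1, hca, ← mul_assoc, ← mul_assoc, int_comm]
  have m2 : (c : Od n) * ((nrm a' : ℤ) : Od n) ∈ Iq h a := by
    rw [mem_Iq]
    refine ⟨star a', ?_⟩
    rw [map_mul, phi_int, phi_int, hca, ← mul_assoc, ← int_comm c, mul_assoc, star_mul_self']
  have h3 : a = X * phi h ((c : Od n) * (Zsqrtd.sqrtd - (r : Od n)))
      + Y * phi h ((c : Od n) * ((nrm a' : ℤ) : Od n)) := by
    rw [map_mul, map_mul, map_sub, phi_int, phi_int, phi_int, phi_sqrtd, ← mul_assoc, ← mul_assoc,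
      ← int_comm c X, ← int_comm c Y, mul_assoc, mul_assoc, ← mul_add, ← h2]
    exact hca
  have h4 : X * phi h ((c : Od n) * (Zsqrtd.sqrtd - (r : Od n)))
      + Y * phi h ((c : Od n) * ((nrm a' : ℤ) : Od n)) ∈ (Iq h a).map (phi h) :=
    Ideal.add_mem _ (Ideal.mul_mem_left _ _ (Ideal.mem_map_of_mem _ m1))
      (Ideal.mul_mem_left _ _ (Ideal.mem_map_of_mem _ m2))
  rw [← h3] at h4
  exact h4

theorem map_Iq {n : ℕ} (hs : Squarefree n) {μ : Hq} (h : IsOm n μ) (a μ1 : Hq)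
    (hm : nrm a % 2 = 1) (ht : a * μ = μ1 * a) : (Iq h a).map (phi h) = Ideal.span {a} := by
  apply le_antisymm
  · exact Ideal.map_comap_le
  · rw [Ideal.span_singleton_le_iff_mem]
    exact key hs h a μ1 hm ht

/-- description of `Iq` for primitive `a` -/
theorem Iq_prim {n : ℕ} (hs : Squarefree n) {μ : Hq} (h : IsOm n μ) (a μ1 : Hq)
    (hm : nrm a % 2 = 1) (ht : a * μ = μ1 * a) (hp : Prim a) :
    ∃ r : ℤ, nrm a ∣ r ^ 2 + n ∧ ∀ z : Od n, z ∈ Iq h a ↔ nrm a ∣ z.re + r * z.im := by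
  have ha0 : nrm a ≠ 0 := by omega
  obtain ⟨r, q, X, Y, h1, h2⟩ := key_prim hs h a μ1 hm ht hp
  have h3 : (n : ℤ) + r ^ 2 = nrm q * nrm a := by
    rw [← nrm_mul, ← h1]
    unfold nrm
    rw [Quaternion.re_sub, Quaternion.imI_sub, Quaternion.imJ_sub, Quaternion.imK_sub, re_int,
      imI_int, imJ_int, imK_int, h.re0]
    linear_combination -h.sum
  have hint : ∀ (t : ℤ) (p : Hq), (t : Hq) = p * a → nrm a ∣ t := by
    intro t p hp'
    have e1 : (t : Hq) * star a = ((nrm a : ℤ) : Hq) * p := by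
      rw [hp', mul_assoc, self_mul_star', int_comm]
    have e2 := congrArg (fun q : Hq => q.re) e1
    have e3 := congrArg (fun q : Hq => q.imI) e1
    have e4 := congrArg (fun q : Hq => q.imJ) e1
    have e5 := congrArg (fun q : Hq => q.imK) e1
    simp only [int_mul_re, int_mul_imI, int_mul_imJ, int_mul_imK, Quaternion.re_star,
      Quaternion.imI_star, Quaternion.imJ_star, Quaternion.imK_star] at e2 e3 e4 e5
    obtain ⟨u, v, w, s, huv⟩ := hp
    refine ⟨u * p.re - v * p.imI - w * p.imJ - s * p.imK, ?_⟩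
    linear_combination (-t) * huv + u * e2 - v * e3 - w * e4 - s * e5
  refine ⟨r, ⟨nrm q, by rw [add_comm, h3]; ring⟩, ?_⟩
  intro z
  rw [mem_Iq]
  have e0 : phi h z = ((z.re + r * z.im : ℤ) : Hq) + (z.im : Hq) * (μ - (r : Hq)) := by
    rw [phi_apply, Int.cast_add, Int.cast_mul, int_comm r]
    noncomm_ring
  constructor
  · rintro ⟨p, hp'⟩
    apply hint _ (p - (z.im : Hq) * q)
    rw [sub_mul, ← hp', e0, h1]
    noncomm_ring
  · rintro ⟨t, ht⟩
    refine ⟨(t : Hq) * star a + (z.im : Hq) * q, ?_⟩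
    rw [e0, h1, ht, add_mul, mul_assoc _ (star a), star_mul_self', mul_assoc, Int.cast_mul, int_comm t]

end Pool.Agent.TM32
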