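import Mathlib
import Pool.Agent.Lib_helper72.TM32.Key
import Pool.Agent.Lib_helper72.TM32.Ded2
set_option autoImplicit false
namespace Pool.Agent.TM32

theorem comap_map {n : ℕ} [NeZero n] [IsDedekindDomain (Od n)] (hs : Squarefree n) {μ : Hq}
    (h : IsOm n μ) (I : Ideal (Od n)) (hI : I ≠ ⊥) : (I.map (phi h)).comap (phi h) = I := by
  apply le_antisymm _ Ideal.le_comap_map
  obtain ⟨x, hxI, hx0⟩ := Submodule.exists_mem_ne_zero_of_ne_bot hI
  obtain ⟨I', hI'⟩ : I ∣ Ideal.span {x} := by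
    rw [Ideal.dvd_iff_le, Ideal.span_singleton_le_iff_mem]; exact hxI
  have hI'0 : I' ≠ 0 := by
    rintro rfl
    rw [mul_zero] at hI'
    have : Ideal.span {x} = (⊥ : Ideal (Od n)) := hI'
    rw [Ideal.span_singleton_eq_bot] at this
    exact hx0 this
  intro z hz
  rw [Ideal.mem_comap] at hz
  have key1 : ∀ i' ∈ I', ∀ q ∈ I.map (phi h), q * phi h i' ∈ Ideal.span {phi h x} := by
    intro i' hi' q hq
    unfold Ideal.map at hq
    induction hq using Submodule.span_induction with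
    | mem y hy =>
      obtain ⟨i, hi, rfl⟩ := hy
      rw [← map_mul]
      have h1 : i * i' ∈ Ideal.span {x} := by rw [hI']; exact Ideal.mul_mem_mul hi hi'
      obtain ⟨t, ht⟩ := Ideal.mem_span_singleton'.1 h1
      rw [← ht, map_mul]
      exact Ideal.mul_mem_left _ _ (Ideal.mem_span_singleton_self _)
    | zero => rw [zero_mul]; exact Ideal.zero_mem _
    | add y y' _ _ h1 h2 => rw [add_mul]; exact Ideal.add_mem _ h1 h2
    | smul c y _ h1 => rw [smul_eq_mul, mul_assoc]; exact Ideal.mul_mem_left _ _ h1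
  have h2 : Ideal.span {z} * I' ≤ I * I' := by
    rw [Ideal.mul_le]
    intro r hr i' hi'
    obtain ⟨t, rfl⟩ := Ideal.mem_span_singleton'.1 hr
    have h3 := key1 i' hi' (phi h z) hz
    obtain ⟨q, hq⟩ := Ideal.mem_span_singleton'.1 h3
    rw [← map_mul] at hq
    obtain ⟨z', -, hz'⟩ := phi_div' hs h x hx0 q _ hq
    rw [mul_assoc, hz', ← hI']
    exact Ideal.mul_mem_left _ _ (Ideal.mul_mem_right _ _ (Ideal.mem_span_singleton_self _))
  rw [← Ideal.dvd_iff_le, mul_dvd_mul_iff_right hI'0, Ideal.dvd_iff_le,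
    Ideal.span_singleton_le_iff_mem] at h2
  exact h2

theorem Iq_scale {n : ℕ} [NeZero n] (hs : Squarefree n) {μ : Hq} (h : IsOm n μ) (a : Hq)
    (w : Od n) (hw : w ≠ 0) : Iq h (a * phi h w) = Ideal.span {w} * Iq h a := by
  ext z
  rw [mem_Iq, Ideal.mem_span_singleton_mul]
  constructor
  · rintro ⟨q, hq⟩
    rw [← mul_assoc] at hq
    obtain ⟨z', hz', hz''⟩ := phi_div' hs h w hw (q * a) z hq.symm
    exact ⟨z', (mem_Iq h a z').2 ⟨q, hz'.symm⟩, hz''.symm⟩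
  · rintro ⟨z', hz', rfl⟩
    obtain ⟨q, hq⟩ := (mem_Iq h a z').1 hz'
    exact ⟨q, by rw [mul_comm w, map_mul, hq, mul_assoc]⟩

theorem norm_ne (n : ℕ) [NeZero n] (w : Od n) (hw : w ≠ 0) : w.norm ≠ 0 :=
  (od_norm_pos n (Nat.pos_of_ne_zero (NeZero.ne n)) w hw).ne'

theorem Iq_indep {n : ℕ} [NeZero n] (hs : Squarefree n) {μ μ1 : Hq} (h : IsOm n μ) (a b : Hq)
    (ha : nrm a ≠ 0) (hb : nrm b ≠ 0) (hta : a * μ = μ1 * a) (htb : b * μ = μ1 * b) :
    ∃ x y : Od n, x ≠ 0 ∧ y ≠ 0 ∧ Ideal.span {x} * Iq h a = Ideal.span {y} * Iq h b := by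
  have h1 : (star a * b) * μ = μ * (star a * b) := by
    rw [mul_assoc, htb, ← mul_assoc, ← twist_star a μ μ1 ha hta, mul_assoc]
  obtain ⟨w, hw⟩ := commutant hs h _ h1
  have hw0 : w ≠ 0 := by
    rintro rfl
    rw [map_zero] at hw
    have h2 : nrm (star a * b) = 0 := by rw [hw, nrm_zero]
    rw [nrm_mul, nrm_star] at h2
    rcases mul_eq_zero.1 h2 with h3 | h3
    · exact ha h3
    · exact hb h3
  refine ⟨w, ((nrm a : ℤ) : Od n), hw0, ?_, ?_⟩
  · intro h0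
    have h2 := congrArg Zsqrtd.re h0
    simp at h2
    exact ha h2
  · rw [← Iq_scale hs h a w hw0, ← Iq_scale hs h b _ (by
      intro h0
      have h2 := congrArg Zsqrtd.re h0
      simp at h2
      exact ha h2), ← hw, ← mul_assoc, self_mul_star', phi_int, int_comm]

theorem map_mul_mem {n : ℕ} {μ : Hq} (h : IsOm n μ) (I : Ideal (Od n)) (x : Od n) (q : Hq)
    (hq : q ∈ I.map (phi h)) : q * phi h x ∈ (Ideal.span {x} * I).map (phi h) := by
  unfold Ideal.map at hq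
  induction hq using Submodule.span_induction with
  | mem y hy =>
    obtain ⟨i, hi, rfl⟩ := hy
    rw [← map_mul, mul_comm i x]
    exact Ideal.mem_map_of_mem _ (Ideal.mul_mem_mul (Ideal.mem_span_singleton_self _) hi)
  | zero => rw [zero_mul]; exact Ideal.zero_mem _
  | add y y' _ _ h1 h2 => rw [add_mul]; exact Ideal.add_mem _ h1 h2
  | smul c y _ h1 => rw [smul_eq_mul, mul_assoc]; exact Ideal.mul_mem_left _ _ h1

theorem map_mul_mem' {n : ℕ} {μ : Hq} (h : IsOm n μ) (I : Ideal (Od n)) (x : Od n) (q : Hq)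
    (hq : q ∈ I.map (phi h)) : q * phi h x ∈ I.map (phi h) := by
  have h1 := map_mul_mem h I x q hq
  exact Ideal.map_mono Ideal.mul_le_right h1

/-- equal classes give associates -/
theorem unit_of_class {n : ℕ} [NeZero n] (hs : Squarefree n) {μ μ1 μ2 : Hq} (h : IsOm n μ)
    (a b : Hq) (ha : nrm a % 2 = 1) (hb : nrm b % 2 = 1) (hta : a * μ = μ1 * a)
    (htb : b * μ = μ2 * b) (x y : Od n) (hx : x ≠ 0) (hy : y ≠ 0)
    (he : Ideal.span {x} * Iq h a = Ideal.span {y} * Iq h b) :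
    ∃ u : Hq, nrm u = 1 ∧ μ1 * u = u * μ2 := by
  have h1 : a * phi h x ∈ Ideal.span {b * phi h y} := by
    have e1 := map_mul_mem h _ x a (key hs h a μ1 ha hta)
    rw [he, ← Iq_scale hs h b y hy] at e1
    exact Ideal.map_comap_le e1
  have h2 : b * phi h y ∈ Ideal.span {a * phi h x} := by
    have e1 := map_mul_mem h _ y b (key hs h b μ2 hb htb)
    rw [← he, ← Iq_scale hs h a x hx] at e1
    exact Ideal.map_comap_le e1
  obtain ⟨u, hu⟩ := Ideal.mem_span_singleton'.1 h1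
  obtain ⟨v, hv⟩ := Ideal.mem_span_singleton'.1 h2
  have hx' := norm_ne n x hx
  have hy' := norm_ne n y hy
  have ha' : nrm (a * phi h x) ≠ 0 := by
    rw [nrm_mul, nrm_phi]
    exact mul_ne_zero (by omega) hx'
  have hb' : nrm (b * phi h y) ≠ 0 := by
    rw [nrm_mul, nrm_phi]
    exact mul_ne_zero (by omega) hy'
  have huv : nrm u * nrm v = 1 := by
    have e1 : nrm (a * phi h x) = nrm u * (nrm v * nrm (a * phi h x)) := by
      rw [← nrm_mul v, hv, ← nrm_mul, hu]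
    have e2 : (nrm u * nrm v) * nrm (a * phi h x) = 1 * nrm (a * phi h x) := by
      rw [one_mul, mul_assoc]; exact e1.symm
    exact mul_right_cancel₀ ha' e2
  refine ⟨u, ?_, ?_⟩
  · exact Int.eq_one_of_mul_eq_one_right (nrm_nonneg u) huv
  · apply mul_right_cancel' _ _ (b * phi h y) hb'
    calc μ1 * u * (b * phi h y) = μ1 * (a * phi h x) := by rw [mul_assoc, hu]
      _ = a * (μ * phi h x) := by rw [← mul_assoc, ← hta, mul_assoc]
      _ = (a * phi h x) * μ := by rw [← phi_comm, mul_assoc]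
      _ = u * (b * phi h y) * μ := by rw [hu]
      _ = u * (b * (μ * phi h y)) := by rw [← phi_comm, mul_assoc, mul_assoc]
      _ = u * μ2 * (b * phi h y) := by rw [← mul_assoc b, htb, mul_assoc, mul_assoc]

/-- parity hom -/
theorem par_aux (n : ℕ) (h8 : n % 8 = 1) : (1 : ZMod 2) * 1 = ((-(n : ℤ) : ℤ) : ZMod 2) := by
  have h1 : ((-(n : ℤ) : ℤ) : ZMod 2) = ((1 : ℤ) : ZMod 2) := by
    rw [ZMod.intCast_eq_intCast_iff_dvd_sub]
    push_cast
    omega
  rw [h1]; simp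

def par (n : ℕ) (h8 : n % 8 = 1) : Od n →+* ZMod 2 :=
  Zsqrtd.lift ⟨1, par_aux n h8⟩

theorem par_apply (n : ℕ) (h8 : n % 8 = 1) (z : Od n) :
    par n h8 z = ((z.re + z.im : ℤ) : ZMod 2) := by
  unfold par
  rw [Zsqrtd.lift_apply_apply]
  push_cast
  ring

theorem odd_aux (a b k : ℤ) : (a ^ 2 + (8 * k + 1) * b ^ 2) % 2 = 1 ↔ ¬ (2 : ℤ) ∣ a + b := by
  rcases Int.even_or_odd' a with ⟨c, rfl | rfl⟩ <;> rcases Int.even_or_odd' b with ⟨d, rfl | rfl⟩
  · have : (2 * c) ^ 2 + (8 * k + 1) * (2 * d) ^ 2 = 2 * (2 * c ^ 2 + 2 * (8 * k + 1) * d ^ 2) := by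
      ring
    rw [this]
    omega
  · have : (2 * c) ^ 2 + (8 * k + 1) * (2 * d + 1) ^ 2
      = 2 * (2 * c ^ 2 + (8 * k + 1) * (2 * d ^ 2 + 2 * d) + 4 * k) + 1 := by
      ring
    rw [this]
    omega
  · have : (2 * c + 1) ^ 2 + (8 * k + 1) * (2 * d) ^ 2
      = 2 * (2 * c ^ 2 + 2 * c + 2 * (8 * k + 1) * d ^ 2) + 1 := by
      ring
    rw [this]
    omega
  · have : (2 * c + 1) ^ 2 + (8 * k + 1) * (2 * d + 1) ^ 2
      = 2 * (2 * c ^ 2 + 2 * c + (8 * k + 1) * (2 * d ^ 2 + 2 * d) + 4 * k + 1) := by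
      ring
    rw [this]
    omega

theorem odd_norm_iff (n : ℕ) (h8 : n % 8 = 1) (z : Od n) :
    z.norm % 2 = 1 ↔ z ∉ RingHom.ker (par n h8) := by
  rw [RingHom.mem_ker, par_apply, ZMod.intCast_zmod_eq_zero_iff_dvd, od_norm]
  obtain ⟨k, hk⟩ : ∃ k : ℤ, (n : ℤ) = 8 * k + 1 := ⟨(n / 8 : ℕ), by omega⟩
  have h1 := odd_aux z.re z.im k
  rw [← hk] at h1
  exact h1

/-- every class contains an ideal with an element of odd norm -/
theorem exists_odd {n : ℕ} [NeZero n] [IsDedekindDomain (Od n)] (h8 : n % 8 = 1)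
    (C : ClassGroup (Od n)) :
    ∃ I : nonZeroDivisors (Ideal (Od n)), ClassGroup.mk0 I = C ∧
      ∃ x ∈ (I : Ideal (Od n)), x.norm % 2 = 1 := by
  obtain ⟨⟨J, hJ⟩, hJC⟩ := ClassGroup.mk0_surjective (C⁻¹)
  have hJ0 : J ≠ 0 := nonZeroDivisors.ne_zero hJ
  set P := RingHom.ker (par n h8) with hP
  have hP1 : P ≠ 1 := by
    intro h1
    have : (1 : Od n) ∈ P := by rw [h1, Ideal.one_eq_top]; trivial
    rw [hP, RingHom.mem_ker, map_one] at this
    exact absurd this (by decide)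
  have hne : ¬ J ≤ J * P := by
    intro hle
    have h1 : J * P = J := le_antisymm Ideal.mul_le_left hle
    have h2 : J * P = J * 1 := by rw [h1, mul_one]
    exact hP1 (mul_left_cancel₀ hJ0 h2)
  obtain ⟨x, hxJ, hxP⟩ := SetLike.not_le_iff_exists.1 hne
  obtain ⟨Q, hQ⟩ : J ∣ Ideal.span {x} := by
    rw [Ideal.dvd_iff_le, Ideal.span_singleton_le_iff_mem]; exact hxJ
  have hx0 : x ≠ 0 := by
    rintro rfl; exact hxP (Ideal.zero_mem _)
  have hQ0 : Q ≠ 0 := by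
    rintro rfl
    rw [mul_zero] at hQ
    have : Ideal.span {x} = (⊥ : Ideal (Od n)) := hQ
    rw [Ideal.span_singleton_eq_bot] at this
    exact hx0 this
  have hQP : ¬ Q ≤ P := by
    intro hle
    apply hxP
    have h1 : x ∈ J * Q := by rw [← hQ]; exact Ideal.mem_span_singleton_self x
    exact Ideal.mul_mono_right hle h1
  obtain ⟨y, hyQ, hyP⟩ := SetLike.not_le_iff_exists.1 hQP
  refine ⟨⟨Q, mem_nonZeroDivisors_iff_ne_zero.2 hQ0⟩, ?_, y, hyQ, (odd_norm_iff n h8 y).2 hyP⟩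
  have h1 : ClassGroup.mk0 (⟨J, hJ⟩ * ⟨Q, mem_nonZeroDivisors_iff_ne_zero.2 hQ0⟩) = 1 := by
    rw [ClassGroup.mk0_eq_one_iff]
    show (J * Q).IsPrincipal
    rw [← hQ]
    exact ⟨⟨x, rfl⟩⟩
  rw [map_mul, hJC, inv_mul_eq_one] at h1
  exact h1.symm

end Pool.Agent.TM32
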