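import Mathlib
import Pool.Agent.Lib_helper72.TM32.ClassMap
set_option autoImplicit false
namespace Pool.Agent.TM32

theorem om_even {n : ℕ} (h8 : n % 8 = 1) {μ : Hq} (h : IsOm n μ) :
    ∃ c d : ℤ, μ.imJ = 2 * c ∧ μ.imK = 2 * d ∧ (c - d) % 2 = 0 := by
  obtain ⟨k, hk⟩ : ∃ k : ℤ, (n : ℤ) = 8 * k + 1 := ⟨(n / 8 : ℕ), by omega⟩
  obtain ⟨e, he⟩ : ∃ e, μ.imI = 2 * e + 1 := ⟨μ.imI / 2, by have := h.odd; omega⟩
  obtain ⟨f, hf⟩ := Int.even_mul_succ_self e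
  have hs := h.sum
  rw [hk] at hs
  have h1 : μ.imJ ^ 2 + μ.imK ^ 2 = 8 * (k - f) := by
    rw [he] at hs
    linear_combination hs - 4 * hf
  rcases Int.even_or_odd' μ.imJ with ⟨c, hc | hc⟩ <;>
    rcases Int.even_or_odd' μ.imK with ⟨d, hd | hd⟩
  · refine ⟨c, d, hc, hd, ?_⟩
    rw [hc, hd] at h1
    have h2 : c ^ 2 + d ^ 2 = 2 * (k - f) := by linarith
    rcases Int.even_or_odd' c with ⟨c', rfl | rfl⟩ <;> rcases Int.even_or_odd' d with ⟨d', rfl | rfl⟩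
    · omega
    · exfalso
      have : 2 * (2 * c' ^ 2 + 2 * d' ^ 2 + 2 * d') + 1 = 2 * (k - f) := by linarith
      omega
    · exfalso
      have : 2 * (2 * c' ^ 2 + 2 * d' ^ 2 + 2 * c') + 1 = 2 * (k - f) := by linarith
      omega
    · omega
  · exfalso
    rw [hc, hd] at h1
    have : 2 * (2 * c ^ 2 + 2 * d ^ 2 + 2 * d) + 1 = 8 * (k - f) := by linarith
    omega
  · exfalso
    rw [hc, hd] at h1
    have : 2 * (2 * c ^ 2 + 2 * d ^ 2 + 2 * c) + 1 = 8 * (k - f) := by linarith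
    omega
  · exfalso
    rw [hc, hd] at h1
    have : 4 * (c ^ 2 + d ^ 2 + c + d) + 2 = 8 * (k - f) := by linarith
    omega

theorem exists_tw1 {n : ℕ} (h8 : n % 8 = 1) {μ0 μ1 : Hq} (h0 : IsOm n μ0) (h1 : IsOm n μ1)
    (hc : (μ0.imI - μ1.imI) % 4 = 0) : ∃ a : Hq, nrm a % 2 = 1 ∧ a * μ0 = μ1 * a := by
  obtain ⟨k, hk⟩ : ∃ k : ℤ, (n : ℤ) = 8 * k + 1 := ⟨(n / 8 : ℕ), by omega⟩
  obtain ⟨c0, d0, hc0, hd0, hcd0⟩ := om_even h8 h0
  obtain ⟨c1, d1, hc1, hd1, hcd1⟩ := om_even h8 h1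
  obtain ⟨e, he⟩ : ∃ e, μ0.imI = 2 * e + 1 := ⟨μ0.imI / 2, by have := h0.odd; omega⟩
  obtain ⟨t, ht⟩ : ∃ t, μ1.imI = μ0.imI + 4 * t := ⟨(μ1.imI - μ0.imI) / 4, by omega⟩
  let a : Hq := mkq 0 (2 * e + 1 + 2 * t) (c0 + c1) (d0 + d1)
  have h2 : ((2 : ℤ) : Hq) * a = μ0 + μ1 := by
    apply Quaternion.ext
    · rw [int_mul_re, mkq_re, Quaternion.re_add, h0.re0, h1.re0]; ring
    · rw [int_mul_imI, mkq_imI, Quaternion.imI_add, ht, he]; ring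
    · rw [int_mul_imJ, mkq_imJ, Quaternion.imJ_add, hc0, hc1]; ring
    · rw [int_mul_imK, mkq_imK, Quaternion.imK_add, hd0, hd1]; ring
  refine ⟨a, ?_, ?_⟩
  · have h3 : nrm a = (2 * e + 1 + 2 * t) ^ 2 + (c0 + c1) ^ 2 + (d0 + d1) ^ 2 := by
      unfold nrm; rw [mkq_re, mkq_imI, mkq_imJ, mkq_imK]; ring
    have s0 := h0.sum
    have s1 := h1.sum
    rw [hc0, hd0, he, hk] at s0
    rw [hc1, hd1, ht, he, hk] at s1
    obtain ⟨u, hu⟩ : ∃ u, c0 = d0 + 2 * u := ⟨(c0 - d0) / 2, by omega⟩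
    obtain ⟨v, hv⟩ : ∃ v, c1 = d1 + 2 * v := ⟨(c1 - d1) / 2, by omega⟩
    -- c0 c1 + d0 d1 = 2 (d0 d1 + d0 v + u d1 + 2 u v)
    have h4 : nrm a = 2 * (2 * k + e ^ 2 + e + 2 * t * e + t + (d0 * d1 + d0 * v + u * d1 + 2 * u * v) * 2) + 1 - 0 := by
      rw [h3]
      rw [hu] at s0 ⊢
      rw [hv] at s1 ⊢
      linarith
    rw [h4]; omega
  · apply int_cancel 2 (by norm_num)
    rw [← mul_assoc, h2, ← mul_assoc, int_comm, mul_assoc, h2, mul_add, add_mul, h0.sq, h1.sq]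
    abel

def s1 : Fin 4 → ℤ := ![1, 1, -1, -1]
def s2 : Fin 4 → ℤ := ![1, -1, 1, -1]
def s3 : Fin 4 → ℤ := ![1, -1, -1, 1]

/-- sign changes -/
def fl (v : Fin 4) (μ : Hq) : Hq := mkq μ.re (s1 v * μ.imI) (s2 v * μ.imJ) (s3 v * μ.imK)

/-- the units -/
def U : Fin 4 → Hq := ![mkq 1 0 0 0, mkq 0 1 0 0, mkq 0 0 1 0, mkq 0 0 0 1]

theorem fl_re (v : Fin 4) (μ : Hq) : (fl v μ).re = μ.re := rfl
theorem fl_imI (v : Fin 4) (μ : Hq) : (fl v μ).imI = s1 v * μ.imI := rfl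
theorem fl_imJ (v : Fin 4) (μ : Hq) : (fl v μ).imJ = s2 v * μ.imJ := rfl
theorem fl_imK (v : Fin 4) (μ : Hq) : (fl v μ).imK = s3 v * μ.imK := rfl

theorem nrm_U (v : Fin 4) : nrm (U v) = 1 := by
  fin_cases v <;> (unfold nrm; simp [U, mkq_re, mkq_imI, mkq_imJ, mkq_imK])

theorem U0 : U 0 = mkq 1 0 0 0 := rfl
theorem U1 : U 1 = mkq 0 1 0 0 := rfl
theorem U2 : U 2 = mkq 0 0 1 0 := rfl
theorem U3 : U 3 = mkq 0 0 0 1 := rfl

theorem U_mul (v : Fin 4) (μ : Hq) : U v * μ = fl v μ * U v := by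
  fin_cases v
  · show U 0 * μ = fl 0 μ * U 0
    apply Quaternion.ext <;> simp only [Quaternion.re_mul, Quaternion.imI_mul, Quaternion.imJ_mul,
      Quaternion.imK_mul, fl_re, fl_imI, fl_imJ, fl_imK, U0, mkq_re, mkq_imI, mkq_imJ, mkq_imK] <;>
      simp [s1, s2, s3]
  · show U 1 * μ = fl 1 μ * U 1
    apply Quaternion.ext <;> simp only [Quaternion.re_mul, Quaternion.imI_mul, Quaternion.imJ_mul,
      Quaternion.imK_mul, fl_re, fl_imI, fl_imJ, fl_imK, U1, mkq_re, mkq_imI, mkq_imJ, mkq_imK] <;>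
      simp [s1, s2, s3]
  · show U 2 * μ = fl 2 μ * U 2
    apply Quaternion.ext <;> simp only [Quaternion.re_mul, Quaternion.imI_mul, Quaternion.imJ_mul,
      Quaternion.imK_mul, fl_re, fl_imI, fl_imJ, fl_imK, U2, mkq_re, mkq_imI, mkq_imJ, mkq_imK] <;>
      simp [s1, s2, s3]
  · show U 3 * μ = fl 3 μ * U 3
    apply Quaternion.ext <;> simp only [Quaternion.re_mul, Quaternion.imI_mul, Quaternion.imJ_mul,
      Quaternion.imK_mul, fl_re, fl_imI, fl_imJ, fl_imK, U3, mkq_re, mkq_imI, mkq_imJ, mkq_imK] <;>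
      simp [s1, s2, s3]

theorem s1_sq (v : Fin 4) : s1 v * s1 v = 1 := by fin_cases v <;> rfl
theorem s2_sq (v : Fin 4) : s2 v * s2 v = 1 := by fin_cases v <;> rfl
theorem s3_sq (v : Fin 4) : s3 v * s3 v = 1 := by fin_cases v <;> rfl
theorem s1_mod (v : Fin 4) : s1 v % 2 = 1 := by fin_cases v <;> rfl

theorem fl_fl (v : Fin 4) (μ : Hq) : fl v (fl v μ) = μ := by
  apply Quaternion.ext
  · rfl
  · rw [fl_imI, fl_imI, ← mul_assoc, s1_sq, one_mul]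
  · rw [fl_imJ, fl_imJ, ← mul_assoc, s2_sq, one_mul]
  · rw [fl_imK, fl_imK, ← mul_assoc, s3_sq, one_mul]

theorem fl_om {n : ℕ} (v : Fin 4) {μ : Hq} (h : IsOm n μ) : IsOm n (fl v μ) where
  re0 := h.re0
  sum := by
    rw [fl_imI, fl_imJ, fl_imK]
    linear_combination h.sum + μ.imI ^ 2 * s1_sq v + μ.imJ ^ 2 * s2_sq v + μ.imK ^ 2 * s3_sq v
  odd := by
    rw [fl_imI, Int.mul_emod, s1_mod, h.odd]; norm_num

theorem om_yz {n : ℕ} (hs : Squarefree n) (h1 : 1 < n) {μ : Hq} (h : IsOm n μ) :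
    ¬ (μ.imJ = 0 ∧ μ.imK = 0) := by
  rintro ⟨hy, hz⟩
  have h2 := h.sum
  rw [hy, hz] at h2
  have h3 : μ.imI * μ.imI ∣ (n : ℤ) := ⟨1, by linarith⟩
  have h4 := (Int.squarefree_natCast.2 hs) _ h3
  rcases Int.isUnit_iff.1 h4 with h5 | h5 <;>
  · rw [h5] at h2
    omega

theorem fl_free {n : ℕ} (hs : Squarefree n) (h1 : 1 < n) {μ : Hq} (h : IsOm n μ) (v w : Fin 4)
    (he : fl v μ = fl w μ) : v = w := by
  have e1 := congrArg (fun q : Hq => q.imI) he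
  have e2 := congrArg (fun q : Hq => q.imJ) he
  have e3 := congrArg (fun q : Hq => q.imK) he
  simp only [fl_imI, fl_imJ, fl_imK] at e1 e2 e3
  have h2 := om_yz hs h1 h
  have h3 := h.odd
  fin_cases v <;> fin_cases w <;> simp [s1, s2, s3] at e1 e2 e3 ⊢ <;> omega

theorem unit_cases (u : Hq) (hu : nrm u = 1) : ∃ v : Fin 4, u = U v ∨ u = -U v := by
  unfold nrm at hu
  have b : ∀ x y z t : ℤ, x ^ 2 + y ^ 2 + z ^ 2 + t ^ 2 = 1 → x = -1 ∨ x = 0 ∨ x = 1 := by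
    intro x y z t h
    have h1 : x ^ 2 ≤ 1 := by nlinarith [sq_nonneg y, sq_nonneg z, sq_nonneg t]
    have h2 : x ≤ 1 := by nlinarith
    have h3 : -1 ≤ x := by nlinarith
    omega
  have b0 := b _ _ _ _ hu
  have b1 := b u.imI u.re u.imJ u.imK (by linarith)
  have b2 := b u.imJ u.re u.imI u.imK (by linarith)
  have b3 := b u.imK u.re u.imI u.imJ (by linarith)
  have ext1 : ∀ x y z t : ℤ, u.re = x → u.imI = y → u.imJ = z → u.imK = t → u = mkq x y z t := by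
    intro x y z t e0 e1 e2 e3
    apply Quaternion.ext
    · exact e0
    · exact e1
    · exact e2
    · exact e3
  have hneg : ∀ x y z t : ℤ, mkq (-x) (-y) (-z) (-t) = -mkq x y z t := by
    intro x y z t; rfl
  rcases b0 with h0 | h0 | h0 <;> rcases b1 with h1 | h1 | h1 <;> rcases b2 with h2 | h2 | h2 <;>
    rcases b3 with h3 | h3 | h3 <;> (try (exfalso; rw [h0, h1, h2, h3] at hu; norm_num at hu; done))
  · exact ⟨0, Or.inr (by rw [ext1 _ _ _ _ h0 h1 h2 h3, U0, ← hneg]; rfl)⟩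
  · exact ⟨1, Or.inr (by rw [ext1 _ _ _ _ h0 h1 h2 h3, U1, ← hneg]; rfl)⟩
  · exact ⟨2, Or.inr (by rw [ext1 _ _ _ _ h0 h1 h2 h3, U2, ← hneg]; rfl)⟩
  · exact ⟨3, Or.inr (by rw [ext1 _ _ _ _ h0 h1 h2 h3, U3, ← hneg]; rfl)⟩
  · exact ⟨3, Or.inl (by rw [ext1 _ _ _ _ h0 h1 h2 h3, U3])⟩
  · exact ⟨2, Or.inl (by rw [ext1 _ _ _ _ h0 h1 h2 h3, U2])⟩
  · exact ⟨1, Or.inl (by rw [ext1 _ _ _ _ h0 h1 h2 h3, U1])⟩
  · exact ⟨0, Or.inl (by rw [ext1 _ _ _ _ h0 h1 h2 h3, U0])⟩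

theorem unit_fl (μ1 μ2 u : Hq) (hu : nrm u = 1) (h : μ1 * u = u * μ2) :
    ∃ v : Fin 4, μ1 = fl v μ2 := by
  obtain ⟨v, hv⟩ := unit_cases u hu
  refine ⟨v, ?_⟩
  have h1 : u * μ2 = fl v μ2 * u := by
    rcases hv with rfl | rfl
    · exact U_mul v μ2
    · rw [neg_mul, mul_neg, U_mul]
  apply mul_right_cancel' _ _ u (by omega)
  rw [h, h1]

theorem exists_tw {n : ℕ} (h8 : n % 8 = 1) {μ0 μ1 : Hq} (h0 : IsOm n μ0) (h1 : IsOm n μ1) :
    ∃ a : Hq, nrm a % 2 = 1 ∧ a * μ0 = μ1 * a := by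
  by_cases hc : (μ0.imI - μ1.imI) % 4 = 0
  · exact exists_tw1 h8 h0 h1 hc
  · have h2 : (μ0.imI - (fl 2 μ1).imI) % 4 = 0 := by
      rw [fl_imI]
      have e : s1 2 = -1 := rfl
      rw [e]
      have := h0.odd
      have := h1.odd
      omega
    obtain ⟨a, ha, hta⟩ := exists_tw1 h8 h0 (fl_om 2 h1) h2
    refine ⟨U 2 * a, ?_, ?_⟩
    · rw [nrm_mul, nrm_U, one_mul]; exact ha
    · rw [mul_assoc, hta, ← mul_assoc, U_mul, fl_fl, mul_assoc]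

theorem Iq_nzd {n : ℕ} {μ : Hq} (h : IsOm n μ) (a : Hq) (ha : nrm a % 2 = 1) :
    Iq h a ≠ ⊥ := by
  intro h0
  have h1 : ((nrm a : ℤ) : Od n) ∈ Iq h a := by
    rw [mem_Iq]
    exact ⟨star a, by rw [phi_int, star_mul_self']⟩
  rw [h0, Ideal.mem_bot] at h1
  have h2 := congrArg Zsqrtd.re h1
  simp at h2
  omega

/-- the class of `Iq h a` -/
noncomputable def cls {n : ℕ} [NeZero n] [IsDedekindDomain (Od n)] {μ : Hq} (h : IsOm n μ) (a : Hq)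
    (ha : nrm a % 2 = 1) : ClassGroup (Od n) :=
  ClassGroup.mk0 ⟨Iq h a, mem_nonZeroDivisors_iff_ne_zero.2 (Iq_nzd h a ha)⟩

theorem cls_indep {n : ℕ} [NeZero n] [IsDedekindDomain (Od n)] (hs : Squarefree n) {μ μ1 : Hq}
    (h : IsOm n μ) (a b : Hq) (ha : nrm a % 2 = 1) (hb : nrm b % 2 = 1) (hta : a * μ = μ1 * a)
    (htb : b * μ = μ1 * b) : cls h a ha = cls h b hb := by
  unfold cls
  rw [ClassGroup.mk0_eq_mk0_iff]
  obtain ⟨x, y, hx, hy, hxy⟩ := Iq_indep hs h a b (by omega) (by omega) hta htb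
  exact ⟨x, y, hx, hy, hxy⟩

theorem cls_fl {n : ℕ} [NeZero n] [IsDedekindDomain (Od n)] {μ : Hq}
    (h : IsOm n μ) (a : Hq) (v : Fin 4) (ha : nrm a % 2 = 1) (hb : nrm (U v * a) % 2 = 1) :
    cls h (U v * a) hb = cls h a ha := by
  unfold cls
  congr 2
  ext z
  rw [mem_Iq, mem_Iq]
  constructor
  · rintro ⟨q, hq⟩; exact ⟨q * U v, by rw [hq, mul_assoc]⟩
  · rintro ⟨q, hq⟩
    refine ⟨q * star (U v), ?_⟩
    rw [hq, mul_assoc q, ← mul_assoc (star (U v)), star_mul_self', nrm_U]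
    simp

theorem cls_inj {n : ℕ} [NeZero n] [IsDedekindDomain (Od n)] (hs : Squarefree n) {μ μ1 μ2 : Hq}
    (h : IsOm n μ) (a b : Hq) (ha : nrm a % 2 = 1) (hb : nrm b % 2 = 1) (hta : a * μ = μ1 * a)
    (htb : b * μ = μ2 * b) (he : cls h a ha = cls h b hb) : ∃ v : Fin 4, μ1 = fl v μ2 := by
  unfold cls at he
  rw [ClassGroup.mk0_eq_mk0_iff] at he
  obtain ⟨x, y, hx, hy, hxy⟩ := he
  obtain ⟨u, hu, hu'⟩ := unit_of_class hs h a b ha hb hta htb x y hx hy hxy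
  exact unit_fl μ1 μ2 u hu hu'

theorem pure_of_sq {n : ℕ} (hn : 0 < n) (ν : Hq) (h : ν * ν = ((-(n : ℤ) : ℤ) : Hq)) :
    ν.re = 0 ∧ ν.imI ^ 2 + ν.imJ ^ 2 + ν.imK ^ 2 = n := by
  have e0 := congrArg (fun q : Hq => q.re) h
  have e1 := congrArg (fun q : Hq => q.imI) h
  have e2 := congrArg (fun q : Hq => q.imJ) h
  have e3 := congrArg (fun q : Hq => q.imK) h
  simp only [Quaternion.re_mul, Quaternion.imI_mul, Quaternion.imJ_mul, Quaternion.imK_mul,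
    re_int, imI_int, imJ_int, imK_int] at e0 e1 e2 e3
  have h0 : ν.re = 0 := by
    by_contra hne
    have f1 : ν.imI = 0 := by
      have : ν.re * ν.imI = 0 := by linarith
      exact (mul_eq_zero.1 this).resolve_left hne
    have f2 : ν.imJ = 0 := by
      have : ν.re * ν.imJ = 0 := by linarith
      exact (mul_eq_zero.1 this).resolve_left hne
    have f3 : ν.imK = 0 := by
      have : ν.re * ν.imK = 0 := by linarith
      exact (mul_eq_zero.1 this).resolve_left hne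
    rw [f1, f2, f3] at e0
    have : (0 : ℤ) < n := by exact_mod_cast hn
    nlinarith [mul_self_nonneg ν.re]
  refine ⟨h0, ?_⟩
  rw [h0] at e0
  linarith

theorem comm_even (a μ : Hq) : ∃ q : Hq, a * μ - μ * a = ((2 : ℤ) : Hq) * q := by
  refine ⟨mkq 0 (a.imJ * μ.imK - a.imK * μ.imJ) (a.imK * μ.imI - a.imI * μ.imK)
    (a.imI * μ.imJ - a.imJ * μ.imI), ?_⟩
  apply Quaternion.ext
  · rw [int_mul_re, mkq_re, Quaternion.re_sub, Quaternion.re_mul, Quaternion.re_mul]; ring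
  · rw [int_mul_imI, mkq_imI, Quaternion.imI_sub, Quaternion.imI_mul, Quaternion.imI_mul]; ring
  · rw [int_mul_imJ, mkq_imJ, Quaternion.imJ_sub, Quaternion.imJ_mul, Quaternion.imJ_mul]; ring
  · rw [int_mul_imK, mkq_imK, Quaternion.imK_sub, Quaternion.imK_mul, Quaternion.imK_mul]; ring

theorem exists_mu {n : ℕ} [NeZero n] [IsDedekindDomain (Od n)] (hs : Squarefree n) (h8 : n % 8 = 1)
    {μ0 : Hq} (h0 : IsOm n μ0) (C : ClassGroup (Od n)) :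
    ∃ (μ1 a : Hq) (ha : nrm a % 2 = 1), IsOm n μ1 ∧ a * μ0 = μ1 * a ∧ cls h0 a ha = C := by
  obtain ⟨⟨I, hI⟩, hIC, x, hxI, hx⟩ := exists_odd h8 C
  have hI0 : I ≠ 0 := nonZeroDivisors.ne_zero hI
  set J := I.map (phi h0) with hJ
  obtain ⟨a, haJ, ha, hJa⟩ := principal_odd J (phi h0 x) (by rw [nrm_phi]; exact hx)
    (Ideal.mem_map_of_mem _ hxI)
  have hJs : J = Ideal.span {a} := by
    apply le_antisymm
    · intro q hq
      obtain ⟨p, rfl⟩ := hJa q hq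
      exact Ideal.mul_mem_left _ _ (Ideal.mem_span_singleton_self a)
    · rw [Ideal.span_singleton_le_iff_mem]; exact haJ
  have h1 : a * μ0 ∈ J := by
    have := map_mul_mem' h0 I Zsqrtd.sqrtd a haJ
    rw [phi_sqrtd] at this
    exact this
  obtain ⟨μ1, hμ1⟩ := hJa _ h1
  have ha0 : nrm a ≠ 0 := by omega
  have h2 : μ1 * μ1 = ((-(n : ℤ) : ℤ) : Hq) := by
    apply mul_right_cancel' _ _ a ha0
    rw [mul_assoc, ← hμ1, ← mul_assoc, ← hμ1, mul_assoc, h0.sq, int_comm]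
  obtain ⟨h3, h4⟩ := pure_of_sq (Nat.pos_of_ne_zero (NeZero.ne n)) μ1 h2
  have h5 : IsOm n μ1 := by
    refine ⟨h3, h4, ?_⟩
    obtain ⟨q, hq⟩ := comm_even a μ0
    have e1 : (μ1 - μ0) * ((nrm a : ℤ) : Hq) = ((2 : ℤ) : Hq) * (q * star a) := by
      rw [← self_mul_star', ← mul_assoc, sub_mul, ← hμ1, hq, mul_assoc]
    have e2 := congrArg (fun q : Hq => q.imI) e1
    simp only [← int_comm, int_mul_imI, Quaternion.imI_sub] at e2
    obtain ⟨m, hm⟩ : ∃ m, nrm a = 2 * m + 1 := ⟨nrm a / 2, by omega⟩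
    rw [hm] at e2
    have e3 : μ1.imI - μ0.imI = 2 * ((q * star a).imI - m * (μ1.imI - μ0.imI)) := by
      linear_combination e2
    have := h0.odd
    omega
  refine ⟨μ1, a, ha, h5, hμ1, ?_⟩
  have h6 : Iq h0 a = I := by
    unfold Iq
    rw [← hJs, hJ]
    exact comap_map hs h0 I hI0
  rw [← hIC]
  unfold cls
  congr 2

/-- the main bijection -/
theorem main_bij {n : ℕ} [NeZero n] [IsDedekindDomain (Od n)] (hs : Squarefree n) (h8 : n % 8 = 1)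
    (h1 : 1 < n) {μ0 : Hq} (h0 : IsOm n μ0) :
    ∃ s : ClassGroup (Od n) → Hq, (∀ C, IsOm n (s C) ∧ ∃ (a : Hq) (ha : nrm a % 2 = 1),
        a * μ0 = s C * a ∧ cls h0 a ha = C) ∧
      (∀ C C' v v', fl v (s C) = fl v' (s C') → C = C' ∧ v = v') ∧
      (∀ μ, IsOm n μ → ∃ C v, fl v (s C) = μ) := by
  choose s a ha hs1 hs2 hs3 using exists_mu hs h8 h0
  refine ⟨s, fun C => ⟨hs1 C, a C, ha C, hs2 C, hs3 C⟩, ?_, ?_⟩
  · intro C C' v v' he
    have hv : nrm (U v * a C) % 2 = 1 := by rw [nrm_mul, nrm_U, one_mul]; exact ha C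
    have hv' : nrm (U v' * a C') % 2 = 1 := by rw [nrm_mul, nrm_U, one_mul]; exact ha C'
    have e1 := cls_fl h0 (a C) v (ha C) hv
    have e2 := cls_fl h0 (a C') v' (ha C') hv'
    have t1 : (U v * a C) * μ0 = fl v (s C) * (U v * a C) := by
      rw [mul_assoc, hs2, ← mul_assoc, U_mul, mul_assoc]
    have t2 : (U v' * a C') * μ0 = fl v' (s C') * (U v' * a C') := by
      rw [mul_assoc, hs2, ← mul_assoc, U_mul, mul_assoc]
    rw [← he] at t2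
    have e3 := cls_indep hs h0 _ _ hv hv' t1 t2
    have e4 : C = C' := by rw [← hs3 C, ← hs3 C', ← e1, ← e2, e3]
    refine ⟨e4, ?_⟩
    rw [← e4] at he
    exact fl_free hs h1 (hs1 C) v v' he
  · intro μ hμ
    obtain ⟨b, hb, htb⟩ := exists_tw h8 h0 hμ
    set C := cls h0 b hb with hC
    obtain ⟨v, hv⟩ := cls_inj hs h0 b (a C) hb (ha C) htb (hs2 C) (by rw [hs3 C])
    exact ⟨C, v, hv.symm⟩

end Pool.Agent.TM32
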