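import Mathlib
import Pool.Agent.Lib_helper72.TM32.Count
set_option autoImplicit false
namespace Pool.Agent.TM32

theorem base_om {n : ℕ} (h8 : n % 8 = 1) (hne : ∃ x y z : ℤ, x ^ 2 + y ^ 2 + z ^ 2 = n) :
    ∃ μ0, IsOm n μ0 := by
  obtain ⟨x, y, z, h⟩ := hne
  obtain ⟨k, hk⟩ : ∃ k : ℤ, (n : ℤ) = 8 * k + 1 := ⟨(n / 8 : ℕ), by omega⟩
  have key : x % 2 = 1 ∨ y % 2 = 1 ∨ z % 2 = 1 := by
    by_contra hcon
    push Not at hcon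
    obtain ⟨a, rfl⟩ : ∃ a, x = 2 * a := ⟨x / 2, by omega⟩
    obtain ⟨b, rfl⟩ : ∃ b, y = 2 * b := ⟨y / 2, by omega⟩
    obtain ⟨c, rfl⟩ : ∃ c, z = 2 * c := ⟨z / 2, by omega⟩
    rw [hk] at h
    have : 4 * (a ^ 2 + b ^ 2 + c ^ 2) = 8 * k + 1 := by linarith
    omega
  rcases key with h1 | h1 | h1
  · exact ⟨mkq 0 x y z, ⟨rfl, h, h1⟩⟩
  · exact ⟨mkq 0 y x z, ⟨rfl, by show y ^ 2 + x ^ 2 + z ^ 2 = n; linarith, h1⟩⟩
  · exact ⟨mkq 0 z x y, ⟨rfl, by show z ^ 2 + x ^ 2 + y ^ 2 = n; linarith, h1⟩⟩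

/-- counting through classes -/
theorem card_om {n : ℕ} [NeZero n] {Q : ℤ → ℤ → ℤ → Prop}
    {P : ClassGroup (Od n) → Prop} (s : ClassGroup (Od n) → Hq)
    (hs0 : ∀ C, IsOm n (s C))
    (hs1 : ∀ C C' v v', fl v (s C) = fl v' (s C') → C = C' ∧ v = v')
    (hs2 : ∀ μ, IsOm n μ → ∃ C v, fl v (s C) = μ)
    (hPQ : ∀ C v, Q (fl v (s C)).imI (fl v (s C)).imJ (fl v (s C)).imK ↔ P C) :
    ∃ f : {C : ClassGroup (Od n) // P C} × Fin 4 →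
      {v : ℤ × ℤ × ℤ // v.1 ^ 2 + v.2.1 ^ 2 + v.2.2 ^ 2 = n ∧ v.1 % 2 = 1 ∧ Q v.1 v.2.1 v.2.2},
      Function.Bijective f := by
  refine ⟨fun p => ⟨((fl p.2 (s p.1.1)).imI, (fl p.2 (s p.1.1)).imJ, (fl p.2 (s p.1.1)).imK),
    (fl_om p.2 (hs0 p.1.1)).sum, (fl_om p.2 (hs0 p.1.1)).odd, (hPQ _ _).2 p.1.2⟩, ?_, ?_⟩
  · rintro ⟨⟨C, hC⟩, v⟩ ⟨⟨C', hC'⟩, v'⟩ he
    simp only [Subtype.mk.injEq, Prod.mk.injEq] at he
    obtain ⟨e1, e2, e3⟩ := he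
    have e0 : fl v (s C) = fl v' (s C') := by
      apply Quaternion.ext
      · rw [(fl_om v (hs0 C)).re0, (fl_om v' (hs0 C')).re0]
      · exact e1
      · exact e2
      · exact e3
    obtain ⟨rfl, rfl⟩ := hs1 C C' v v' e0
    rfl
  · rintro ⟨⟨x, y, z⟩, h1, h2, h3⟩
    obtain ⟨C, v, hCv⟩ := hs2 (mkq 0 x y z) ⟨rfl, h1, h2⟩
    have hP : P C := by
      rw [← hPQ C v, hCv]
      exact h3
    refine ⟨(⟨C, hP⟩, v), ?_⟩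
    simp only [hCv]
    rfl

theorem finite_triples (n : ℕ) : Finite {v : ℤ × ℤ × ℤ // v.1 ^ 2 + v.2.1 ^ 2 + v.2.2 ^ 2 = n} := by
  have hsub : {v : ℤ × ℤ × ℤ | v.1 ^ 2 + v.2.1 ^ 2 + v.2.2 ^ 2 = n} ⊆
      (Set.Icc (-(n : ℤ)) n) ×ˢ ((Set.Icc (-(n : ℤ)) n) ×ˢ (Set.Icc (-(n : ℤ)) n)) := by
    rintro ⟨x, y, z⟩ h
    have h : x ^ 2 + y ^ 2 + z ^ 2 = n := h
    have b : ∀ t : ℤ, t ^ 2 ≤ n → -(n : ℤ) ≤ t ∧ t ≤ n := by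
      intro t ht
      constructor
      · nlinarith [Int.le_self_sq (-t)]
      · nlinarith [Int.le_self_sq t]
    refine ⟨b x (by nlinarith [sq_nonneg y, sq_nonneg z]), b y (by nlinarith [sq_nonneg x, sq_nonneg z]),
      b z (by nlinarith [sq_nonneg y, sq_nonneg x])⟩
  have hfin : Set.Finite {v : ℤ × ℤ × ℤ | v.1 ^ 2 + v.2.1 ^ 2 + v.2.2 ^ 2 = n} :=
    Set.Finite.subset ((Set.finite_Icc _ _).prod ((Set.finite_Icc _ _).prod (Set.finite_Icc _ _))) hsub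
  exact hfin.to_subtype

theorem finite_sub (n : ℕ) (Q : ℤ → ℤ → ℤ → Prop) :
    Finite {v : ℤ × ℤ × ℤ // v.1 ^ 2 + v.2.1 ^ 2 + v.2.2 ^ 2 = n ∧ v.1 % 2 = 1 ∧ Q v.1 v.2.1 v.2.2} := by
  have := finite_triples n
  exact Finite.of_injective
    (fun v : {v : ℤ × ℤ × ℤ // v.1 ^ 2 + v.2.1 ^ 2 + v.2.2 ^ 2 = n ∧ v.1 % 2 = 1 ∧ Q v.1 v.2.1 v.2.2} =>
      (⟨v.1, v.2.1⟩ : {v : ℤ × ℤ × ℤ // v.1 ^ 2 + v.2.1 ^ 2 + v.2.2 ^ 2 = n}))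
    (fun a b h => Subtype.ext (by
      have h' := congrArg Subtype.val h
      exact h'))

/-- **Q3**: Gauss' count of the primitive representations by three squares, first part -/
theorem cntOmega (n : ℕ) [NeZero n] (hs : Squarefree n) (h8 : n % 8 = 1) (h1 : 1 < n)
    (hne : ∃ x y z : ℤ, x ^ 2 + y ^ 2 + z ^ 2 = n) :
    Finite (ClassGroup (Zsqrtd (-(n : ℤ)))) ∧
    Nat.card {v : ℤ × ℤ × ℤ // v.1 ^ 2 + v.2.1 ^ 2 + v.2.2 ^ 2 = n ∧ v.1 % 2 = 1} =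
      4 * Nat.card (ClassGroup (Zsqrtd (-(n : ℤ)))) := by
  have := ded n hs h8
  obtain ⟨μ0, h0⟩ := base_om h8 hne
  obtain ⟨s, hs0, hs1, hs2⟩ := main_bij hs h8 h1 h0
  obtain ⟨f, hf⟩ := card_om (n := n) (Q := fun _ _ _ => True) (P := fun _ => True) s
    (fun C => (hs0 C).1) hs1 hs2 (fun _ _ => Iff.rfl)
  have hfin := finite_sub n (fun _ _ _ => True)
  have e1 : Nat.card {v : ℤ × ℤ × ℤ // v.1 ^ 2 + v.2.1 ^ 2 + v.2.2 ^ 2 = n ∧ v.1 % 2 = 1} =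
      Nat.card {v : ℤ × ℤ × ℤ // v.1 ^ 2 + v.2.1 ^ 2 + v.2.2 ^ 2 = n ∧ v.1 % 2 = 1 ∧ True} := by
    simp only [and_true]
  have e2 : Nat.card {C : ClassGroup (Od n) // True} = Nat.card (ClassGroup (Od n)) :=
    Nat.card_congr (Equiv.subtypeUnivEquiv (fun _ => trivial))
  refine ⟨?_, ?_⟩
  · have hinj : Function.Injective (fun C : ClassGroup (Od n) => f (⟨C, trivial⟩, 0)) := by
      intro C C' h
      have := hf.1 h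
      simpa using this
    exact Finite.of_injective _ hinj
  · rw [e1, ← Nat.card_eq_of_bijective f hf, Nat.card_prod, e2, Nat.card_eq_fintype_card (α := Fin 4),
      Fintype.card_fin, mul_comm]

end Pool.Agent.TM32
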