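import Mathlib
import Pool.Agent.Lib_helper72.TM32.Omega
set_option autoImplicit false
namespace Pool.Agent.TM32

open scoped nonZeroDivisors

/-- the sign of the odd part of `m` modulo `4` -/
def u4 (m : ℕ) : ℤˣ := if (ordCompl[2] m) % 4 = 1 then 1 else -1

theorem u4_mul (a b : ℕ) (ha : a ≠ 0) (hb : b ≠ 0) : u4 (a * b) = u4 a * u4 b := by
  have h1 := Nat.coprime_ordCompl Nat.prime_two ha
  have h2 := Nat.coprime_ordCompl Nat.prime_two hb
  rw [Nat.coprime_two_left, Nat.odd_iff] at h1 h2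
  unfold u4
  rw [Nat.ordCompl_mul]
  generalize ordCompl[2] a = x at *
  generalize ordCompl[2] b = y at *
  have h3 : x % 4 = 1 ∨ x % 4 = 3 := by omega
  have h4 : y % 4 = 1 ∨ y % 4 = 3 := by omega
  rw [Nat.mul_mod]
  rcases h3 with h3 | h3 <;> rcases h4 with h4 | h4 <;> rw [h3, h4] <;> decide

theorem ordCompl_odd (m : ℕ) (hm : m % 2 = 1) : ordCompl[2] m = m := by
  rw [Nat.factorization_eq_zero_of_not_dvd (by omega)]; simp

theorem u4_odd (m : ℕ) (hm : m % 2 = 1) : u4 m = if m % 4 = 1 then 1 else -1 := by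
  unfold u4; rw [ordCompl_odd m hm]

theorem u4_chi (m : ℕ) (hm : m % 2 = 1) : ((u4 m : ℤˣ) : ℤ) = ZMod.χ₄ (m : ZMod 4) := by
  rw [u4_odd m hm]
  have h3 : m % 4 = 1 ∨ m % 4 = 3 := by omega
  rcases h3 with h3 | h3
  · rw [if_pos h3, ZMod.χ₄_nat_one_mod_four h3]; rfl
  · rw [if_neg (by omega), ZMod.χ₄_nat_three_mod_four h3]; rfl

theorem u4_one : u4 1 = 1 := by rw [u4_odd 1 (by norm_num)]; rfl

theorem u4_two : u4 2 = 1 := by
  unfold u4
  have : ordCompl[2] 2 = 1 := by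
    rw [Nat.Prime.factorization_self Nat.prime_two]; norm_num
  rw [this]; rfl

theorem u4_sq (m : ℕ) (hm : m ≠ 0) : u4 (m ^ 2) = 1 := by
  rw [pow_two, u4_mul m m hm hm, Int.units_mul_self]

/-- the odd part of a norm is `1` modulo `4` -/
theorem u4_norm (n : ℕ) (h8 : n % 8 = 1) : ∀ (N : ℕ) (a b : ℤ), a.natAbs + b.natAbs = N →
    (a ≠ 0 ∨ b ≠ 0) → u4 ((a ^ 2 + n * b ^ 2).natAbs) = 1 := by
  obtain ⟨k, hk⟩ : ∃ k : ℕ, n = 8 * k + 1 := ⟨(n / 8 : ℕ), by omega⟩
  intro N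
  induction N using Nat.strong_induction_on with
  | _ N ih =>
    intro a b hN hab
    have hpos : 0 < a ^ 2 + n * b ^ 2 := by
      rcases hab with h | h
      · have : 0 < a ^ 2 := by positivity
        have : 0 ≤ (n : ℤ) * b ^ 2 := by positivity
        linarith
      · have : 0 ≤ a ^ 2 := by positivity
        have h0 : (0 : ℤ) < n := by omega
        have : 0 < (n : ℤ) * b ^ 2 := by positivity
        linarith
    rcases Int.even_or_odd' a with ⟨c, rfl | rfl⟩ <;> rcases Int.even_or_odd' b with ⟨d, rfl | rfl⟩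
    · have e1 : (2 * c) ^ 2 + (n : ℤ) * (2 * d) ^ 2 = 4 * (c ^ 2 + n * d ^ 2) := by ring
      have h1 := ih (c.natAbs + d.natAbs) (by omega) c d rfl (by omega)
      rw [e1, Int.natAbs_mul]
      have hne : (c ^ 2 + n * d ^ 2).natAbs ≠ 0 := by
        rw [e1] at hpos; omega
      rw [u4_mul _ _ (by norm_num) hne, h1]
      have : u4 (Int.natAbs 4) = 1 := u4_sq 2 (by norm_num)
      rw [this]; rfl
    · obtain ⟨f, hf⟩ := Int.even_mul_succ_self d
      have e1 : (2 * c) ^ 2 + (n : ℤ) * (2 * d + 1) ^ 2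
          = 4 * (c ^ 2 + (8 * k + 1) * (2 * f) + 2 * k) + 1 := by
        rw [hk]; push_cast; linear_combination (4 * (8 * (k : ℤ) + 1)) * hf
      rw [u4_odd, if_pos] <;> omega
    · obtain ⟨f, hf⟩ := Int.even_mul_succ_self c
      have e1 : (2 * c + 1) ^ 2 + (n : ℤ) * (2 * d) ^ 2
          = 4 * (2 * f + (8 * k + 1) * d ^ 2) + 1 := by
        rw [hk]; push_cast; linear_combination 4 * hf
      rw [u4_odd, if_pos] <;> omega
    · obtain ⟨f, hf⟩ := Int.even_mul_succ_self c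
      obtain ⟨g, hg⟩ := Int.even_mul_succ_self d
      have e1 : (2 * c + 1) ^ 2 + (n : ℤ) * (2 * d + 1) ^ 2
          = 2 * (4 * f + (8 * k + 1) * (4 * g) + 4 * k + 1) := by
        rw [hk]; push_cast; linear_combination 4 * hf + (4 * (8 * (k : ℤ) + 1)) * hg
      rw [e1] at hpos ⊢
      rw [Int.natAbs_mul, u4_mul _ _ (by norm_num) (by omega)]
      have : u4 (Int.natAbs 2) = 1 := u4_two
      rw [this, u4_odd, if_pos]
      · rfl
      · have e3 : ∃ t : ℤ, 4 * f + (8 * (k : ℤ) + 1) * (4 * g) + 4 * k + 1 = 4 * t + 1 :=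
          ⟨f + (8 * k + 1) * g + k, by ring⟩
        obtain ⟨t, ht⟩ := e3
        rw [ht] at hpos ⊢
        omega
      · have e3 : ∃ t : ℤ, 4 * f + (8 * (k : ℤ) + 1) * (4 * g) + 4 * k + 1 = 4 * t + 1 :=
          ⟨f + (8 * k + 1) * g + k, by ring⟩
        obtain ⟨t, ht⟩ := e3
        rw [ht] at hpos ⊢
        omega

/-- the algebra norm is the quadratic norm -/
theorem alg_norm (n : ℕ) (z : Od n) : Algebra.norm ℤ z = z.norm := by
  let b : Module.Basis (Fin 2) ℤ (Od n) := Module.Basis.ofEquivFun (odLin n)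
  have hrepr : ∀ (y : Od n) (i : Fin 2), b.repr y i = (![y.re, y.im] : Fin 2 → ℤ) i := by
    intro y i
    show (Module.Basis.ofEquivFun (odLin n)).repr y i = _
    rw [← Module.Basis.equivFun_apply, Module.Basis.equivFun_ofEquivFun]
    rfl
  have hb0 : b 0 = ⟨1, 0⟩ := by
    apply b.repr.injective
    ext i
    rw [Module.Basis.repr_self, hrepr]
    fin_cases i <;> simp
  have hb1 : b 1 = ⟨0, 1⟩ := by
    apply b.repr.injective
    ext i
    rw [Module.Basis.repr_self, hrepr]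
    fin_cases i <;> simp
  rw [Algebra.norm_eq_matrix_det b, Matrix.det_fin_two]
  simp only [Algebra.leftMulMatrix_eq_repr_mul, hrepr, hb0, hb1]
  simp [Zsqrtd.norm_def]

theorem absNorm_span (n : ℕ) [NeZero n] [IsDedekindDomain (Od n)] (z : Od n) :
    Ideal.absNorm (Ideal.span {z}) = (z.re ^ 2 + n * z.im ^ 2).natAbs := by
  rw [Ideal.absNorm_span_singleton, alg_norm, od_norm]

/-- the character on ideals -/
noncomputable def chiI (n : ℕ) [NeZero n] [IsDedekindDomain (Od n)] : (Ideal (Od n))⁰ →* ℤˣ where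
  toFun I := u4 (Ideal.absNorm (I : Ideal (Od n)))
  map_one' := by
    show u4 (Ideal.absNorm ((1 : (Ideal (Od n))⁰) : Ideal (Od n))) = 1
    rw [OneMemClass.coe_one, map_one, u4_one]
  map_mul' I J := by
    show u4 (Ideal.absNorm ((I * J : (Ideal (Od n))⁰) : Ideal (Od n))) = _
    rw [Submonoid.coe_mul, map_mul, u4_mul _ _ (Ideal.absNorm_ne_zero_of_nonZeroDivisors I)
      (Ideal.absNorm_ne_zero_of_nonZeroDivisors J)]

theorem chiI_span (n : ℕ) [NeZero n] [IsDedekindDomain (Od n)] (h8 : n % 8 = 1) (z : Od n)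
    (hz : z ≠ 0) : u4 (Ideal.absNorm (Ideal.span {z})) = 1 := by
  rw [absNorm_span]
  apply u4_norm n h8 _ _ _ rfl
  by_contra hcon
  push Not at hcon
  exact hz (Zsqrtd.ext hcon.1 hcon.2)

theorem chiI_wd (n : ℕ) [NeZero n] [IsDedekindDomain (Od n)] (h8 : n % 8 = 1)
    (I J : (Ideal (Od n))⁰) (h : ClassGroup.mk0 I = ClassGroup.mk0 J) : chiI n I = chiI n J := by
  rw [ClassGroup.mk0_eq_mk0_iff] at h
  obtain ⟨x, y, hx, hy, hxy⟩ := h
  have h1 := congrArg (fun K => u4 (Ideal.absNorm K)) hxy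
  have hx0 : Ideal.absNorm (Ideal.span {x}) ≠ 0 := by
    apply Ideal.absNorm_ne_zero_iff_mem_nonZeroDivisors.2
    rw [mem_nonZeroDivisors_iff_ne_zero, Ne, Ideal.zero_eq_bot, Ideal.span_singleton_eq_bot]
    exact hx
  have hy0 : Ideal.absNorm (Ideal.span {y}) ≠ 0 := by
    apply Ideal.absNorm_ne_zero_iff_mem_nonZeroDivisors.2
    rw [mem_nonZeroDivisors_iff_ne_zero, Ne, Ideal.zero_eq_bot, Ideal.span_singleton_eq_bot]
    exact hy
  rw [map_mul, map_mul, u4_mul _ _ hx0 (Ideal.absNorm_ne_zero_of_nonZeroDivisors I),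
    u4_mul _ _ hy0 (Ideal.absNorm_ne_zero_of_nonZeroDivisors J), chiI_span n h8 x hx,
    chiI_span n h8 y hy, one_mul, one_mul] at h1
  exact h1

/-- the genus character on the class group -/
noncomputable def chiC (n : ℕ) [NeZero n] [IsDedekindDomain (Od n)] (h8 : n % 8 = 1) :
    ClassGroup (Od n) →* ℤˣ :=
  MonoidHom.mk' (fun C => chiI n (Function.surjInv ClassGroup.mk0_surjective C)) (by
    intro C D
    rw [← map_mul]
    apply chiI_wd n h8
    rw [map_mul, Function.surjInv_eq ClassGroup.mk0_surjective,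
      Function.surjInv_eq ClassGroup.mk0_surjective,
      Function.surjInv_eq ClassGroup.mk0_surjective])

theorem chiC_mk0 (n : ℕ) [NeZero n] [IsDedekindDomain (Od n)] (h8 : n % 8 = 1)
    (I : (Ideal (Od n))⁰) : chiC n h8 (ClassGroup.mk0 I) = u4 (Ideal.absNorm (I : Ideal (Od n))) := by
  show chiI n (Function.surjInv ClassGroup.mk0_surjective (ClassGroup.mk0 I)) = chiI n I
  apply chiI_wd n h8
  rw [Function.surjInv_eq ClassGroup.mk0_surjective]

/-- the norm of the ideal `{z : m ∣ re + r im}` -/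
theorem absNorm_ker (n : ℕ) [NeZero n] [IsDedekindDomain (Od n)] (m : ℕ) (r : ℤ)
    (h : (m : ℤ) ∣ r ^ 2 + n) (I : Ideal (Od n))
    (hI : ∀ z : Od n, z ∈ I ↔ (m : ℤ) ∣ z.re + r * z.im) : Ideal.absNorm I = m := by
  have h1 : ((r : ZMod m)) * r = ((-(n : ℤ) : ℤ) : ZMod m) := by
    have h2 : ((r ^ 2 + n : ℤ) : ZMod m) = 0 := (ZMod.intCast_zmod_eq_zero_iff_dvd _ _).2 h
    push_cast at h2 ⊢
    linear_combination h2
  let f : Od n →+* ZMod m := Zsqrtd.lift ⟨(r : ZMod m), h1⟩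
  have hf : ∀ z, f z = ((z.re + r * z.im : ℤ) : ZMod m) := by
    intro z
    show Zsqrtd.lift ⟨(r : ZMod m), h1⟩ z = _
    rw [Zsqrtd.lift_apply_apply]
    push_cast
    ring
  have hI' : I = RingHom.ker f := by
    ext z
    rw [hI, RingHom.mem_ker, hf, ZMod.intCast_zmod_eq_zero_iff_dvd]
  have hsurj : Function.Surjective f := by
    intro y
    obtain ⟨t, rfl⟩ := ZMod.intCast_surjective y
    exact ⟨(t : Od n), by rw [map_intCast]⟩
  rw [Ideal.absNorm_apply, Submodule.cardQuot_apply, hI']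
  have e := Nat.card_congr (RingHom.quotientKerEquivOfSurjective hsurj).toEquiv
  rw [Nat.card_zmod] at e
  exact e

theorem mem_pair (n : ℕ) (m r : ℤ) (h : m ∣ r ^ 2 + n) (z : Od n) :
    z ∈ Ideal.span {(m : Od n), Zsqrtd.sqrtd - (r : Od n)} ↔ m ∣ z.re + r * z.im := by
  rw [Ideal.mem_span_pair]
  constructor
  · rintro ⟨a, b, rfl⟩
    obtain ⟨t, ht⟩ := h
    refine ⟨a.re + r * a.im - t * b.im, ?_⟩
    have e1 : (a * (m : Od n) + b * (Zsqrtd.sqrtd - (r : Od n))).re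
        = a.re * m - n * b.im - b.re * r := by
      simp; ring
    have e2 : (a * (m : Od n) + b * (Zsqrtd.sqrtd - (r : Od n))).im
        = a.im * m + b.re - b.im * r := by
      simp; ring
    rw [e1, e2]
    linear_combination (-b.im) * ht
  · rintro ⟨t, ht⟩
    refine ⟨(t : Od n), (z.im : Od n), ?_⟩
    apply Zsqrtd.ext
    · simp
      linear_combination -ht
    · simp

theorem absNorm_pair (n : ℕ) [NeZero n] [IsDedekindDomain (Od n)] (m : ℕ) (r : ℤ)
    (h : (m : ℤ) ∣ r ^ 2 + n) :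
    Ideal.absNorm (Ideal.span {((m : ℤ) : Od n), Zsqrtd.sqrtd - (r : Od n)}) = m :=
  absNorm_ker n m r h _ (fun z => mem_pair n m r h z)

theorem absNorm_Iq {n : ℕ} [NeZero n] [IsDedekindDomain (Od n)] (hs : Squarefree n) {μ : Hq}
    (h : IsOm n μ) (a μ1 : Hq) (hm : nrm a % 2 = 1) (ht : a * μ = μ1 * a) :
    Ideal.absNorm (Iq h a) = (nrm a).natAbs := by
  obtain ⟨c, a', hca, hp⟩ := content a (by omega)
  have hn : nrm a = c ^ 2 * nrm a' := by rw [hca, nrm_mul, nrm_int]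
  have hc0 : c ≠ 0 := by
    rintro rfl
    rw [hn] at hm; omega
  have hm' : nrm a' % 2 = 1 := by
    rcases Int.emod_two_eq_zero_or_one (nrm a') with h0 | h0
    · exfalso
      obtain ⟨d', hd'⟩ : ∃ d', nrm a' = 2 * d' := ⟨nrm a' / 2, by omega⟩
      have : nrm a = 2 * (c ^ 2 * d') := by rw [hn, hd']; ring
      omega
    · exact h0
  have ht' : a' * μ = μ1 * a' := by
    apply int_cancel c hc0
    rw [← mul_assoc, ← hca, ht, hca, ← mul_assoc, ← mul_assoc, int_comm]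
  have hcO : (c : Od n) ≠ 0 := by
    intro h0
    have h2 := congrArg Zsqrtd.re h0
    simp at h2
    exact hc0 h2
  have e1 : Iq h a = Ideal.span {(c : Od n)} * Iq h a' := by
    rw [← Iq_scale hs h a' _ hcO, phi_int, ← int_comm, ← hca]
  obtain ⟨r, hr, hI⟩ := Iq_prim hs h a' μ1 hm' ht' hp
  have hnn := nrm_nonneg a'
  obtain ⟨m, hmm⟩ := Int.eq_ofNat_of_zero_le hnn
  rw [hmm] at hr hI
  rw [e1, map_mul, absNorm_span, absNorm_ker n m r hr _ hI, hn, hmm, Int.natAbs_mul]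
  simp

/-- a prime ideal with `chi = -1` -/
theorem exists_prime (n : ℕ) (hs : Squarefree n) (h8 : n % 8 = 1) (h1 : 1 < n) :
    ∃ (q : ℕ) (r : ℤ), q % 4 = 3 ∧ (q : ℤ) ∣ r ^ 2 + n := by
  have hp0 : n.minFac.Prime := Nat.minFac_prime (by omega)
  set p := n.minFac with hpdef
  obtain ⟨n', hn'⟩ : p ∣ n := Nat.minFac_dvd n
  have hn'0 : n' ≠ 0 := by rintro rfl; omega
  have hp2 : p ≠ 2 := by
    intro h2
    rw [h2] at hn'; omega
  have hcop : Nat.Coprime p n' := by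
    rw [hn'] at hs
    exact Nat.coprime_of_squarefree_mul hs
  have : Fact p.Prime := ⟨hp0⟩
  obtain ⟨g, hg⟩ := FiniteField.exists_nonsquare (F := ZMod p) (by
    rw [ZMod.ringChar_zmod_n]; exact hp2)
  have hg0 : g ≠ 0 := by
    rintro rfl; exact hg ⟨0, by simp⟩
  -- CRT
  have hodd : n % 2 = 1 := by omega
  have hpodd : p % 2 = 1 := by
    rcases hp0.eq_two_or_odd with h | h
    · exact absurd h hp2
    · exact h
  have hn'odd : n' % 2 = 1 := by
    rcases Nat.mod_two_eq_zero_or_one n' with h | h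
    · exfalso
      rw [hn', Nat.mul_mod, h] at hodd; simp at hodd
    · exact h
  have c1 : Nat.Coprime 4 n' := by
    have : Nat.Coprime 2 n' := by rw [Nat.coprime_two_left, Nat.odd_iff]; exact hn'odd
    exact Nat.Coprime.pow_left 2 this
  have c2 : Nat.Coprime 4 p := by
    have : Nat.Coprime 2 p := by rw [Nat.coprime_two_left, Nat.odd_iff]; exact hpodd
    exact Nat.Coprime.pow_left 2 this
  obtain ⟨x, hx1, hx2⟩ := Nat.chineseRemainder c1 3 1
  have c3 : Nat.Coprime (4 * n') p := Nat.Coprime.mul_left c2 hcop.symm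
  obtain ⟨y, hy1, hy2⟩ := Nat.chineseRemainder c3 x g.val
  have hy4 : y ≡ 3 [MOD 4] := (hy1.of_dvd ⟨n', rfl⟩).trans hx1
  have hyn : y ≡ 1 [MOD n'] := (hy1.of_dvd ⟨4, by ring⟩).trans hx2
  have hcopy : Nat.Coprime y (4 * n' * p) := by
    apply Nat.Coprime.mul_right
    · apply Nat.Coprime.mul_right
      · have : y % 2 = 1 := by
          have h := hy4
          unfold Nat.ModEq at h; omega
        have h2 : Nat.Coprime y 2 := by rw [Nat.coprime_two_right, Nat.odd_iff]; exact this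
        exact Nat.Coprime.pow_right 2 h2
      · have h := hyn.gcd_eq
        rw [Nat.gcd_one_left] at h
        exact h
    · rw [Nat.coprime_comm, hp0.coprime_iff_not_dvd]
      intro hd
      apply hg0
      have h := hy2
      have e1 : (y : ZMod p) = (g.val : ZMod p) := (ZMod.natCast_eq_natCast_iff _ _ _).2 h
      rw [ZMod.natCast_zmod_val, (ZMod.natCast_eq_zero_iff _ _).2 hd] at e1
      exact e1.symm
  obtain ⟨q, hqgt, hq, hqy⟩ := Nat.forall_exists_prime_gt_and_modEq n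
    (q := 4 * n' * p) (a := y) (by have := hp0.ne_zero; positivity) hcopy
  have : Fact q.Prime := ⟨hq⟩
  have hq4 : q % 4 = 3 := by
    have h : q ≡ 3 [MOD 4] := (hqy.of_dvd ⟨n' * p, by ring⟩).trans hy4
    unfold Nat.ModEq at h; omega
  have hqn : q ≡ 1 [MOD n'] := (hqy.of_dvd ⟨4 * p, by ring⟩).trans hyn
  have hqp : q ≡ g.val [MOD p] := (hqy.of_dvd ⟨4 * n', by ring⟩).trans hy2
  have J1 : jacobiSym (q : ℤ) p = -1 := by
    rw [← jacobiSym.legendreSym.to_jacobiSym, legendreSym.eq_neg_one_iff]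
    have e1 : (((q : ℕ) : ℤ) : ZMod p) = g := by
      have := (ZMod.natCast_eq_natCast_iff _ _ _).2 hqp
      rw [ZMod.natCast_zmod_val] at this
      rw [Int.cast_natCast]; exact this
    rw [e1]; exact hg
  have J2 : jacobiSym (q : ℤ) n' = 1 := by
    have h : ((q : ℤ)) % n' = (1 : ℤ) % n' := by
      have h' := hqn
      unfold Nat.ModEq at h'
      exact_mod_cast h'
    rw [jacobiSym.mod_left' h, jacobiSym.one_left]
  have J3 : jacobiSym (q : ℤ) n = -1 := by
    conv_lhs => rw [hn']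
    rw [jacobiSym.mul_right' _ hp0.ne_zero hn'0, J1, J2]; norm_num
  have hqodd : Odd q := by rw [Nat.odd_iff]; omega
  have J4 : jacobiSym (n : ℤ) q = -1 := by
    rw [jacobiSym.quadratic_reciprocity_one_mod_four (by omega) hqodd]; exact J3
  have J5 : jacobiSym (-(n : ℤ)) q = 1 := by
    rw [neg_eq_neg_one_mul, jacobiSym.mul_left, J4, jacobiSym.at_neg_one hqodd,
      ZMod.χ₄_nat_three_mod_four hq4]; norm_num
  rw [← jacobiSym.legendreSym.to_jacobiSym] at J5
  have hne : (((-(n : ℤ)) : ℤ) : ZMod q) ≠ 0 := by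
    intro h0
    have := (legendreSym.eq_zero_iff q (-(n : ℤ))).2 h0
    omega
  obtain ⟨r, hr⟩ := (legendreSym.eq_one_iff q hne).1 J5
  obtain ⟨t, rfl⟩ := ZMod.intCast_surjective r
  refine ⟨q, t, hq4, ?_⟩
  rw [← ZMod.intCast_zmod_eq_zero_iff_dvd]
  push_cast at hr ⊢
  linear_combination -hr

theorem chiC_surj (n : ℕ) [NeZero n] [IsDedekindDomain (Od n)] (hs : Squarefree n)
    (h8 : n % 8 = 1) (h1 : 1 < n) : Function.Surjective (chiC n h8) := by
  obtain ⟨q, r, hq, hr⟩ := exists_prime n hs h8 h1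
  set I := Ideal.span {((q : ℤ) : Od n), Zsqrtd.sqrtd - (r : Od n)} with hI
  have hN : Ideal.absNorm I = q := absNorm_pair n q r hr
  have hI0 : I ∈ (Ideal (Od n))⁰ := by
    rw [← Ideal.absNorm_ne_zero_iff_mem_nonZeroDivisors, hN]; omega
  have h2 : chiC n h8 (ClassGroup.mk0 ⟨I, hI0⟩) = -1 := by
    rw [chiC_mk0]
    show u4 (Ideal.absNorm I) = -1
    rw [hN, u4_odd q (by omega), if_neg (by omega)]
  intro u
  rcases Int.units_eq_one_or u with rfl | rfl
  · exact ⟨1, map_one _⟩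
  · exact ⟨_, h2⟩

/-- **Q5** -/
theorem chi (n : ℕ) [NeZero n] (hs : Squarefree n) (h8 : n % 8 = 1) (h1 : 1 < n) :
    haveI := ded n hs h8
    ∃ c : ClassGroup (Zsqrtd (-(n : ℤ))) →* ℤˣ, Function.Surjective c ∧
      (∀ I : (Ideal (Zsqrtd (-(n : ℤ))))⁰,
        Ideal.absNorm (I : Ideal (Zsqrtd (-(n : ℤ)))) % 2 = 1 →
        ((c (ClassGroup.mk0 I) : ℤˣ) : ℤ) =
          ZMod.χ₄ ((Ideal.absNorm (I : Ideal (Zsqrtd (-(n : ℤ)))) : ℕ) : ZMod 4)) ∧
      (∀ (m : ℕ) (r : ℤ) (I : (Ideal (Zsqrtd (-(n : ℤ))))⁰), m % 2 = 1 → (m : ℤ) ∣ r ^ 2 + n →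
        (I : Ideal (Zsqrtd (-(n : ℤ)))) =
          Ideal.span {((m : ℤ) : Zsqrtd (-(n : ℤ))), Zsqrtd.sqrtd - (r : Zsqrtd (-(n : ℤ)))} →
        ((c (ClassGroup.mk0 I) : ℤˣ) : ℤ) = ZMod.χ₄ ((m : ℕ) : ZMod 4)) := by
  have := ded n hs h8
  refine ⟨chiC n h8, chiC_surj n hs h8 h1, ?_, ?_⟩
  · intro I hI
    rw [chiC_mk0, u4_chi _ hI]
  · intro m r I hm hr hI
    rw [chiC_mk0, hI]
    have e := absNorm_pair n m r hr
    rw [e, u4_chi _ hm]

end Pool.Agent.TM32
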