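import Mathlib
import Pool.Agent.Lib_helper72.TM32.Chi
set_option autoImplicit false
namespace Pool.Agent.TM32

open scoped nonZeroDivisors

/-- the `ℤ`-linear map `z ↦ im z` -/
def imLin (n : ℕ) : Od n →ₗ[ℤ] ℤ where
  toFun z := z.im
  map_add' _ _ := rfl
  map_smul' c a := by simp

theorem ideal_shape {n : ℕ} [NeZero n] (I : Ideal (Od n)) (hI : I ≠ ⊥)
    (hprim : ∀ l : ℤ, I ≤ Ideal.span {(l : Od n)} → l ^ 2 ≤ 1) :
    ∃ (m : ℕ) (r : ℤ), 0 < m ∧ (m : ℤ) ∣ r ^ 2 + n ∧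
      ∀ z : Od n, z ∈ I ↔ (m : ℤ) ∣ z.re + r * z.im := by
  -- the ideal of the integers
  obtain ⟨m0, hm0⟩ : ∃ m0 : ℤ, ∀ t : ℤ, (t : Od n) ∈ I ↔ m0 ∣ t := by
    obtain ⟨m0, hm0⟩ := (IsPrincipalIdealRing.principal (I.comap (Int.castRingHom (Od n)))).principal
    refine ⟨m0, fun t => ?_⟩
    have h1 : t ∈ I.comap (Int.castRingHom (Od n)) ↔ t ∈ Submodule.span ℤ {m0} := by rw [hm0]
    rw [Ideal.mem_comap, Ideal.submodule_span_eq, Ideal.mem_span_singleton] at h1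
    exact h1
  obtain ⟨g, hg⟩ := (IsPrincipalIdealRing.principal
    ((Submodule.map (imLin n) (I.restrictScalars ℤ) : Submodule ℤ ℤ) : Ideal ℤ)).principal
  have hgm : ∀ z ∈ I, g ∣ z.im := by
    intro z hz
    have h1 : z.im ∈ (Submodule.map (imLin n) (I.restrictScalars ℤ) : Submodule ℤ ℤ) :=
      ⟨z, hz, rfl⟩
    have h2 : z.im ∈ Submodule.span ℤ {g} := by rw [← hg]; exact h1
    rw [Ideal.submodule_span_eq, Ideal.mem_span_singleton] at h2
    exact h2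
  obtain ⟨z0, hz0, hz0g⟩ : ∃ z0 ∈ I, z0.im = g := by
    have h2 : g ∈ Submodule.span ℤ {g} := Submodule.mem_span_singleton_self g
    rw [← hg] at h2
    obtain ⟨z0, h3, h4⟩ := h2
    exact ⟨z0, h3, h4⟩
  have hgre : ∀ z ∈ I, g ∣ z.re := by
    intro z hz
    have h1 := hgm (Zsqrtd.sqrtd * z) (I.mul_mem_left _ hz)
    have h2 : (Zsqrtd.sqrtd * z : Od n).im = z.re := by simp
    rw [h2] at h1; exact h1
  have hle : I ≤ Ideal.span {(g : Od n)} := by
    intro z hz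
    rw [Ideal.mem_span_singleton]
    obtain ⟨a, ha⟩ := hgre z hz
    obtain ⟨b, hb⟩ := hgm z hz
    refine ⟨⟨a, b⟩, ?_⟩
    apply Zsqrtd.ext
    · simp [ha]
    · simp [hb]
  have hg2 := hprim g hle
  have hg0 : g ≠ 0 := by
    rintro rfl
    apply hI
    rw [eq_bot_iff]
    intro z hz
    have h1 := hgre z hz
    have h2 := hgm z hz
    rw [zero_dvd_iff] at h1 h2
    rw [Ideal.mem_bot]
    exact Zsqrtd.ext h1 h2
  obtain ⟨z1, hz1, hz1g⟩ : ∃ z1 ∈ I, z1.im = 1 := by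
    have h3 : g = 1 ∨ g = -1 := by
      have h4 : g ≤ 1 := by nlinarith
      have h5 : -1 ≤ g := by nlinarith
      omega
    rcases h3 with h3 | h3
    · exact ⟨z0, hz0, by rw [hz0g, h3]⟩
    · exact ⟨-z0, I.neg_mem hz0, by rw [Zsqrtd.im_neg, hz0g, h3]; norm_num⟩
  have hiff : ∀ z : Od n, z ∈ I ↔ m0 ∣ z.re + (-z1.re) * z.im := by
    intro z
    rw [← hm0]
    have e1 : z = (((z.re + (-z1.re) * z.im : ℤ)) : Od n) + (z.im : Od n) * z1 := by
      apply Zsqrtd.ext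
      · simp; ring
      · simp [hz1g]
    constructor
    · intro h
      have h2 := I.sub_mem h (I.mul_mem_left (z.im : Od n) hz1)
      have h3 : z - (z.im : Od n) * z1 = (((z.re + (-z1.re) * z.im : ℤ)) : Od n) := by
        conv_lhs => rw [e1]
        have : (((z.re + (-z1.re) * z.im : ℤ)) : Od n).im = 0 := Zsqrtd.im_intCast _
        apply Zsqrtd.ext
        · simp [hz1g]
        · simp [hz1g]
      rw [h3] at h2
      exact h2
    · intro h
      rw [e1]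
      exact I.add_mem h (I.mul_mem_left _ hz1)
  have hdvd : m0 ∣ (-z1.re) ^ 2 + n := by
    have h1 : (Zsqrtd.sqrtd + ((-z1.re : ℤ) : Od n)) * z1 ∈ I := I.mul_mem_left _ hz1
    rw [hiff] at h1
    have e1 : ((Zsqrtd.sqrtd + ((-z1.re : ℤ) : Od n)) * z1).re = -(n : ℤ) - z1.re ^ 2 := by
      simp [hz1g]; ring
    have e2 : ((Zsqrtd.sqrtd + ((-z1.re : ℤ) : Od n)) * z1).im = 0 := by
      simp [hz1g]
    rw [e1, e2, mul_zero, add_zero] at h1
    obtain ⟨t, ht⟩ := h1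
    exact ⟨-t, by linear_combination -ht⟩
  have hm00 : m0 ≠ 0 := by
    rintro rfl
    rw [zero_dvd_iff] at hdvd
    have : (0 : ℤ) < n := by exact_mod_cast Nat.pos_of_ne_zero (NeZero.ne n)
    nlinarith [sq_nonneg z1.re]
  refine ⟨m0.natAbs, -z1.re, Int.natAbs_pos.2 hm00, ?_, ?_⟩
  · rw [Int.natCast_natAbs, abs_dvd]; exact hdvd
  · intro z
    rw [Int.natCast_natAbs, abs_dvd]; exact hiff z

theorem exists_rep {n : ℕ} [NeZero n] [IsDedekindDomain (Od n)] (C : ClassGroup (Od n))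
    (N : ℕ) (hN : N ≠ 0) :
    ∃ (m : ℕ) (r : ℤ) (I : (Ideal (Od n))⁰), 0 < m ∧ Nat.Coprime m N ∧ m % 2 = 1 ∧
      (m : ℤ) ∣ r ^ 2 + n ∧
      (∀ z : Od n, z ∈ (I : Ideal (Od n)) ↔ (m : ℤ) ∣ z.re + r * z.im) ∧ ClassGroup.mk0 I = C := by
  classical
  set M : ℤ := 2 * N with hM
  have hM0 : (M : Od n) ≠ 0 := by
    intro h0
    have h2 := congrArg Zsqrtd.re h0
    simp [hM] at h2
    exact hN h2
  have hM1 : Ideal.span {(M : Od n)} ≠ 1 := by
    intro h1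
    rw [Ideal.one_eq_top, Ideal.span_singleton_eq_top, Zsqrtd.isUnit_iff_norm_isUnit] at h1
    have h2 : (M : Od n).norm = M ^ 2 := by rw [Zsqrtd.norm_intCast, pow_two]
    rw [h2, Int.isUnit_iff] at h1
    rcases h1 with h1 | h1
    · have : (M - 1) * (M + 1) = 0 := by linear_combination h1
      rcases mul_eq_zero.1 this with h3 | h3 <;> omega
    · nlinarith [sq_nonneg M]
  obtain ⟨⟨J, hJ⟩, hJC⟩ := ClassGroup.mk0_surjective (C⁻¹)
  have hJ0 : J ≠ 0 := nonZeroDivisors.ne_zero hJ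
  have hspan0 : Ideal.span {(M : Od n)} ≠ 0 := by
    rw [Ideal.zero_eq_bot, Ne, Ideal.span_singleton_eq_bot]; exact hM0
  obtain ⟨a, ha⟩ := IsDedekindDomain.exists_sup_span_eq (I := J * Ideal.span {(M : Od n)}) (J := J)
    Ideal.mul_le_left (mul_ne_zero hJ0 hspan0)
  have ha0 : a ≠ 0 := by
    rintro rfl
    have h1 : Ideal.span {(0 : Od n)} = ⊥ := by rw [Ideal.span_singleton_eq_bot]
    rw [h1, sup_bot_eq] at ha
    have h2 : J * Ideal.span {(M : Od n)} = J * 1 := by rw [ha, mul_one]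
    exact hM1 (mul_left_cancel₀ hJ0 h2)
  have haJ : a ∈ J := by
    rw [← ha]; exact Ideal.mem_sup_right (Ideal.mem_span_singleton_self a)
  obtain ⟨I0, hI0⟩ : J ∣ Ideal.span {a} := by
    rw [Ideal.dvd_iff_le, Ideal.span_singleton_le_iff_mem]; exact haJ
  have hI00 : I0 ≠ 0 := by
    rintro rfl
    rw [mul_zero] at hI0
    have : Ideal.span {a} = (⊥ : Ideal (Od n)) := hI0
    rw [Ideal.span_singleton_eq_bot] at this
    exact ha0 this
  have hsup0 : I0 ⊔ Ideal.span {(M : Od n)} = 1 := by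
    rw [hI0, ← Ideal.mul_sup] at ha
    have h2 : J * (Ideal.span {(M : Od n)} ⊔ I0) = J * 1 := by rw [ha, mul_one]
    rw [sup_comm]; exact mul_left_cancel₀ hJ0 h2
  have hcl0 : ClassGroup.mk0 ⟨I0, mem_nonZeroDivisors_iff_ne_zero.2 hI00⟩ = C := by
    have h1 : ClassGroup.mk0 (⟨J, hJ⟩ * ⟨I0, mem_nonZeroDivisors_iff_ne_zero.2 hI00⟩) = 1 := by
      rw [ClassGroup.mk0_eq_one_iff]
      show (J * I0).IsPrincipal
      rw [← hI0]
      exact ⟨⟨a, rfl⟩⟩
    rw [map_mul, hJC, inv_mul_eq_one] at h1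
    exact h1.symm
  -- minimal norm
  have hex : ∃ k : ℕ, ∃ I : (Ideal (Od n))⁰, ClassGroup.mk0 I = C ∧
      (I : Ideal (Od n)) ⊔ Ideal.span {(M : Od n)} = 1 ∧ Ideal.absNorm (I : Ideal (Od n)) = k :=
    ⟨_, ⟨I0, mem_nonZeroDivisors_iff_ne_zero.2 hI00⟩, hcl0, hsup0, rfl⟩
  obtain ⟨I, hIC, hIsup, hIN⟩ := Nat.find_spec hex
  have hmin : ∀ I' : (Ideal (Od n))⁰, ClassGroup.mk0 I' = C →
      (I' : Ideal (Od n)) ⊔ Ideal.span {(M : Od n)} = 1 →
      Ideal.absNorm (I : Ideal (Od n)) ≤ Ideal.absNorm (I' : Ideal (Od n)) := by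
    intro I' h1 h2
    rw [hIN]
    exact Nat.find_min' hex ⟨I', h1, h2, rfl⟩
  have hI0' : (I : Ideal (Od n)) ≠ ⊥ := nonZeroDivisors.coe_ne_zero I
  have hprim : ∀ l : ℤ, (I : Ideal (Od n)) ≤ Ideal.span {(l : Od n)} → l ^ 2 ≤ 1 := by
    intro l hl
    rw [← Ideal.dvd_iff_le] at hl
    obtain ⟨I', hI'⟩ := hl
    have hI'0 : I' ≠ 0 := by
      rintro rfl
      rw [mul_zero] at hI'
      exact hI0' hI'
    have hl0 : (l : Od n) ≠ 0 := by
      intro h0
      rw [h0] at hI'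
      have h1 : Ideal.span {(0 : Od n)} = 0 := by rw [Ideal.zero_eq_bot, Ideal.span_singleton_eq_bot]
      rw [h1, zero_mul] at hI'
      exact hI0' hI'
    have hl0' : l ≠ 0 := by rintro rfl; exact hl0 (by simp)
    have h1 : ClassGroup.mk0 ⟨I', mem_nonZeroDivisors_iff_ne_zero.2 hI'0⟩ = C := by
      rw [← hIC, ClassGroup.mk0_eq_mk0_iff]
      refine ⟨(l : Od n), 1, hl0, one_ne_zero, ?_⟩
      have h2 : Ideal.span {(1 : Od n)} = 1 := by rw [Ideal.one_eq_top, Ideal.span_singleton_one]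
      rw [h2, one_mul]
      exact hI'.symm
    have h2 : I' ⊔ Ideal.span {(M : Od n)} = 1 := by
      have h3 : (I : Ideal (Od n)) ≤ I' := by rw [hI']; exact Ideal.mul_le_right
      rw [Ideal.one_eq_top] at hIsup ⊢
      rw [eq_top_iff, ← hIsup]
      exact sup_le_sup_right h3 _
    have h3 := hmin ⟨I', mem_nonZeroDivisors_iff_ne_zero.2 hI'0⟩ h1 h2
    have h4 : Ideal.absNorm I' ≠ 0 :=
      Ideal.absNorm_ne_zero_iff_mem_nonZeroDivisors.2 (mem_nonZeroDivisors_iff_ne_zero.2 hI'0)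
    have h5 : Ideal.absNorm (I : Ideal (Od n)) = l.natAbs ^ 2 * Ideal.absNorm I' := by
      rw [hI', map_mul, absNorm_span]
      congr 1
      simp [Int.natAbs_pow]
    rw [h5] at h3
    have h6 : l.natAbs ^ 2 ≤ 1 := by
      by_contra hcon
      push Not at hcon
      have h7 : 0 < Ideal.absNorm I' := Nat.pos_of_ne_zero h4
      have h3' : l.natAbs ^ 2 * Ideal.absNorm I' ≤ Ideal.absNorm I' := h3
      nlinarith
    have h7 : ((l.natAbs ^ 2 : ℕ) : ℤ) = l ^ 2 := by push_cast; exact sq_abs l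
    have h8 : ((l.natAbs ^ 2 : ℕ) : ℤ) ≤ 1 := by exact_mod_cast h6
    rw [h7] at h8
    exact h8
  obtain ⟨m, r, hm0, hmr, hIff⟩ := ideal_shape (I : Ideal (Od n)) hI0' hprim
  have hcop : IsCoprime (m : ℤ) M := by
    have h1 : (1 : Od n) ∈ (I : Ideal (Od n)) ⊔ Ideal.span {(M : Od n)} := by
      rw [hIsup, Ideal.one_eq_top]; trivial
    obtain ⟨i, hi, j, hj, hij⟩ := Submodule.mem_sup.1 h1
    obtain ⟨w, hw⟩ := Ideal.mem_span_singleton.1 hj
    obtain ⟨t, ht⟩ := (hIff i).1 hi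
    have e1 := congrArg Zsqrtd.re hij
    have e2 := congrArg Zsqrtd.im hij
    rw [hw] at e1 e2
    simp only [Zsqrtd.re_add, Zsqrtd.im_add, Zsqrtd.re_mul, Zsqrtd.im_mul, Zsqrtd.re_intCast,
      Zsqrtd.im_intCast, Zsqrtd.re_one, Zsqrtd.im_one] at e1 e2
    refine ⟨t, w.re + r * w.im, ?_⟩
    linear_combination e1 + r * e2 - ht
  have hcopN : Nat.Coprime m (2 * N) := by
    rw [hM] at hcop
    have : IsCoprime (m : ℤ) ((2 * N : ℕ) : ℤ) := by push_cast; exact hcop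
    exact Nat.isCoprime_iff_coprime.1 this
  refine ⟨m, r, I, hm0, Nat.Coprime.coprime_mul_left_right hcopN, ?_, hmr, hIff, hIC⟩
  have := Nat.Coprime.coprime_mul_right_right hcopN
  rw [Nat.coprime_two_right, Nat.odd_iff] at this
  exact this

end Pool.Agent.TM32
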