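import Mathlib
set_option autoImplicit false
namespace Pool.Agent.TM32
open scoped nonZeroDivisors

section
variable {R : Type} [CommRing R] [IsDomain R]

/-- invertible ideals -/
def Inv (I : Ideal R) : Prop := ∃ (I' : Ideal R) (x : R), x ≠ 0 ∧ I * I' = Ideal.span {x}

theorem exists_unit (I : Ideal R) (h : Inv I) :
    ∃ u : (FractionalIdeal R⁰ (FractionRing R))ˣ, (u : FractionalIdeal R⁰ (FractionRing R)) = I := by
  obtain ⟨I', x, hx, h⟩ := h
  have hx' : algebraMap R (FractionRing R) x ≠ 0 := by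
    rw [Ne, map_eq_zero_iff _ (IsFractionRing.injective R (FractionRing R))]; exact hx
  have h1 : (I : FractionalIdeal R⁰ (FractionRing R)) *
      ((I' : FractionalIdeal R⁰ (FractionRing R)) *
        FractionalIdeal.spanSingleton R⁰ (algebraMap R (FractionRing R) x)⁻¹) = 1 := by
    rw [← mul_assoc, ← FractionalIdeal.coeIdeal_mul, h, FractionalIdeal.coeIdeal_span_singleton,
      FractionalIdeal.spanSingleton_mul_spanSingleton, mul_inv_cancel₀ hx',
      FractionalIdeal.spanSingleton_one]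
  exact ⟨Units.mkOfMulEqOne _ _ h1, rfl⟩

/-- the class of an invertible ideal -/
noncomputable def mkI (I : Ideal R) (h : Inv I) : ClassGroup R :=
  ClassGroup.mk (FractionRing R) (exists_unit I h).choose

theorem mkI_spec (I : Ideal R) (h : Inv I) :
    ((exists_unit I h).choose : FractionalIdeal R⁰ (FractionRing R)) = I :=
  (exists_unit I h).choose_spec

theorem mkI_eq_iff (I J : Ideal R) (hI : Inv I) (hJ : Inv J) :
    mkI I hI = mkI J hJ ↔ ∃ x y : R, x ≠ 0 ∧ y ≠ 0 ∧ Ideal.span {x} * I = Ideal.span {y} * J :=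
  ClassGroup.mk_eq_mk_of_coe_ideal (mkI_spec I hI) (mkI_spec J hJ)

theorem mkI_eq_of (I : Ideal R) (hI : Inv I) (u : (FractionalIdeal R⁰ (FractionRing R))ˣ)
    (hu : (u : FractionalIdeal R⁰ (FractionRing R)) = I) :
    mkI I hI = ClassGroup.mk (FractionRing R) u := by
  unfold mkI
  congr 1
  apply Units.ext
  rw [mkI_spec I hI, hu]

theorem Inv.mul {I J : Ideal R} (hI : Inv I) (hJ : Inv J) : Inv (I * J) := by
  obtain ⟨I', x, hx, h⟩ := hI
  obtain ⟨J', y, hy, h'⟩ := hJ
  refine ⟨I' * J', x * y, mul_ne_zero hx hy, ?_⟩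
  rw [← Ideal.span_singleton_mul_span_singleton, ← h, ← h']
  ring

theorem mkI_mul (I J : Ideal R) (hI : Inv I) (hJ : Inv J) (hIJ : Inv (I * J)) :
    mkI (I * J) hIJ = mkI I hI * mkI J hJ := by
  rw [mkI_eq_of (I * J) hIJ ((exists_unit I hI).choose * (exists_unit J hJ).choose)]
  · rw [map_mul]; rfl
  · rw [Units.val_mul, mkI_spec I hI, mkI_spec J hJ, FractionalIdeal.coeIdeal_mul]

theorem inv_span (x : R) (hx : x ≠ 0) : Inv (Ideal.span {x}) :=
  ⟨1, x, hx, mul_one _⟩

theorem mkI_span (x : R) (hx : x ≠ 0) (h : Inv (Ideal.span {x})) : mkI (Ideal.span {x}) h = 1 := by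
  unfold mkI
  rw [ClassGroup.mk_eq_one_of_coe_ideal (mkI_spec _ h)]
  exact ⟨x, hx, rfl⟩

theorem exists_rep_inv (C : ClassGroup R) : ∃ (I : Ideal R) (h : Inv I), mkI I h = C := by
  refine ClassGroup.induction (R := R) (FractionRing R) (fun u => ?_) C
  have key : ∀ v : (FractionalIdeal R⁰ (FractionRing R))ˣ, ∃ (I : Ideal R) (d : R), d ≠ 0 ∧
      FractionalIdeal.spanSingleton R⁰ (algebraMap R (FractionRing R) d) *
        (v : FractionalIdeal R⁰ (FractionRing R)) = I := by
    intro v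
    exact ⟨_, (v : FractionalIdeal R⁰ (FractionRing R)).den, nonZeroDivisors.ne_zero
      (SetLike.coe_mem _), FractionalIdeal.den_mul_self_eq_num' R⁰ (FractionRing R) _⟩
  obtain ⟨I, d, hd, h⟩ := key u
  obtain ⟨I', d', hd', h'⟩ := key u⁻¹
  have hI : Inv I := by
    refine ⟨I', d * d', mul_ne_zero hd hd', ?_⟩
    apply FractionalIdeal.coeIdeal_injective (R := R) (K := FractionRing R)
    show ((I * I' : Ideal R) : FractionalIdeal R⁰ (FractionRing R)) =
      ((Ideal.span {d * d'} : Ideal R) : FractionalIdeal R⁰ (FractionRing R))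
    rw [FractionalIdeal.coeIdeal_mul, ← h, ← h', FractionalIdeal.coeIdeal_span_singleton, map_mul,
      ← FractionalIdeal.spanSingleton_mul_spanSingleton]
    calc FractionalIdeal.spanSingleton R⁰ (algebraMap R (FractionRing R) d) *
        (u : FractionalIdeal R⁰ (FractionRing R)) *
        (FractionalIdeal.spanSingleton R⁰ (algebraMap R (FractionRing R) d') *
          ((u⁻¹ : (FractionalIdeal R⁰ (FractionRing R))ˣ) : FractionalIdeal R⁰ (FractionRing R)))
        = FractionalIdeal.spanSingleton R⁰ (algebraMap R (FractionRing R) d) *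
          FractionalIdeal.spanSingleton R⁰ (algebraMap R (FractionRing R) d') *
          ((u : FractionalIdeal R⁰ (FractionRing R)) *
          ((u⁻¹ : (FractionalIdeal R⁰ (FractionRing R))ˣ) : FractionalIdeal R⁰ (FractionRing R))) := by
            ring
      _ = _ := by rw [Units.mul_inv, mul_one]
  refine ⟨I, hI, ?_⟩
  unfold mkI
  have hdK : algebraMap R (FractionRing R) d ≠ 0 := by
    rw [Ne, map_eq_zero_iff _ (IsFractionRing.injective R (FractionRing R))]; exact hd
  rw [eq_comm, ClassGroup.mk_eq_mk]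
  refine ⟨Units.mk0 _ hdK, ?_⟩
  apply Units.ext
  rw [Units.val_mul, mkI_spec I hI, coe_toPrincipalIdeal, Units.val_mk0, mul_comm]
  exact h

theorem span_mul_cancel (x : R) (hx : x ≠ 0) (I J : Ideal R)
    (h : Ideal.span {x} * I = Ideal.span {x} * J) : I = J :=
  (Ideal.span_singleton_mul_right_inj hx).1 h

theorem span_mul_le (x : R) (hx : x ≠ 0) (I J : Ideal R)
    (h : Ideal.span {x} * I ≤ Ideal.span {x} * J) : I ≤ J :=
  (Ideal.span_singleton_mul_right_mono hx).1 h

/-- every class contains an ideal not contained in the kernel of a homomorphism to `F_2` -/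
theorem exists_oddI (f : R →+* ZMod 2) (C : ClassGroup R) :
    ∃ (I : Ideal R) (h : Inv I), mkI I h = C ∧ ∃ x ∈ I, x ∉ RingHom.ker f := by
  obtain ⟨J, hJ, hJC⟩ := exists_rep_inv (C⁻¹)
  set P := RingHom.ker f with hP
  have hP1 : P ≠ 1 := by
    intro h1
    have : (1 : R) ∈ P := by rw [h1, Ideal.one_eq_top]; trivial
    rw [hP, RingHom.mem_ker, map_one] at this
    exact absurd this (by decide)
  obtain ⟨J', x0, hx0, hJJ'⟩ := hJ
  have hne : ¬ J ≤ J * P := by
    intro hle
    have h1 : J * P = J := le_antisymm Ideal.mul_le_left hle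
    apply hP1
    apply span_mul_cancel x0 hx0
    rw [mul_one, ← hJJ']
    calc J * J' * P = J * P * J' := by ring
      _ = J * J' := by rw [h1]
  obtain ⟨x, hxJ, hxP⟩ := SetLike.not_le_iff_exists.1 hne
  have hx1 : x ≠ 0 := by
    rintro rfl; exact hxP (Ideal.zero_mem _)
  -- (x) J' is contained in (x0)
  have hle : Ideal.span {x} * J' ≤ Ideal.span {x0} := by
    rw [← hJJ']
    exact Ideal.mul_mono_left ((Ideal.span_singleton_le_iff_mem _).2 hxJ)
  obtain ⟨Q, hQ⟩ : ∃ Q : Ideal R, Ideal.span {x0} * Q = Ideal.span {x} * J' := by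
    refine ⟨Submodule.comap (LinearMap.mulLeft R x0) (Ideal.span {x} * J'), ?_⟩
    ext z
    rw [Ideal.mem_span_singleton_mul]
    constructor
    · rintro ⟨q, hq, rfl⟩; exact hq
    · intro hz
      obtain ⟨q, hq⟩ := Ideal.mem_span_singleton'.1 (hle hz)
      refine ⟨q, ?_, by rw [← hq, mul_comm]⟩
      show x0 * q ∈ Ideal.span {x} * J'
      rw [mul_comm x0 q, hq]; exact hz
  have hJQ : J * Q = Ideal.span {x} := by
    apply span_mul_cancel x0 hx0
    calc Ideal.span {x0} * (J * Q) = J * (Ideal.span {x0} * Q) := by ring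
      _ = Ideal.span {x} * (J * J') := by rw [hQ]; ring
      _ = Ideal.span {x0} * Ideal.span {x} := by rw [hJJ']; ring
  have hQI : Inv Q := ⟨J, x, hx1, by rw [mul_comm, hJQ]⟩
  have hQP : ¬ Q ≤ P := by
    intro hle
    apply hxP
    have h1 : x ∈ J * Q := by rw [hJQ]; exact Ideal.mem_span_singleton_self x
    exact Ideal.mul_mono_right hle h1
  obtain ⟨y, hyQ, hyP⟩ := SetLike.not_le_iff_exists.1 hQP
  refine ⟨Q, hQI, ?_, y, hyQ, hyP⟩
  have hJ : Inv J := ⟨J', x0, hx0, hJJ'⟩
  have h1 := mkI_mul J Q hJ hQI (hJ.mul hQI)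
  have h2 : mkI (J * Q) (hJ.mul hQI) = 1 := by
    have : ∀ (K : Ideal R) (hK : Inv K), K = Ideal.span {x} → mkI K hK = 1 := by
      rintro K hK rfl
      exact mkI_span x hx1 hK
    exact this _ _ hJQ
  rw [h2, hJC, eq_comm, inv_mul_eq_one] at h1
  exact h1.symm

end

end Pool.Agent.TM32
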