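import Mathlib
import Pool.Agent.Lib_helper72.TM32.Count
import Pool.Agent.Lib_helper72.TM32.E3a
set_option autoImplicit false
namespace Pool.Agent.TM32

theorem comap_mapI {n : ℕ} [NeZero n] (hs : Squarefree n) {μ : Hq}
    (h : IsOm n μ) (I : Ideal (Od n)) (hI : Inv I) : (I.map (phi h)).comap (phi h) = I := by
  apply le_antisymm _ Ideal.le_comap_map
  obtain ⟨I', x, hx0, hI'⟩ := hI
  intro z hz
  rw [Ideal.mem_comap] at hz
  have key1 : ∀ i' ∈ I', ∀ q ∈ I.map (phi h), q * phi h i' ∈ Ideal.span {phi h x} := by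
    intro i' hi' q hq
    unfold Ideal.map at hq
    induction hq using Submodule.span_induction with
    | mem y hy =>
      obtain ⟨i, hi, rfl⟩ := hy
      rw [← map_mul]
      have h1 : i * i' ∈ Ideal.span {x} := by rw [← hI']; exact Ideal.mul_mem_mul hi hi'
      obtain ⟨t, ht⟩ := Ideal.mem_span_singleton'.1 h1
      rw [← ht, map_mul]
      exact Ideal.mul_mem_left _ _ (Ideal.mem_span_singleton_self _)
    | zero => rw [zero_mul]; exact Ideal.zero_mem _
    | add y y' _ _ h1 h2 => rw [add_mul]; exact Ideal.add_mem _ h1 h2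
    | smul c y _ h1 => rw [smul_eq_mul, mul_assoc]; exact Ideal.mul_mem_left _ _ h1
  have h2 : Ideal.span {z} * I' ≤ Ideal.span {x} := by
    rw [Ideal.mul_le]
    intro r hr i' hi'
    obtain ⟨t, rfl⟩ := Ideal.mem_span_singleton'.1 hr
    have h3 := key1 i' hi' (phi h z) hz
    obtain ⟨q, hq⟩ := Ideal.mem_span_singleton'.1 h3
    rw [← map_mul] at hq
    obtain ⟨z', -, hz'⟩ := phi_div' hs h x hx0 q _ hq
    rw [mul_assoc, hz']
    exact Ideal.mul_mem_left _ _ (Ideal.mul_mem_right _ _ (Ideal.mem_span_singleton_self _))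
  have h3 : Ideal.span {x} * Ideal.span {z} ≤ Ideal.span {x} * I := by
    calc Ideal.span {x} * Ideal.span {z} = I * (Ideal.span {z} * I') := by rw [← hI']; ring
      _ ≤ I * Ideal.span {x} := Ideal.mul_mono_right h2
      _ = Ideal.span {x} * I := mul_comm _ _
  exact (Ideal.span_singleton_le_iff_mem _).1 (span_mul_le x hx0 _ _ h3)

theorem inv_Iq_prim {n : ℕ} (hs : Squarefree n) {μ : Hq} (h : IsOm n μ) (a μ1 : Hq)
    (hm : nrm a % 2 = 1) (ht : a * μ = μ1 * a) (hp : Prim a) : Inv (Iq h a) := by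
  obtain ⟨r, ⟨q, hr⟩, hz⟩ := Iq_prim hs h a μ1 hm ht hp
  set m := nrm a with hmdef
  have hm0 : m ≠ 0 := by omega
  have hmO : ((m : ℤ) : Od n) ≠ 0 := by
    intro h0
    have h2 := congrArg Zsqrtd.re h0
    simp at h2
    exact hm0 h2
  obtain ⟨x, y, w, hxyz⟩ := bez3 q m (2 * r) (by
    intro d d1 d2 d3
    have d4 : d ∣ r := by
      obtain ⟨e, he⟩ := d3
      obtain ⟨f, hf⟩ := d2
      have hd2 : d % 2 = 1 := by
        rcases Int.emod_two_eq_zero_or_one d with h0 | h0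
        · exfalso
          obtain ⟨d', hd'⟩ : ∃ d', d = 2 * d' := ⟨d / 2, by omega⟩
          have : m = 2 * (d' * f) := by rw [hf, hd']; ring
          omega
        · exact h0
      obtain ⟨d', hd'⟩ : ∃ d', d = 2 * d' + 1 := ⟨d / 2, by omega⟩
      refine ⟨r - d' * e, ?_⟩
      rw [hd'] at he ⊢
      linear_combination (-d') * he
    have d5 : d * d ∣ (n : ℤ) := by
      have e1 : d * d ∣ m * q := mul_dvd_mul d2 d1
      have e2 : d * d ∣ r ^ 2 := by rw [pow_two]; exact mul_dvd_mul d4 d4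
      rw [← hr] at e1
      exact (dvd_add_right e2).1 e1
    exact (Int.squarefree_natCast.2 hs) d d5)
  let I' : Ideal (Od n) := Ideal.span {((m : ℤ) : Od n), Zsqrtd.sqrtd + (r : Od n)}
  refine ⟨I', ((m : ℤ) : Od n), hmO, ?_⟩
  have hs2 : (Zsqrtd.sqrtd : Od n) * Zsqrtd.sqrtd = ((-(n : ℤ) : ℤ) : Od n) := Zsqrtd.dmuld
  have hsr : ((Zsqrtd.sqrtd : Od n) - (r : Od n)) * (Zsqrtd.sqrtd + (r : Od n)) =
      ((m : ℤ) : Od n) * ((-q : ℤ) : Od n) := by
    have e : ((Zsqrtd.sqrtd : Od n) - (r : Od n)) * (Zsqrtd.sqrtd + (r : Od n)) =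
      (Zsqrtd.sqrtd : Od n) * Zsqrtd.sqrtd - (r : Od n) * (r : Od n) := by ring
    have h2 : -(n : ℤ) - r * r = m * (-q) := by linarith
    rw [e, hs2, ← Int.cast_mul, ← Int.cast_mul, ← h2, Int.cast_sub]
  apply le_antisymm
  · rw [Ideal.mul_le]
    intro z hzI y' hy'
    obtain ⟨t, ht'⟩ := (hz z).1 hzI
    obtain ⟨u, v, huv⟩ := Ideal.mem_span_pair.1 hy'
    have ez : z = ((m : ℤ) : Od n) * (t : Od n) + (z.im : Od n) * (Zsqrtd.sqrtd - (r : Od n)) := by
      ext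
      · simp
        linarith
      · simp
    rw [Ideal.mem_span_singleton']
    refine ⟨(t : Od n) * y' + (z.im : Od n) * (Zsqrtd.sqrtd - (r : Od n)) * u +
      (z.im : Od n) * v * ((-q : ℤ) : Od n), ?_⟩
    rw [← huv]
    conv_rhs => rw [ez]
    linear_combination (-(z.im : Od n) * v) * hsr
  · rw [Ideal.span_singleton_le_iff_mem]
    have m1 : ((m : ℤ) : Od n) ∈ Iq h a := by
      rw [hz]; simp
    have m2 : (Zsqrtd.sqrtd : Od n) - (r : Od n) ∈ Iq h a := by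
      rw [hz]; simp
    have m3 : ((m : ℤ) : Od n) ∈ I' := Ideal.subset_span (by simp)
    have m4 : (Zsqrtd.sqrtd : Od n) + (r : Od n) ∈ I' := Ideal.subset_span (by simp)
    have e : ((m : ℤ) : Od n) = (-(x : Od n)) * (((Zsqrtd.sqrtd : Od n) - (r : Od n)) *
        (Zsqrtd.sqrtd + (r : Od n))) + (y : Od n) * (((m : ℤ) : Od n) * ((m : ℤ) : Od n)) +
        (w : Od n) * (((m : ℤ) : Od n) * (Zsqrtd.sqrtd + (r : Od n)) -
        ((Zsqrtd.sqrtd : Od n) - (r : Od n)) * ((m : ℤ) : Od n)) := by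
      rw [hsr]
      have h1 : (x : Od n) * (q : Od n) + (y : Od n) * ((m : ℤ) : Od n) +
          (w : Od n) * (2 * (r : Od n)) = 1 := by
        have := congrArg (fun t : ℤ => (t : Od n)) hxyz
        push_cast at this
        exact this
      push_cast
      linear_combination (-((m : ℤ) : Od n)) * h1
    rw [e]
    exact Ideal.add_mem _ (Ideal.add_mem _ (Ideal.mul_mem_left _ _ (Ideal.mul_mem_mul m2 m4))
      (Ideal.mul_mem_left _ _ (Ideal.mul_mem_mul m1 m3)))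
      (Ideal.mul_mem_left _ _ (Ideal.sub_mem _ (Ideal.mul_mem_mul m1 m4) (Ideal.mul_mem_mul m2 m3)))

theorem inv_Iq {n : ℕ} [NeZero n] (hs : Squarefree n) {μ : Hq} (h : IsOm n μ) (a μ1 : Hq)
    (hm : nrm a % 2 = 1) (ht : a * μ = μ1 * a) : Inv (Iq h a) := by
  obtain ⟨c, a', hca, hp⟩ := content a (by omega)
  have hn : nrm a = c ^ 2 * nrm a' := by rw [hca, nrm_mul, nrm_int]
  have hc0 : c ≠ 0 := by
    rintro rfl
    rw [hn] at hm; omega
  have hm' : nrm a' % 2 = 1 := by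
    rcases Int.emod_two_eq_zero_or_one (nrm a') with h0 | h0
    · exfalso
      obtain ⟨d', hd'⟩ : ∃ d', nrm a' = 2 * d' := ⟨nrm a' / 2, by omega⟩
      have : nrm a = 2 * (c ^ 2 * d') := by rw [hn, hd']; ring
      omega
    · exact h0
  have ht' : a' * μ = μ1 * a' := by
    apply int_cancel c hc0
    rw [← mul_assoc, ← hca, ht, hca, ← mul_assoc, ← mul_assoc, int_comm]
  have hcO : ((c : ℤ) : Od n) ≠ 0 := by
    intro h0
    have h2 := congrArg Zsqrtd.re h0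
    simp at h2
    exact hc0 h2
  have e : Iq h a = Ideal.span {((c : ℤ) : Od n)} * Iq h a' := by
    rw [← Iq_scale hs h a' _ hcO, phi_int, ← int_comm, ← hca]
  rw [e]
  exact (inv_span _ hcO).mul (inv_Iq_prim hs h a' μ1 hm' ht' hp)

/-- general bijection -/
theorem gen_bij {n : ℕ} [NeZero n] (hs : Squarefree n) (f : Od n →+* ZMod 2)
    (hf : ∀ z : Od n, z.norm % 2 = 1 ↔ z ∉ RingHom.ker f) (Om : Hq → Prop)
    (hOm : ∀ μ, Om μ → IsOm n μ)
    (htw : ∀ μ μ', Om μ → Om μ' → ∃ a, nrm a % 2 = 1 ∧ a * μ = μ' * a)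
    (hst : ∀ μ a μ', Om μ → IsOm n μ' → nrm a % 2 = 1 → a * μ = μ' * a → Om μ')
    (hfree : ∀ μ, Om μ → ∀ v w, fl v μ = fl w μ → v = w) {μ0 : Hq} (h0' : Om μ0) :
    ∃ s : ClassGroup (Od n) → Hq, (∀ C, Om (s C)) ∧
      (∀ C C' v v', fl v (s C) = fl v' (s C') → C = C' ∧ v = v') ∧
      (∀ μ, Om μ → ∃ C v, fl v (s C) = μ) := by
  have h0 := hOm μ0 h0'
  have exm : ∀ C : ClassGroup (Od n), ∃ (μ1 a : Hq) (hI : Inv (Iq h0 a)), nrm a % 2 = 1 ∧
      Om μ1 ∧ a * μ0 = μ1 * a ∧ mkI (Iq h0 a) hI = C := by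
    intro C
    obtain ⟨I, hI, hIC, x, hxI, hx⟩ := exists_oddI f C
    set J := I.map (phi h0) with hJ
    obtain ⟨a, haJ, ha, hJa⟩ := principal_odd J (phi h0 x) (by rw [nrm_phi]; exact (hf x).2 hx)
      (Ideal.mem_map_of_mem _ hxI)
    have hJs : J = Ideal.span {a} := by
      apply le_antisymm
      · intro q hq
        obtain ⟨p, rfl⟩ := hJa q hq
        exact Ideal.mul_mem_left _ _ (Ideal.mem_span_singleton_self a)
      · rw [Ideal.span_singleton_le_iff_mem]; exact haJ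
    have h1 : a * μ0 ∈ J := by
      have := map_mul_mem' h0 I Zsqrtd.sqrtd a haJ
      rw [phi_sqrtd] at this
      exact this
    obtain ⟨μ1, hμ1⟩ := hJa _ h1
    have ha0 : nrm a ≠ 0 := by omega
    have h2 : μ1 * μ1 = ((-(n : ℤ) : ℤ) : Hq) := by
      apply mul_right_cancel' _ _ a ha0
      rw [mul_assoc, ← hμ1, ← mul_assoc, ← hμ1, mul_assoc, h0.sq, int_comm]
    obtain ⟨h3, h4⟩ := pure_of_sq (Nat.pos_of_ne_zero (NeZero.ne n)) μ1 h2
    have h5 : IsOm n μ1 := by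
      refine ⟨h3, h4, ?_⟩
      obtain ⟨q, hq⟩ := comm_even a μ0
      have e1 : (μ1 - μ0) * ((nrm a : ℤ) : Hq) = ((2 : ℤ) : Hq) * (q * star a) := by
        rw [← self_mul_star', ← mul_assoc, sub_mul, ← hμ1, hq, mul_assoc]
      have e2 := congrArg (fun q : Hq => q.imI) e1
      simp only [← int_comm, int_mul_imI, Quaternion.imI_sub] at e2
      obtain ⟨m, hm⟩ : ∃ m, nrm a = 2 * m + 1 := ⟨nrm a / 2, by omega⟩
      rw [hm] at e2
      have e3 : μ1.imI - μ0.imI = 2 * ((q * star a).imI - m * (μ1.imI - μ0.imI)) := by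
        linear_combination e2
      have := h0.odd
      omega
    have h6 : Iq h0 a = I := by
      unfold Iq
      rw [← hJs, hJ]
      exact comap_mapI hs h0 I hI
    have h7 : ∀ (K : Ideal (Od n)), K = I → ∃ (hK : Inv K), mkI K hK = C := by
      rintro K rfl
      exact ⟨hI, hIC⟩
    obtain ⟨hK, hKC⟩ := h7 _ h6
    exact ⟨μ1, a, hK, ha, hst μ0 a μ1 h0' h5 ha hμ1, hμ1, hKC⟩
  choose s a hI ha hs1 hs2 hs3 using exm
  have cls_U : ∀ (b : Hq) (v : Fin 4), Iq h0 (U v * b) = Iq h0 b := by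
    intro b v
    ext z
    rw [mem_Iq, mem_Iq]
    constructor
    · rintro ⟨q, hq⟩; exact ⟨q * U v, by rw [hq, mul_assoc]⟩
    · rintro ⟨q, hq⟩
      refine ⟨q * star (U v), ?_⟩
      rw [hq, mul_assoc q, ← mul_assoc (star (U v)), star_mul_self', nrm_U]
      simp
  refine ⟨s, hs1, ?_, ?_⟩
  · intro C C' v v' he
    have hv : nrm (U v * a C) % 2 = 1 := by rw [nrm_mul, nrm_U, one_mul]; exact ha C
    have hv' : nrm (U v' * a C') % 2 = 1 := by rw [nrm_mul, nrm_U, one_mul]; exact ha C'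
    have t1 : (U v * a C) * μ0 = fl v (s C) * (U v * a C) := by
      rw [mul_assoc, hs2, ← mul_assoc, U_mul, mul_assoc]
    have t2 : (U v' * a C') * μ0 = fl v' (s C') * (U v' * a C') := by
      rw [mul_assoc, hs2, ← mul_assoc, U_mul, mul_assoc]
    rw [← he] at t2
    have e4 : C = C' := by
      rw [← hs3 C, ← hs3 C', mkI_eq_iff]
      obtain ⟨x, y, hx, hy, hxy⟩ := Iq_indep hs h0 _ _ (by omega) (by omega) t1 t2
      rw [cls_U, cls_U] at hxy
      exact ⟨x, y, hx, hy, hxy⟩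
    refine ⟨e4, ?_⟩
    rw [← e4] at he
    exact hfree _ (hs1 C) v v' he
  · intro μ hμ
    obtain ⟨b, hb, htb⟩ := htw μ0 μ h0' hμ
    have hIb := inv_Iq hs h0 b μ hb htb
    obtain ⟨x, y, hx, hy, hxy⟩ := (mkI_eq_iff (Iq h0 b) (Iq h0 (a (mkI (Iq h0 b) hIb))) hIb
      (hI _)).1 (hs3 (mkI (Iq h0 b) hIb)).symm
    obtain ⟨u, hu, hu'⟩ := unit_of_class hs h0 b _ hb (ha _) htb (hs2 _) x y hx hy hxy
    obtain ⟨v, hv⟩ := unit_fl _ _ u hu hu'
    exact ⟨_, v, hv.symm⟩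

end Pool.Agent.TM32
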