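import Mathlib
import Pool.Agent.Lib_helper72.TM32.E3b
import Pool.Agent.Lib_helper47.G3.ThreeSq
set_option autoImplicit false
namespace Pool.Agent.TM32

/-- parity homomorphism for odd `n` -/
theorem parO_aux (n : ℕ) (h2 : n % 2 = 1) : (1 : ZMod 2) * 1 = ((-(n : ℤ) : ℤ) : ZMod 2) := by
  have h1 : ((-(n : ℤ) : ℤ) : ZMod 2) = ((1 : ℤ) : ZMod 2) := by
    rw [ZMod.intCast_eq_intCast_iff_dvd_sub]
    push_cast
    omega
  rw [h1]; simp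

def parO (n : ℕ) (h2 : n % 2 = 1) : Od n →+* ZMod 2 :=
  Zsqrtd.lift ⟨1, parO_aux n h2⟩

theorem parO_apply (n : ℕ) (h2 : n % 2 = 1) (z : Od n) :
    parO n h2 z = ((z.re + z.im : ℤ) : ZMod 2) := by
  unfold parO
  rw [Zsqrtd.lift_apply_apply]
  push_cast
  ring

theorem odd_norm_iffO (n : ℕ) (h2 : n % 2 = 1) (z : Od n) :
    z.norm % 2 = 1 ↔ z ∉ RingHom.ker (parO n h2) := by
  rw [RingHom.mem_ker, parO_apply, ZMod.intCast_zmod_eq_zero_iff_dvd, od_norm]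
  generalize z.re = r
  generalize z.im = i
  obtain ⟨k, hk⟩ : ∃ k : ℤ, (n : ℤ) = 2 * k + 1 := ⟨(n / 2 : ℕ), by omega⟩
  obtain ⟨a, ha⟩ := Int.even_mul_succ_self r
  obtain ⟨b, hb⟩ := Int.even_mul_succ_self i
  have : r ^ 2 + (n : ℤ) * i ^ 2 = 2 * (a + b + k * i ^ 2) - (r + i) := by
    rw [hk]; linear_combination ha + hb
  rw [this]
  push_cast
  generalize k * i ^ 2 = q
  omega

theorem odd_all {n : ℕ} (h8 : n % 8 = 3) {μ : Hq} (h : IsOm n μ) :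
    μ.imJ % 2 = 1 ∧ μ.imK % 2 = 1 := by
  obtain ⟨k, hk⟩ : ∃ k : ℤ, (n : ℤ) = 8 * k + 3 := ⟨(n / 8 : ℕ), by omega⟩
  obtain ⟨e, he⟩ : ∃ e, μ.imI = 2 * e + 1 := ⟨μ.imI / 2, by have := h.odd; omega⟩
  obtain ⟨f, hf⟩ := Int.even_mul_succ_self e
  have hs := h.sum
  rw [hk] at hs
  have h1 : μ.imJ ^ 2 + μ.imK ^ 2 = 8 * (k - f) + 2 := by
    rw [he] at hs
    linear_combination hs - 4 * hf
  rcases Int.even_or_odd' μ.imJ with ⟨c, hc | hc⟩ <;>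
    rcases Int.even_or_odd' μ.imK with ⟨d, hd | hd⟩
  · exfalso
    rw [hc, hd] at h1
    have : 4 * (c ^ 2 + d ^ 2) = 8 * (k - f) + 2 := by linarith
    omega
  · exfalso
    rw [hc, hd] at h1
    have : 4 * (c ^ 2 + d ^ 2 + d) + 1 = 8 * (k - f) + 2 := by linarith
    omega
  · exfalso
    rw [hc, hd] at h1
    have : 4 * (c ^ 2 + d ^ 2 + c) + 1 = 8 * (k - f) + 2 := by linarith
    omega
  · omega

theorem prod_add (p q r : ℤ) (hp : p % 2 = 1) (hq : q % 2 = 1) (hr : r % 2 = 1)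
    (h : (p * q * r) % 4 = 1) : (p + q + r) % 4 = 3 := by
  obtain ⟨a, ha⟩ : ∃ a, p = 2 * a + 1 := ⟨p / 2, by omega⟩
  obtain ⟨b, hb⟩ : ∃ a, q = 2 * a + 1 := ⟨q / 2, by omega⟩
  obtain ⟨c, hc⟩ : ∃ a, r = 2 * a + 1 := ⟨r / 2, by omega⟩
  rw [ha, hb, hc] at h ⊢
  have : (2 * a + 1) * (2 * b + 1) * (2 * c + 1) =
    4 * (2 * a * b * c + a * b + b * c + a * c) + 2 * (a + b + c) + 1 := by ring
  rw [this] at h
  generalize 2 * a * b * c + a * b + b * c + a * c = q at h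
  omega

theorem odd_mul' (p q : ℤ) (hp : p % 2 = 1) (hq : q % 2 = 1) : (p * q) % 2 = 1 := by
  rw [Int.mul_emod, hp, hq]; rfl

/-- the sign class -/
def Om3 (n : ℕ) (μ : Hq) : Prop := IsOm n μ ∧ (μ.imI * μ.imJ * μ.imK) % 4 = 1

theorem exists_tw3 {n : ℕ} (h8 : n % 8 = 3) {μ0 μ1 : Hq} (h0 : Om3 n μ0) (h1 : Om3 n μ1) :
    ∃ a : Hq, nrm a % 2 = 1 ∧ a * μ0 = μ1 * a := by
  obtain ⟨j0, k0⟩ := odd_all h8 h0.1
  obtain ⟨j1, k1⟩ := odd_all h8 h1.1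
  have i0 := h0.1.odd
  have i1 := h1.1.odd
  obtain ⟨x, hx⟩ : ∃ x, μ0.imI + μ1.imI = 2 * x := ⟨(μ0.imI + μ1.imI) / 2, by omega⟩
  obtain ⟨y, hy⟩ : ∃ x, μ0.imJ + μ1.imJ = 2 * x := ⟨(μ0.imJ + μ1.imJ) / 2, by omega⟩
  obtain ⟨z, hz⟩ : ∃ x, μ0.imK + μ1.imK = 2 * x := ⟨(μ0.imK + μ1.imK) / 2, by omega⟩
  let a : Hq := mkq 0 x y z
  have h2 : ((2 : ℤ) : Hq) * a = μ0 + μ1 := by
    apply Quaternion.ext
    · rw [int_mul_re, mkq_re, Quaternion.re_add, h0.1.re0, h1.1.re0]; ring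
    · rw [int_mul_imI, mkq_imI, Quaternion.imI_add, hx]
    · rw [int_mul_imJ, mkq_imJ, Quaternion.imJ_add, hy]
    · rw [int_mul_imK, mkq_imK, Quaternion.imK_add, hz]
  have hS : (μ0.imI * μ1.imI + μ0.imJ * μ1.imJ + μ0.imK * μ1.imK) % 4 = 3 := by
    apply prod_add _ _ _ (odd_mul' _ _ i0 i1) (odd_mul' _ _ j0 j1) (odd_mul' _ _ k0 k1)
    have e : μ0.imI * μ1.imI * (μ0.imJ * μ1.imJ) * (μ0.imK * μ1.imK) =
      (μ0.imI * μ0.imJ * μ0.imK) * (μ1.imI * μ1.imJ * μ1.imK) := by ring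
    rw [e, Int.mul_emod, h0.2, h1.2]; rfl
  refine ⟨a, ?_, ?_⟩
  · have h3 : nrm a = x ^ 2 + y ^ 2 + z ^ 2 := by
      unfold nrm; rw [mkq_re, mkq_imI, mkq_imJ, mkq_imK]; ring
    have s0 := h0.1.sum
    have s1 := h1.1.sum
    have h4 : 4 * nrm a = 2 * n + 2 * (μ0.imI * μ1.imI + μ0.imJ * μ1.imJ + μ0.imK * μ1.imK) := by
      rw [h3]
      have e1 : 4 * (x ^ 2 + y ^ 2 + z ^ 2) = (2 * x) ^ 2 + (2 * y) ^ 2 + (2 * z) ^ 2 := by ring
      rw [e1, ← hx, ← hy, ← hz]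
      linear_combination s0 + s1
    generalize μ0.imI * μ1.imI + μ0.imJ * μ1.imJ + μ0.imK * μ1.imK = S at h4 hS
    omega
  · apply int_cancel 2 (by norm_num)
    rw [← mul_assoc, h2, ← mul_assoc, int_comm, mul_assoc, h2, mul_add, add_mul, h0.1.sq, h1.1.sq]
    abel

theorem sq4 (a : ℤ) : ∃ k t : ℤ, a ^ 2 = 4 * k + t ∧ (t = 0 ∨ t = 1) := by
  rcases Int.even_or_odd' a with ⟨c, rfl | rfl⟩
  · exact ⟨c ^ 2, 0, by ring, Or.inl rfl⟩
  · exact ⟨c ^ 2 + c, 1, by ring, Or.inr rfl⟩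

theorem cls_prod (x y z x' y' z' : ℤ)
    (h : ((x' - x) % 4 = 0 ∧ (y' - y) % 4 = 0 ∧ (z' - z) % 4 = 0) ∨
      ((x' - x) % 4 = 0 ∧ (y' + y) % 4 = 0 ∧ (z' + z) % 4 = 0) ∨
      ((x' + x) % 4 = 0 ∧ (y' - y) % 4 = 0 ∧ (z' + z) % 4 = 0) ∨
      ((x' + x) % 4 = 0 ∧ (y' + y) % 4 = 0 ∧ (z' - z) % 4 = 0)) :
    (x' * y' * z') % 4 = (x * y * z) % 4 := by
  have key : ∀ e1 e2 e3 k1 k2 k3 : ℤ, x' = e1 * x + 4 * k1 → y' = e2 * y + 4 * k2 →
      z' = e3 * z + 4 * k3 → e1 * e2 * e3 = 1 → (x' * y' * z') % 4 = (x * y * z) % 4 := by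
    intro e1 e2 e3 k1 k2 k3 h1 h2 h3 he
    have : x' * y' * z' = x * y * z + 4 * (k1 * y' * z' + e1 * x * k2 * z' + e1 * x * e2 * y * k3) := by
      rw [h1, h2, h3]
      linear_combination (x * y * z) * he
    rw [this, Int.add_mul_emod_self_left]
  rcases h with ⟨h1, h2, h3⟩ | ⟨h1, h2, h3⟩ | ⟨h1, h2, h3⟩ | ⟨h1, h2, h3⟩
  · exact key 1 1 1 ((x' - x) / 4) ((y' - y) / 4) ((z' - z) / 4) (by omega) (by omega) (by omega)
      (by norm_num)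
  · exact key 1 (-1) (-1) ((x' - x) / 4) ((y' + y) / 4) ((z' + z) / 4) (by omega) (by omega)
      (by omega) (by norm_num)
  · exact key (-1) 1 (-1) ((x' + x) / 4) ((y' - y) / 4) ((z' + z) / 4) (by omega) (by omega)
      (by omega) (by norm_num)
  · exact key (-1) (-1) 1 ((x' + x) / 4) ((y' + y) / 4) ((z' - z) / 4) (by omega) (by omega)
      (by omega) (by norm_num)

theorem stab_int (a0 a1 a2 a3 x y z x' y' z' : ℤ)
    (hN : (a0 ^ 2 + a1 ^ 2 + a2 ^ 2 + a3 ^ 2) % 2 = 1)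
    (hx : x % 2 = 1) (hy : y % 2 = 1) (hz : z % 2 = 1)
    (h1 : (a0 ^ 2 + a1 ^ 2 + a2 ^ 2 + a3 ^ 2) * x' = (a0 ^ 2 + a1 ^ 2 - a2 ^ 2 - a3 ^ 2) * x
      + 2 * ((a1 * a2 - a0 * a3) * y + (a1 * a3 + a0 * a2) * z))
    (h2 : (a0 ^ 2 + a1 ^ 2 + a2 ^ 2 + a3 ^ 2) * y' = (a0 ^ 2 - a1 ^ 2 + a2 ^ 2 - a3 ^ 2) * y
      + 2 * ((a1 * a2 + a0 * a3) * x + (a2 * a3 - a0 * a1) * z))
    (h3 : (a0 ^ 2 + a1 ^ 2 + a2 ^ 2 + a3 ^ 2) * z' = (a0 ^ 2 - a1 ^ 2 - a2 ^ 2 + a3 ^ 2) * z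
      + 2 * ((a1 * a3 - a0 * a2) * x + (a2 * a3 + a0 * a1) * y)) :
    (x' * y' * z') % 4 = (x * y * z) % 4 := by
  have oN : ¬ Even (a0 ^ 2 + a1 ^ 2 + a2 ^ 2 + a3 ^ 2) := by
    rw [Int.not_even_iff]; exact hN
  have ox : ¬ Even x := by rw [Int.not_even_iff]; exact hx
  have oy : ¬ Even y := by rw [Int.not_even_iff]; exact hy
  have oz : ¬ Even z := by rw [Int.not_even_iff]; exact hz
  have w : Even ((a1 * a2 - a0 * a3) * y + (a1 * a3 + a0 * a2) * z) ∧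
      Even ((a1 * a2 + a0 * a3) * x + (a2 * a3 - a0 * a1) * z) ∧
      Even ((a1 * a3 - a0 * a2) * x + (a2 * a3 + a0 * a1) * y) := by
    simp only [Int.even_add, Int.even_sub, Int.even_mul, Int.even_pow, ne_eq, OfNat.ofNat_ne_zero,
      not_false_eq_true, and_true] at oN ⊢
    by_cases h0 : Even a0 <;> by_cases h1 : Even a1 <;> by_cases h2 : Even a2 <;>
      by_cases h3 : Even a3 <;> simp [h0, h1, h2, h3, ox, oy, oz] at oN ⊢
  obtain ⟨w1, w2, w3⟩ := w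
  obtain ⟨W1, hW1⟩ := w1
  obtain ⟨W2, hW2⟩ := w2
  obtain ⟨W3, hW3⟩ := w3
  rw [hW1] at h1
  rw [hW2] at h2
  rw [hW3] at h3
  obtain ⟨k0, t0, e0, c0⟩ := sq4 a0
  obtain ⟨k1, t1, e1, c1⟩ := sq4 a1
  obtain ⟨k2, t2, e2, c2⟩ := sq4 a2
  obtain ⟨k3, t3, e3, c3⟩ := sq4 a3
  rw [e0, e1, e2, e3] at hN h1 h2 h3
  have h1' : 4 * ((k0 + k1 + k2 + k3) * x') + (t0 + t1 + t2 + t3) * x' =
      4 * ((k0 + k1 - k2 - k3) * x + W1) + (t0 + t1 - t2 - t3) * x := by linear_combination h1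
  have h2' : 4 * ((k0 + k1 + k2 + k3) * y') + (t0 + t1 + t2 + t3) * y' =
      4 * ((k0 - k1 + k2 - k3) * y + W2) + (t0 - t1 + t2 - t3) * y := by linear_combination h2
  have h3' : 4 * ((k0 + k1 + k2 + k3) * z') + (t0 + t1 + t2 + t3) * z' =
      4 * ((k0 - k1 - k2 + k3) * z + W3) + (t0 - t1 - t2 + t3) * z := by linear_combination h3
  generalize (k0 + k1 + k2 + k3) * x' = A1 at h1'
  generalize (k0 + k1 + k2 + k3) * y' = A2 at h2'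
  generalize (k0 + k1 + k2 + k3) * z' = A3 at h3'
  generalize (k0 + k1 - k2 - k3) * x + W1 = B1 at h1'
  generalize (k0 - k1 + k2 - k3) * y + W2 = B2 at h2'
  generalize (k0 - k1 - k2 + k3) * z + W3 = B3 at h3'
  clear h1 h2 h3 hW1 hW2 hW3 oN ox oy oz
  apply cls_prod
  rcases c0 with rfl | rfl <;> rcases c1 with rfl | rfl <;> rcases c2 with rfl | rfl <;>
    rcases c3 with rfl | rfl <;> omega

theorem stab3 {n : ℕ} (h8 : n % 8 = 3) (μ a μ' : Hq) (h : Om3 n μ) (h' : IsOm n μ')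
    (ha : nrm a % 2 = 1) (ht : a * μ = μ' * a) : Om3 n μ' := by
  refine ⟨h', ?_⟩
  obtain ⟨j0, k0⟩ := odd_all h8 h.1
  have i0 := h.1.odd
  have e : ((nrm a : ℤ) : Hq) * μ' = a * μ * star a := by
    rw [ht, mul_assoc, self_mul_star', int_comm]
  have r0 := h.1.re0
  refine (stab_int a.re a.imI a.imJ a.imK _ _ _ _ _ _ ha i0 j0 k0 ?_ ?_ ?_).trans h.2
  · have e1 := congrArg (fun q : Hq => q.imI) e
    simp only [int_mul_imI] at e1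
    unfold nrm at e1
    rw [e1]
    simp only [Quaternion.re_mul, Quaternion.imI_mul, Quaternion.imJ_mul, Quaternion.imK_mul,
      Quaternion.re_star, Quaternion.imI_star, Quaternion.imJ_star, Quaternion.imK_star, r0]
    ring
  · have e1 := congrArg (fun q : Hq => q.imJ) e
    simp only [int_mul_imJ] at e1
    unfold nrm at e1
    rw [e1]
    simp only [Quaternion.re_mul, Quaternion.imI_mul, Quaternion.imJ_mul, Quaternion.imK_mul,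
      Quaternion.re_star, Quaternion.imI_star, Quaternion.imJ_star, Quaternion.imK_star, r0]
    ring
  · have e1 := congrArg (fun q : Hq => q.imK) e
    simp only [int_mul_imK] at e1
    unfold nrm at e1
    rw [e1]
    simp only [Quaternion.re_mul, Quaternion.imI_mul, Quaternion.imJ_mul, Quaternion.imK_mul,
      Quaternion.re_star, Quaternion.imI_star, Quaternion.imJ_star, Quaternion.imK_star, r0]
    ring

theorem free3 {n : ℕ} (h8 : n % 8 = 3) (μ : Hq) (h : Om3 n μ) (v w : Fin 4)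
    (he : fl v μ = fl w μ) : v = w := by
  have e1 := congrArg (fun q : Hq => q.imI) he
  have e2 := congrArg (fun q : Hq => q.imJ) he
  have e3 := congrArg (fun q : Hq => q.imK) he
  simp only [fl_imI, fl_imJ, fl_imK] at e1 e2 e3
  have h2 := (odd_all h8 h.1).1
  have h3 := h.1.odd
  fin_cases v <;> fin_cases w <;> simp [s1, s2, s3] at e1 e2 e3 ⊢ <;> omega

end Pool.Agent.TM32
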