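import Mathlib
import Pool.Agent.Lib_helper72.TM32.E3c
import Pool.Agent.Lib_helper72.TM32.Omega
set_option autoImplicit false
namespace Pool.Agent.TM32

theorem finite_three (n : ℕ) :
    Set.Finite {v : ℤ × ℤ × ℤ | v.1 ^ 2 + v.2.1 ^ 2 + v.2.2 ^ 2 = n} := by
  have h : Finite {v : ℤ × ℤ × ℤ // v.1 ^ 2 + v.2.1 ^ 2 + v.2.2 ^ 2 = n} := finite_triples n
  exact Set.finite_coe_iff.1 h

theorem om_odd3 {n : ℕ} (h8 : n % 8 = 3) (x y z : ℤ) (h : x ^ 2 + y ^ 2 + z ^ 2 = n) :
    x % 2 = 1 := by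
  obtain ⟨k, hk⟩ : ∃ k : ℤ, (n : ℤ) = 8 * k + 3 := ⟨(n / 8 : ℕ), by omega⟩
  rw [hk] at h
  rcases Int.even_or_odd' x with ⟨c, hc | hc⟩
  · exfalso
    rcases Int.even_or_odd' y with ⟨d, hd | hd⟩ <;> rcases Int.even_or_odd' z with ⟨e, he | he⟩
    · rw [hc, hd, he] at h
      have : 4 * (c ^ 2 + d ^ 2 + e ^ 2) = 8 * k + 3 := by linarith
      omega
    · rw [hc, hd, he] at h
      have : 4 * (c ^ 2 + d ^ 2 + e ^ 2 + e) + 1 = 8 * k + 3 := by linarith
      omega
    · rw [hc, hd, he] at h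
      have : 4 * (c ^ 2 + d ^ 2 + e ^ 2 + d) + 1 = 8 * k + 3 := by linarith
      omega
    · rw [hc, hd, he] at h
      have : 4 * (c ^ 2 + d ^ 2 + e ^ 2 + d + e) + 2 = 8 * k + 3 := by linarith
      omega
  · omega

/-- the sign -/
def sg (b : Bool) : ℤ := if b then -1 else 1

/-- **Gauss**: for squarefree `n = 3 mod 8`, the number of representations of `n` as a sum of three
squares is eight times the class number of the order `ℤ[√-n]` -/
theorem r3_three (n : ℕ) [NeZero n] (hs : Squarefree n) (h8 : n % 8 = 3) :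
    Finite (ClassGroup (Zsqrtd (-(n : ℤ)))) ∧
    {v : ℤ × ℤ × ℤ | v.1 ^ 2 + v.2.1 ^ 2 + v.2.2 ^ 2 = n}.ncard =
      8 * Nat.card (ClassGroup (Zsqrtd (-(n : ℤ)))) := by
  have cls : ∀ x y z : ℤ, x ^ 2 + y ^ 2 + z ^ 2 = n →
      Om3 n (mkq 0 x y z) ∨ Om3 n (mkq 0 (-x) (-y) (-z)) := by
    intro x y z h
    have ox := om_odd3 h8 x y z h
    have hI : IsOm n (mkq 0 x y z) := ⟨rfl, h, ox⟩
    have hI' : IsOm n (mkq 0 (-x) (-y) (-z)) :=
      ⟨rfl, by show (-x) ^ 2 + (-y) ^ 2 + (-z) ^ 2 = (n : ℤ); rw [← h]; ring,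
        by show (-x) % 2 = 1; omega⟩
    obtain ⟨oy, oz⟩ := odd_all h8 hI
    have oy : y % 2 = 1 := oy
    have oz : z % 2 = 1 := oz
    have h3 := odd_mul' _ _ (odd_mul' _ _ ox oy) oz
    have h4 : (x * y * z) % 4 = 1 ∨ (-x * -y * -z) % 4 = 1 := by
      have e : -x * -y * -z = -(x * y * z) := by ring
      rw [e]
      generalize x * y * z = q at h3 ⊢
      omega
    rcases h4 with h4 | h4
    · exact Or.inl ⟨hI, h4⟩
    · exact Or.inr ⟨hI', h4⟩
  obtain ⟨x, y, z, hxyz⟩ := Lib_helper47.G3.three_squares (n := n) (by omega)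
  obtain ⟨μ0, h0⟩ : ∃ μ0, Om3 n μ0 := by
    rcases cls x y z hxyz with h | h
    · exact ⟨_, h⟩
    · exact ⟨_, h⟩
  obtain ⟨s, hs0, hs1, hs3⟩ := gen_bij hs (parO n (by omega)) (odd_norm_iffO n (by omega)) (Om3 n)
    (fun μ h => h.1) (fun μ μ' h h' => exists_tw3 h8 h h') (stab3 h8) (free3 h8) h0
  have hfl : ∀ v C, Om3 n (fl v (s C)) := by
    intro v C
    refine ⟨fl_om v (hs0 C).1, ?_⟩
    rw [fl_imI, fl_imJ, fl_imK]
    have := (hs0 C).2
    have e : s1 v * (s C).imI * (s2 v * (s C).imJ) * (s3 v * (s C).imK) =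
      (s1 v * s2 v * s3 v) * ((s C).imI * (s C).imJ * (s C).imK) := by ring
    have e2 : s1 v * s2 v * s3 v = 1 := by fin_cases v <;> rfl
    rw [e, e2, one_mul]
    exact this
  let g : (ClassGroup (Od n) × Fin 4) × Bool → ℤ × ℤ × ℤ := fun p =>
    (sg p.2 * (fl p.1.2 (s p.1.1)).imI, sg p.2 * (fl p.1.2 (s p.1.1)).imJ,
      sg p.2 * (fl p.1.2 (s p.1.1)).imK)
  have sgsq : ∀ b, sg b * sg b = 1 := by intro b; cases b <;> rfl
  have hinj : Function.Injective g := by
    rintro ⟨⟨C, v⟩, b⟩ ⟨⟨C', v'⟩, b'⟩ he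
    have o := hfl v C
    have o' := hfl v' C'
    simp only [g, Prod.mk.injEq] at he
    obtain ⟨e1, e2, e3⟩ := he
    have hb : b = b' := by
      have p1 := o.2
      have p2 := o'.2
      have e : sg b * ((fl v (s C)).imI * (fl v (s C)).imJ * (fl v (s C)).imK) =
          sg b' * ((fl v' (s C')).imI * (fl v' (s C')).imJ * (fl v' (s C')).imK) := by
        have q1 : sg b * sg b * sg b = sg b := by rw [sgsq, one_mul]
        have q2 : sg b' * sg b' * sg b' = sg b' := by rw [sgsq, one_mul]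
        calc sg b * ((fl v (s C)).imI * (fl v (s C)).imJ * (fl v (s C)).imK)
            = (sg b * (fl v (s C)).imI) * (sg b * (fl v (s C)).imJ) * (sg b * (fl v (s C)).imK) := by
              conv_lhs => rw [← q1]
              ring
          _ = (sg b' * (fl v' (s C')).imI) * (sg b' * (fl v' (s C')).imJ) *
              (sg b' * (fl v' (s C')).imK) := by rw [e1, e2, e3]
          _ = _ := by
              conv_rhs => rw [← q2]
              ring
      generalize (fl v (s C)).imI * (fl v (s C)).imJ * (fl v (s C)).imK = P at p1 e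
      generalize (fl v' (s C')).imI * (fl v' (s C')).imJ * (fl v' (s C')).imK = P' at p2 e
      cases b <;> cases b' <;> simp only [sg] at e <;> first | rfl | (exfalso; simp at e; omega)
    subst hb
    have hc : ∀ x y : ℤ, sg b * x = sg b * y → x = y := by
      intro x y h
      cases b <;> simp only [sg] at h <;> simp at h <;> exact h
    obtain ⟨rfl, rfl⟩ := hs1 C C' v v' (by
      apply Quaternion.ext
      · rw [o.1.re0, o'.1.re0]
      · exact hc _ _ e1
      · exact hc _ _ e2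
      · exact hc _ _ e3)
    rfl
  have hr : {v : ℤ × ℤ × ℤ | v.1 ^ 2 + v.2.1 ^ 2 + v.2.2 ^ 2 = n} = Set.range g := by
    ext ⟨a, b, c⟩
    constructor
    · intro h
      have h : a ^ 2 + b ^ 2 + c ^ 2 = (n : ℤ) := h
      rcases cls a b c h with h' | h'
      · obtain ⟨C, v, hCv⟩ := hs3 _ h'
        refine ⟨((C, v), false), ?_⟩
        simp only [g, hCv, mkq_imI, mkq_imJ, mkq_imK, sg]
        simp
      · obtain ⟨C, v, hCv⟩ := hs3 _ h'
        refine ⟨((C, v), true), ?_⟩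
        simp only [g, hCv, mkq_imI, mkq_imJ, mkq_imK, sg]
        simp
    · rintro ⟨⟨⟨C, v⟩, b'⟩, he⟩
      have o := hfl v C
      simp only [g, Prod.mk.injEq] at he
      obtain ⟨e1, e2, e3⟩ := he
      show a ^ 2 + b ^ 2 + c ^ 2 = (n : ℤ)
      rw [← e1, ← e2, ← e3, ← o.1.sum]
      linear_combination ((fl v (s C)).imI ^ 2 + (fl v (s C)).imJ ^ 2 + (fl v (s C)).imK ^ 2) * sgsq b'
  have hfin : Set.Finite (Set.range g) := by
    rw [← hr]; exact finite_three n
  refine ⟨?_, ?_⟩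
  · have hf : Finite (Set.range g) := hfin.to_subtype
    have : Finite ((ClassGroup (Od n) × Fin 4) × Bool) :=
      Finite.of_injective (fun p => (⟨g p, p, rfl⟩ : Set.range g)) (fun p q h =>
        hinj (congrArg Subtype.val h))
    exact Finite.of_injective (fun C => (((C, 0), false) : (ClassGroup (Od n) × Fin 4) × Bool))
      (fun C C' h => (Prod.mk.inj (Prod.mk.inj h).1).1)
  · rw [hr]
    have e1 : (Set.range g).ncard = Nat.card ((ClassGroup (Od n) × Fin 4) × Bool) := by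
      rw [← Nat.card_coe_set_eq, Nat.card_range_of_injective hinj]
    rw [e1, Nat.card_prod, Nat.card_prod, Nat.card_eq_fintype_card (α := Fin 4), Fintype.card_fin,
      Nat.card_eq_fintype_card (α := Bool), Fintype.card_bool]
    show Nat.card (ClassGroup (Od n)) * 4 * 2 = 8 * Nat.card (ClassGroup (Od n))
    ring

end Pool.Agent.TM32
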