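import Mathlib
import Pool.Agent.Lib_helper72.TM32.Count
set_option autoImplicit false
namespace Pool.Agent.TM32

/-! ### the order `ℤ[√-2n]` -/

instance nz2 (n : ℕ) [h : NeZero n] : NeZero (2 * n) := ⟨by have := h.out; omega⟩

theorem cast2 (n : ℕ) : (-(2 * n : ℤ)) = -((2 * n : ℕ) : ℤ) := by push_cast; ring

instance dom2 (n : ℕ) [NeZero n] : IsDomain (Zsqrtd (-(2 * n : ℤ))) := by
  rw [cast2]; exact dom (2 * n)

theorem card_cast2 (n : ℕ) [NeZero n] : Nat.card (ClassGroup (Zsqrtd (-(2 * n : ℤ)))) =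
    Nat.card (ClassGroup (Od (2 * n))) := by
  have key : ∀ (d : ℤ) (i : IsDomain (Zsqrtd d)), d = -((2 * n : ℕ) : ℤ) →
      Nat.card (@ClassGroup (Zsqrtd d) _ i) = Nat.card (ClassGroup (Od (2 * n))) := by
    intro d i hd
    subst hd
    rfl
  exact key _ _ (cast2 n)

theorem both_dvd2 (n : ℕ) (hs : Squarefree (2 * n)) (h2 : n % 2 = 1) (m a b : ℤ) (hm : m ≠ 0)
    (h1 : m ∣ 2 * a) (h3 : m ^ 2 ∣ a ^ 2 + (2 * n : ℕ) * b ^ 2) : m ∣ a ∧ m ∣ b := by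
  obtain ⟨t, ht⟩ := h1
  obtain ⟨N, hN⟩ := h3
  have h3 : m ∣ 2 * b := by
    apply sq_dvd_of_squarefree (2 * n) hs
    refine ⟨4 * N - t ^ 2, ?_⟩
    have : 4 * (a ^ 2 + (2 * n : ℕ) * b ^ 2) = 4 * (m ^ 2 * N) := by rw [hN]
    have h5 : (2 * a) ^ 2 = (m * t) ^ 2 := by rw [ht]
    linarith [this, h5]
  obtain ⟨s, hss⟩ := h3
  have h6 : m ^ 2 * (t ^ 2 + (2 * n : ℕ) * s ^ 2) = m ^ 2 * (4 * N) := by
    have h5 : (2 * a) ^ 2 = (m * t) ^ 2 := by rw [ht]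
    have h7 : (2 * b) ^ 2 = (m * s) ^ 2 := by rw [hss]
    have h8 : 4 * (a ^ 2 + (2 * n : ℕ) * b ^ 2) = 4 * (m ^ 2 * N) := by rw [hN]
    have h9 : m ^ 2 * (t ^ 2 + (2 * n : ℕ) * s ^ 2) = (m * t) ^ 2 + (2 * n : ℕ) * (m * s) ^ 2 := by
      ring
    rw [h9, ← h5, ← h7]
    linarith [h8]
  have h7 : t ^ 2 + (2 * n : ℕ) * s ^ 2 = 4 * N := mul_left_cancel₀ (pow_ne_zero 2 hm) h6
  obtain ⟨k, hk⟩ : ∃ k : ℤ, (n : ℤ) = 2 * k + 1 := ⟨(n / 2 : ℕ), by omega⟩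
  have h8 : t ^ 2 + 2 * (2 * k + 1) * s ^ 2 = 4 * N := by
    rw [← hk]; push_cast at h7; exact h7
  have ht2 : t % 2 = 0 := by
    by_contra hne
    obtain ⟨t', ht'⟩ : ∃ t', t = 2 * t' + 1 := ⟨t / 2, by omega⟩
    rw [ht'] at h8
    have : (2 : ℤ) * (2 * t' ^ 2 + 2 * t' + (2 * k + 1) * s ^ 2) + 1 = 4 * N := by linarith [h8]
    omega
  obtain ⟨t', ht'⟩ : ∃ t', t = 2 * t' := ⟨t / 2, by omega⟩
  have hs2 : s % 2 = 0 := by
    by_contra hne
    obtain ⟨s', hs'⟩ : ∃ t', s = 2 * t' + 1 := ⟨s / 2, by omega⟩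
    rw [ht', hs'] at h8
    have : (4 : ℤ) * (t' ^ 2 + k * (2 * s' + 1) ^ 2 + 2 * s' ^ 2 + 2 * s') + 2 = 4 * N := by
      linarith [h8]
    omega
  obtain ⟨s', hs'⟩ : ∃ s', s = 2 * s' := ⟨s / 2, by omega⟩
  constructor
  · refine ⟨t', ?_⟩
    rw [ht'] at ht; linarith [ht]
  · refine ⟨s', ?_⟩
    rw [hs'] at hss; linarith [hss]

/-- general form of `intClosed_aux` -/
theorem intClosed_auxG (n : ℕ) [NeZero n]
    (hb : ∀ m a b : ℤ, m ≠ 0 → m ∣ 2 * a → m ^ 2 ∣ a ^ 2 + n * b ^ 2 → m ∣ a ∧ m ∣ b)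
    (K : Type) [Field K] [Algebra (Od n) K] [IsFractionRing (Od n) K] (x : K)
    (hx : IsIntegral (Od n) x) : ∃ y, algebraMap (Od n) K y = x := by
  have hn0 : 0 < n := Nat.pos_of_ne_zero (NeZero.ne n)
  have hxZ : IsIntegral ℤ x := isIntegral_trans (A := Od n) x hx
  have : CharZero (K) :=
    charZero_of_injective_algebraMap (IsFractionRing.injective (Od n) (K))
  obtain ⟨z, w, hw, rfl⟩ := IsFractionRing.div_surjective (A := Od n) x
  have hw0 : w ≠ 0 := nonZeroDivisors.ne_zero hw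
  set ι := algebraMap (Od n) (K) with hι
  have hιinj : Function.Injective ι := IsFractionRing.injective (Od n) (K)
  set m : ℤ := w.norm with hmdef
  have hm : 0 < m := od_norm_pos n hn0 w hw0
  set z' := z * star w with hz'
  have hwK : ι w ≠ 0 := by
    rw [Ne, map_eq_zero_iff ι hιinj]; exact hw0
  have hsw : star w ≠ 0 := by
    intro h
    apply hw0
    have := congrArg star h
    simpa using this
  have hswK : ι (star w) ≠ 0 := by
    rw [Ne, map_eq_zero_iff ι hιinj]; exact hsw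
  have hmι : ι w * ι (star w) = (m : K) := by
    rw [← map_mul, ← Zsqrtd.norm_eq_mul_conj, map_intCast]
  have hmK : (m : K) ≠ 0 := by exact_mod_cast hm.ne'
  have hx1 : ι z / ι w = ι z' / (m : K) := by
    rw [← hmι, hz', map_mul]
    field_simp
  rw [hx1] at hxZ
  let σ0 : Od n ≃+* Od n := starRingAut
  let σ : K ≃+* K := IsFractionRing.ringEquivOfRingEquiv σ0
  have hσ : ∀ a : Od n, σ (ι a) = ι (star a) := by
    intro a
    exact IsFractionRing.ringEquivOfRingEquiv_algebraMap σ0 a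
  have hσx : σ (ι z' / (m : K)) = ι (star z') / (m : K) := by
    rw [map_div₀, hσ, map_intCast]
  have hxZ' : IsIntegral ℤ (ι (star z') / (m : K)) := by
    rw [← hσx]
    exact hxZ.map (σ.toRingHom.toIntAlgHom)
  have htr : IsIntegral ℤ (((2 * z'.re : ℤ) : K) / (m : K)) := by
    have h1 := hxZ.add hxZ'
    have h2 : ι z' / (m : K) + ι (star z') / (m : K)
        = ((2 * z'.re : ℤ) : K) / (m : K) := by
      rw [← add_div, ← map_add, ← map_intCast ι (2 * z'.re)]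
      congr 2
      ext <;> simp <;> ring
    rw [h2] at h1
    exact h1
  have hnm : IsIntegral ℤ (((z'.norm : ℤ) : K) /
      ((m ^ 2 : ℤ) : K)) := by
    have h1 := hxZ.mul hxZ'
    have h2 : ι z' / (m : K) * (ι (star z') / (m : K))
        = ((z'.norm : ℤ) : K) / ((m ^ 2 : ℤ) : K) := by
      rw [div_mul_div_comm, ← map_mul, ← Zsqrtd.norm_eq_mul_conj, map_intCast]
      push_cast
      rw [pow_two]
    rw [h2] at h1
    exact h1
  have hd1 := int_of_integral _ _ hm.ne' htr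
  have hd2 := int_of_integral _ _ (pow_ne_zero 2 hm.ne') hnm
  rw [od_norm] at hd2
  obtain ⟨⟨a, ha⟩, ⟨b, hb⟩⟩ := hb m z'.re z'.im hm.ne' hd1 hd2
  refine ⟨⟨a, b⟩, ?_⟩
  rw [hx1, eq_div_iff hmK, ← map_intCast ι m, ← map_mul]
  congr 1
  ext
  · simp [ha, mul_comm]
  · simp [hb, mul_comm]

theorem ded2 (n : ℕ) [NeZero n] (hs : Squarefree (2 * n)) (h2 : n % 2 = 1) :
    IsDedekindDomain (Od (2 * n)) := by
  have : IsIntegrallyClosed (Od (2 * n)) := by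
    rw [isIntegrallyClosed_iff (FractionRing (Od (2 * n)))]
    intro x hx
    exact intClosed_auxG (2 * n) (fun m a b => both_dvd2 n hs h2 m a b)
      (FractionRing (Od (2 * n))) x hx
  exact { }

/-! ### parity -/

theorem par2_aux (n : ℕ) : (0 : ZMod 2) * 0 = ((-((2 * n : ℕ) : ℤ) : ℤ) : ZMod 2) := by
  have h1 : ((-((2 * n : ℕ) : ℤ) : ℤ) : ZMod 2) = ((0 : ℤ) : ZMod 2) := by
    rw [ZMod.intCast_eq_intCast_iff_dvd_sub]
    push_cast
    omega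
  rw [h1]; simp

def par2 (n : ℕ) : Od (2 * n) →+* ZMod 2 :=
  Zsqrtd.lift ⟨0, par2_aux n⟩

theorem par2_apply (n : ℕ) (z : Od (2 * n)) : par2 n z = ((z.re : ℤ) : ZMod 2) := by
  unfold par2
  rw [Zsqrtd.lift_apply_apply]
  push_cast
  ring

theorem odd_norm_iff2 (n : ℕ) (z : Od (2 * n)) :
    z.norm % 2 = 1 ↔ z ∉ RingHom.ker (par2 n) := by
  rw [RingHom.mem_ker, par2_apply, ZMod.intCast_zmod_eq_zero_iff_dvd, od_norm]
  rcases Int.even_or_odd' z.re with ⟨c, hc | hc⟩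
  · have : z.re ^ 2 + ((2 * n : ℕ) : ℤ) * z.im ^ 2 = 2 * (2 * c ^ 2 + n * z.im ^ 2) := by
      rw [hc]; push_cast; ring
    rw [this, hc]
    push_cast
    omega
  · have : z.re ^ 2 + ((2 * n : ℕ) : ℤ) * z.im ^ 2 = 2 * (2 * c ^ 2 + 2 * c + n * z.im ^ 2) + 1 := by
      rw [hc]; push_cast; ring
    rw [this, hc]
    push_cast
    omega

/-- every class contains an ideal with an element of odd norm -/
theorem exists_oddG {n : ℕ} [NeZero n] [IsDedekindDomain (Od n)] (f : Od n →+* ZMod 2)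
    (hf : ∀ z : Od n, z.norm % 2 = 1 ↔ z ∉ RingHom.ker f)
    (C : ClassGroup (Od n)) :
    ∃ I : nonZeroDivisors (Ideal (Od n)), ClassGroup.mk0 I = C ∧
      ∃ x ∈ (I : Ideal (Od n)), x.norm % 2 = 1 := by
  obtain ⟨⟨J, hJ⟩, hJC⟩ := ClassGroup.mk0_surjective (C⁻¹)
  have hJ0 : J ≠ 0 := nonZeroDivisors.ne_zero hJ
  set P := RingHom.ker f with hP
  have hP1 : P ≠ 1 := by
    intro h1
    have : (1 : Od n) ∈ P := by rw [h1, Ideal.one_eq_top]; trivial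
    rw [hP, RingHom.mem_ker, map_one] at this
    exact absurd this (by decide)
  have hne : ¬ J ≤ J * P := by
    intro hle
    have h1 : J * P = J := le_antisymm Ideal.mul_le_left hle
    have h2 : J * P = J * 1 := by rw [h1, mul_one]
    exact hP1 (mul_left_cancel₀ hJ0 h2)
  obtain ⟨x, hxJ, hxP⟩ := SetLike.not_le_iff_exists.1 hne
  obtain ⟨Q, hQ⟩ : J ∣ Ideal.span {x} := by
    rw [Ideal.dvd_iff_le, Ideal.span_singleton_le_iff_mem]; exact hxJ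
  have hx0 : x ≠ 0 := by
    rintro rfl; exact hxP (Ideal.zero_mem _)
  have hQ0 : Q ≠ 0 := by
    rintro rfl
    rw [mul_zero] at hQ
    have : Ideal.span {x} = (⊥ : Ideal (Od n)) := hQ
    rw [Ideal.span_singleton_eq_bot] at this
    exact hx0 this
  have hQP : ¬ Q ≤ P := by
    intro hle
    apply hxP
    have h1 : x ∈ J * Q := by rw [← hQ]; exact Ideal.mem_span_singleton_self x
    exact Ideal.mul_mono_right hle h1
  obtain ⟨y, hyQ, hyP⟩ := SetLike.not_le_iff_exists.1 hQP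
  refine ⟨⟨Q, mem_nonZeroDivisors_iff_ne_zero.2 hQ0⟩, ?_, y, hyQ, (hf y).2 hyP⟩
  have h1 : ClassGroup.mk0 (⟨J, hJ⟩ * ⟨Q, mem_nonZeroDivisors_iff_ne_zero.2 hQ0⟩) = 1 := by
    rw [ClassGroup.mk0_eq_one_iff]
    show (J * Q).IsPrincipal
    rw [← hQ]
    exact ⟨⟨x, rfl⟩⟩
  rw [map_mul, hJC, inv_mul_eq_one] at h1
  exact h1.symm

/-! ### pure quaternions of norm `2n` -/

/-- `x` and `y` odd, `z` divisible by four -/
structure IsOm2 (n : ℕ) (μ : Hq) : Prop extends IsOm (2 * n) μ where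
  oddJ : μ.imJ % 2 = 1
  fourK : μ.imK % 4 = 0

theorem four_of {n : ℕ} (h8 : n % 8 = 1) {μ : Hq} (h : IsOm (2 * n) μ) (hJ : μ.imJ % 2 = 1) :
    μ.imK % 4 = 0 := by
  obtain ⟨k, hk⟩ : ∃ k : ℤ, (n : ℤ) = 8 * k + 1 := ⟨(n / 8 : ℕ), by omega⟩
  obtain ⟨e, he⟩ : ∃ e, μ.imI = 2 * e + 1 := ⟨μ.imI / 2, by have := h.odd; omega⟩
  obtain ⟨f, hf⟩ := Int.even_mul_succ_self e
  obtain ⟨e', he'⟩ : ∃ e, μ.imJ = 2 * e + 1 := ⟨μ.imJ / 2, by omega⟩
  obtain ⟨f', hf'⟩ := Int.even_mul_succ_self e'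
  have hs := h.sum
  push_cast at hs
  rw [hk, he, he'] at hs
  have h1 : μ.imK ^ 2 = 8 * (2 * k - f - f') := by
    linear_combination hs - 4 * hf - 4 * hf'
  rcases Int.even_or_odd' μ.imK with ⟨c, hc | hc⟩
  · rw [hc] at h1 ⊢
    rcases Int.even_or_odd' c with ⟨d, hd | hd⟩
    · rw [hd]; omega
    · exfalso
      rw [hd] at h1
      have : 16 * (d ^ 2 + d) + 4 = 8 * (2 * k - f - f') := by linarith
      omega
  · exfalso
    rw [hc] at h1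
    have : 4 * (c ^ 2 + c) + 1 = 8 * (2 * k - f - f') := by linarith
    omega

theorem exists_tw12 {n : ℕ} (h8 : n % 8 = 1) {μ0 μ1 : Hq} (h0 : IsOm2 n μ0) (h1 : IsOm2 n μ1)
    (hc : (μ0.imI * μ1.imI + μ0.imJ * μ1.imJ) % 4 = 0) :
    ∃ a : Hq, nrm a % 2 = 1 ∧ a * μ0 = μ1 * a := by
  obtain ⟨x, hx⟩ : ∃ x, μ0.imI + μ1.imI = 2 * x :=
    ⟨(μ0.imI + μ1.imI) / 2, by have := h0.odd; have := h1.odd; omega⟩
  obtain ⟨y, hy⟩ : ∃ x, μ0.imJ + μ1.imJ = 2 * x :=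
    ⟨(μ0.imJ + μ1.imJ) / 2, by have := h0.oddJ; have := h1.oddJ; omega⟩
  obtain ⟨z0, hz0⟩ : ∃ x, μ0.imK = 4 * x := ⟨μ0.imK / 4, by have := h0.fourK; omega⟩
  obtain ⟨z1, hz1⟩ : ∃ x, μ1.imK = 4 * x := ⟨μ1.imK / 4, by have := h1.fourK; omega⟩
  obtain ⟨w, hw⟩ : ∃ w, μ0.imI * μ1.imI + μ0.imJ * μ1.imJ = 4 * w :=
    ⟨(μ0.imI * μ1.imI + μ0.imJ * μ1.imJ) / 4, by omega⟩
  let a : Hq := mkq 0 x y (2 * z0 + 2 * z1)
  have h2 : ((2 : ℤ) : Hq) * a = μ0 + μ1 := by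
    apply Quaternion.ext
    · rw [int_mul_re, mkq_re, Quaternion.re_add, h0.re0, h1.re0]; ring
    · rw [int_mul_imI, mkq_imI, Quaternion.imI_add, hx]
    · rw [int_mul_imJ, mkq_imJ, Quaternion.imJ_add, hy]
    · rw [int_mul_imK, mkq_imK, Quaternion.imK_add, hz0, hz1]; ring
  refine ⟨a, ?_, ?_⟩
  · have h3 : nrm a = x ^ 2 + y ^ 2 + (2 * z0 + 2 * z1) ^ 2 := by
      unfold nrm; rw [mkq_re, mkq_imI, mkq_imJ, mkq_imK]; ring
    have s0 := h0.sum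
    have s1 := h1.sum
    rw [hz0] at s0
    rw [hz1] at s1
    push_cast at s0 s1
    have h4 : 4 * nrm a = 4 * (n + 2 * w + 8 * (z0 * z1)) := by
      rw [h3]
      have e1 : 4 * (x ^ 2 + y ^ 2 + (2 * z0 + 2 * z1) ^ 2)
        = (2 * x) ^ 2 + (2 * y) ^ 2 + 16 * (z0 + z1) ^ 2 := by ring
      rw [e1, ← hx, ← hy]
      linear_combination s0 + s1 + 2 * hw
    generalize z0 * z1 = q at h4
    omega
  · apply int_cancel 2 (by norm_num)
    rw [← mul_assoc, h2, ← mul_assoc, int_comm, mul_assoc, h2, mul_add, add_mul, h0.sq, h1.sq]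
    abel

theorem s2_pm (v : Fin 4) : s2 v = 1 ∨ s2 v = -1 := by fin_cases v <;> decide
theorem s3_pm (v : Fin 4) : s3 v = 1 ∨ s3 v = -1 := by fin_cases v <;> decide

theorem fl_om2 {n : ℕ} (v : Fin 4) {μ : Hq} (h : IsOm2 n μ) : IsOm2 n (fl v μ) where
  toIsOm := fl_om v h.toIsOm
  oddJ := by
    rw [fl_imJ]
    have := h.oddJ
    rcases s2_pm v with e | e <;> rw [e] <;> omega
  fourK := by
    rw [fl_imK]
    have := h.fourK
    rcases s3_pm v with e | e <;> rw [e] <;> omega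

theorem fl_free2 {n : ℕ} {μ : Hq} (h : IsOm2 n μ) (v w : Fin 4)
    (he : fl v μ = fl w μ) : v = w := by
  have e1 := congrArg (fun q : Hq => q.imI) he
  have e2 := congrArg (fun q : Hq => q.imJ) he
  have e3 := congrArg (fun q : Hq => q.imK) he
  simp only [fl_imI, fl_imJ, fl_imK] at e1 e2 e3
  have h2 := h.oddJ
  have h3 := h.odd
  fin_cases v <;> fin_cases w <;> simp [s1, s2, s3] at e1 e2 e3 ⊢ <;> omega

theorem exists_tw2 {n : ℕ} (h8 : n % 8 = 1) {μ0 μ1 : Hq} (h0 : IsOm2 n μ0) (h1 : IsOm2 n μ1) :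
    ∃ a : Hq, nrm a % 2 = 1 ∧ a * μ0 = μ1 * a := by
  by_cases hc : (μ0.imI * μ1.imI + μ0.imJ * μ1.imJ) % 4 = 0
  · exact exists_tw12 h8 h0 h1 hc
  · have h2 : (μ0.imI * (fl 2 μ1).imI + μ0.imJ * (fl 2 μ1).imJ) % 4 = 0 := by
      rw [fl_imI, fl_imJ]
      have e : s1 2 = -1 := rfl
      have e' : s2 2 = 1 := rfl
      rw [e, e']
      obtain ⟨a, ha⟩ : ∃ a, μ0.imI = 2 * a + 1 := ⟨μ0.imI / 2, by have := h0.odd; omega⟩
      obtain ⟨b, hb⟩ : ∃ a, μ1.imI = 2 * a + 1 := ⟨μ1.imI / 2, by have := h1.odd; omega⟩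
      obtain ⟨c, hc'⟩ : ∃ a, μ0.imJ = 2 * a + 1 := ⟨μ0.imJ / 2, by have := h0.oddJ; omega⟩
      obtain ⟨d, hd⟩ : ∃ a, μ1.imJ = 2 * a + 1 := ⟨μ1.imJ / 2, by have := h1.oddJ; omega⟩
      rw [ha, hb, hc', hd] at hc ⊢
      have e1 : (2 * a + 1) * (2 * b + 1) + (2 * c + 1) * (2 * d + 1)
        = 4 * (a * b + c * d) + 2 * (a + b + c + d + 1) := by ring
      have e2 : (2 * a + 1) * (-1 * (2 * b + 1)) + (2 * c + 1) * (1 * (2 * d + 1))
        = 4 * (- a * b + c * d) + 2 * (-a - b + c + d) := by ring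
      rw [e1] at hc
      rw [e2]
      omega
    obtain ⟨a, ha, hta⟩ := exists_tw12 h8 h0 (fl_om2 2 h1) h2
    refine ⟨U 2 * a, ?_, ?_⟩
    · rw [nrm_mul, nrm_U, one_mul]; exact ha
    · rw [mul_assoc, hta, ← mul_assoc, U_mul, fl_fl, mul_assoc]

theorem exists_mu2 {n : ℕ} [NeZero n] [IsDedekindDomain (Od (2 * n))] (hs : Squarefree (2 * n))
    (h8 : n % 8 = 1)
    {μ0 : Hq} (h0 : IsOm2 n μ0) (C : ClassGroup (Od (2 * n))) :
    ∃ (μ1 a : Hq) (ha : nrm a % 2 = 1), IsOm2 n μ1 ∧ a * μ0 = μ1 * a ∧ cls h0.toIsOm a ha = C := by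
  obtain ⟨⟨I, hI⟩, hIC, x, hxI, hx⟩ := exists_oddG (par2 n) (odd_norm_iff2 n) C
  have hI0 : I ≠ 0 := nonZeroDivisors.ne_zero hI
  set J := I.map (phi h0.toIsOm) with hJ
  obtain ⟨a, haJ, ha, hJa⟩ := principal_odd J (phi h0.toIsOm x) (by rw [nrm_phi]; exact hx)
    (Ideal.mem_map_of_mem _ hxI)
  have hJs : J = Ideal.span {a} := by
    apply le_antisymm
    · intro q hq
      obtain ⟨p, rfl⟩ := hJa q hq
      exact Ideal.mul_mem_left _ _ (Ideal.mem_span_singleton_self a)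
    · rw [Ideal.span_singleton_le_iff_mem]; exact haJ
  have h1 : a * μ0 ∈ J := by
    have := map_mul_mem' h0.toIsOm I Zsqrtd.sqrtd a haJ
    rw [phi_sqrtd] at this
    exact this
  obtain ⟨μ1, hμ1⟩ := hJa _ h1
  have ha0 : nrm a ≠ 0 := by omega
  have h2 : μ1 * μ1 = ((-((2 * n : ℕ) : ℤ) : ℤ) : Hq) := by
    apply mul_right_cancel' _ _ a ha0
    rw [mul_assoc, ← hμ1, ← mul_assoc, ← hμ1, mul_assoc, h0.sq, int_comm]
  obtain ⟨h3, h4⟩ := pure_of_sq (Nat.pos_of_ne_zero (NeZero.ne (2 * n))) μ1 h2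
  obtain ⟨q, hq⟩ := comm_even a μ0
  have e1 : (μ1 - μ0) * ((nrm a : ℤ) : Hq) = ((2 : ℤ) : Hq) * (q * star a) := by
    rw [← self_mul_star', ← mul_assoc, sub_mul, ← hμ1, hq, mul_assoc]
  obtain ⟨m, hm⟩ : ∃ m, nrm a = 2 * m + 1 := ⟨nrm a / 2, by omega⟩
  have oI : μ1.imI % 2 = 1 := by
    have e2 := congrArg (fun q : Hq => q.imI) e1
    simp only [← int_comm, int_mul_imI, Quaternion.imI_sub] at e2
    rw [hm] at e2
    have e3 : μ1.imI - μ0.imI = 2 * ((q * star a).imI - m * (μ1.imI - μ0.imI)) := by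
      linear_combination e2
    have := h0.odd
    omega
  have oJ : μ1.imJ % 2 = 1 := by
    have e2 := congrArg (fun q : Hq => q.imJ) e1
    simp only [← int_comm, int_mul_imJ, Quaternion.imJ_sub] at e2
    rw [hm] at e2
    have e3 : μ1.imJ - μ0.imJ = 2 * ((q * star a).imJ - m * (μ1.imJ - μ0.imJ)) := by
      linear_combination e2
    have := h0.oddJ
    omega
  have h5' : IsOm (2 * n) μ1 := ⟨h3, h4, oI⟩
  have h5 : IsOm2 n μ1 := ⟨h5', oJ, four_of h8 h5' oJ⟩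
  refine ⟨μ1, a, ha, h5, hμ1, ?_⟩
  have h6 : Iq h0.toIsOm a = I := by
    unfold Iq
    rw [← hJs, hJ]
    exact comap_map hs h0.toIsOm I hI0
  rw [← hIC]
  unfold cls
  congr 2

/-- the main bijection -/
theorem main_bij2 {n : ℕ} [NeZero n] [IsDedekindDomain (Od (2 * n))] (hs : Squarefree (2 * n))
    (h8 : n % 8 = 1) {μ0 : Hq} (h0 : IsOm2 n μ0) :
    ∃ s : ClassGroup (Od (2 * n)) → Hq,
      (∀ C, IsOm2 n (s C) ∧ ∃ (a : Hq) (ha : nrm a % 2 = 1),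
        a * μ0 = s C * a ∧ cls h0.toIsOm a ha = C) ∧
      (∀ C C' v v', fl v (s C) = fl v' (s C') → C = C' ∧ v = v') ∧
      (∀ μ, IsOm2 n μ → ∃ C v, fl v (s C) = μ) := by
  choose s a ha hs1 hs2 hs3 using exists_mu2 hs h8 h0
  refine ⟨s, fun C => ⟨hs1 C, a C, ha C, hs2 C, hs3 C⟩, ?_, ?_⟩
  · intro C C' v v' he
    have hv : nrm (U v * a C) % 2 = 1 := by rw [nrm_mul, nrm_U, one_mul]; exact ha C
    have hv' : nrm (U v' * a C') % 2 = 1 := by rw [nrm_mul, nrm_U, one_mul]; exact ha C'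
    have e1 := cls_fl h0.toIsOm (a C) v (ha C) hv
    have e2 := cls_fl h0.toIsOm (a C') v' (ha C') hv'
    have t1 : (U v * a C) * μ0 = fl v (s C) * (U v * a C) := by
      rw [mul_assoc, hs2, ← mul_assoc, U_mul, mul_assoc]
    have t2 : (U v' * a C') * μ0 = fl v' (s C') * (U v' * a C') := by
      rw [mul_assoc, hs2, ← mul_assoc, U_mul, mul_assoc]
    rw [← he] at t2
    have e3 := cls_indep hs h0.toIsOm _ _ hv hv' t1 t2
    have e4 : C = C' := by rw [← hs3 C, ← hs3 C', ← e1, ← e2, e3]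
    refine ⟨e4, ?_⟩
    rw [← e4] at he
    exact fl_free2 (hs1 C) v v' he
  · intro μ hμ
    obtain ⟨b, hb, htb⟩ := exists_tw2 h8 h0 hμ
    set C := cls h0.toIsOm b hb with hC
    obtain ⟨v, hv⟩ := cls_inj hs h0.toIsOm b (a C) hb (ha C) htb (hs2 C) (by rw [hs3 C])
    exact ⟨C, v, hv.symm⟩

end Pool.Agent.TM32
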