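import Mathlib
import Pool.Agent.Lib_helper72.TM32.E4
import Pool.Agent.Lib_helper47.G3.ThreeSq
set_option autoImplicit false
namespace Pool.Agent.TM32

theorem om2_of {n : ℕ} (h8 : n % 8 = 1) (x y z : ℤ) (h : (n : ℤ) = x ^ 2 + y ^ 2 + 2 * z ^ 2) :
    IsOm2 n (mkq 0 (x + y) (x - y) (2 * z)) := by
  have h1 : (x + y) % 2 = 1 := by
    rcases Int.even_or_odd' x with ⟨c, rfl | rfl⟩ <;> rcases Int.even_or_odd' y with ⟨d, rfl | rfl⟩
    · exfalso
      have : (n : ℤ) = 2 * (2 * c ^ 2 + 2 * d ^ 2 + z ^ 2) := by rw [h]; ring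
      omega
    · omega
    · omega
    · exfalso
      have : (n : ℤ) = 2 * (2 * c ^ 2 + 2 * c + 2 * d ^ 2 + 2 * d + 1 + z ^ 2) := by rw [h]; ring
      omega
  have h2 : IsOm (2 * n) (mkq 0 (x + y) (x - y) (2 * z)) := by
    refine ⟨rfl, ?_, h1⟩
    show (x + y) ^ 2 + (x - y) ^ 2 + (2 * z) ^ 2 = ((2 * n : ℕ) : ℤ)
    push_cast
    linear_combination (-2) * h
  have h3 : (x - y) % 2 = 1 := by omega
  exact ⟨h2, h3, four_of h8 h2 h3⟩

/-- **E4**: the number of representations of `n = 1 mod 8` by `x^2 + y^2 + 2 z^2` is four times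
the class number of `ℤ[√-2n]` -/
theorem card_E4' (n : ℕ) [NeZero n] (hs : Squarefree n) (h8 : n % 8 = 1) :
    Finite (ClassGroup (Zsqrtd (-((2 * n : ℕ) : ℤ)))) ∧
    {v : ℤ × ℤ × ℤ | (n : ℤ) = v.1 ^ 2 + v.2.1 ^ 2 + 2 * v.2.2 ^ 2}.ncard =
      4 * Nat.card (ClassGroup (Zsqrtd (-((2 * n : ℕ) : ℤ)))) := by
  have hs2 : Squarefree (2 * n) := by
    rw [Nat.squarefree_mul_iff]
    exact ⟨(Nat.coprime_two_left).2 (Nat.odd_iff.2 (by omega)), Nat.prime_two.squarefree, hs⟩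
  have := ded2 n hs2 (by omega)
  obtain ⟨x, y, z, hxyz⟩ := Lib_helper47.G3.sum_two_squares_add_two n (by omega)
  obtain ⟨s, hs0, hs1, hs3⟩ := main_bij2 hs2 h8 (om2_of h8 x y z hxyz)
  let g : ClassGroup (Od (2 * n)) × Fin 4 → ℤ × ℤ × ℤ := fun p =>
    (((fl p.2 (s p.1)).imI + (fl p.2 (s p.1)).imJ) / 2,
      ((fl p.2 (s p.1)).imI - (fl p.2 (s p.1)).imJ) / 2, (fl p.2 (s p.1)).imK / 2)
  have hinj : Function.Injective g := by
    rintro ⟨C, v⟩ ⟨C', v'⟩ he
    have o := fl_om2 v (hs0 C).1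
    have o' := fl_om2 v' (hs0 C').1
    simp only [g, Prod.mk.injEq] at he
    obtain ⟨e1, e2, e3⟩ := he
    have i := o.odd
    have i' := o'.odd
    have j := o.oddJ
    have j' := o'.oddJ
    have k := o.fourK
    have k' := o'.fourK
    obtain ⟨rfl, rfl⟩ := hs1 C C' v v' (by
      apply Quaternion.ext
      · rw [o.re0, o'.re0]
      · omega
      · omega
      · omega)
    rfl
  have hr : {v : ℤ × ℤ × ℤ | (n : ℤ) = v.1 ^ 2 + v.2.1 ^ 2 + 2 * v.2.2 ^ 2} = Set.range g := by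
    ext ⟨a, b, c⟩
    constructor
    · intro h
      have h : (n : ℤ) = a ^ 2 + b ^ 2 + 2 * c ^ 2 := h
      obtain ⟨C, v, hCv⟩ := hs3 _ (om2_of h8 a b c h)
      refine ⟨(C, v), ?_⟩
      simp only [g, hCv, mkq_imI, mkq_imJ, mkq_imK, Prod.mk.injEq]
      omega
    · rintro ⟨⟨C, v⟩, he⟩
      have o := fl_om2 v (hs0 C).1
      simp only [g, Prod.mk.injEq] at he
      obtain ⟨e1, e2, e3⟩ := he
      have i := o.odd
      have j := o.oddJ
      have k := o.fourK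
      have f1 : (fl v (s C)).imI = a + b := by omega
      have f2 : (fl v (s C)).imJ = a - b := by omega
      have f3 : (fl v (s C)).imK = 2 * c := by omega
      have h := o.sum
      rw [f1, f2, f3] at h
      push_cast at h
      show (n : ℤ) = a ^ 2 + b ^ 2 + 2 * c ^ 2
      linarith
  have hfin : Set.Finite (Set.range g) := by
    rw [← hr]
    have hsub : {v : ℤ × ℤ × ℤ | (n : ℤ) = v.1 ^ 2 + v.2.1 ^ 2 + 2 * v.2.2 ^ 2} ⊆
        (Set.Icc (-(n : ℤ)) n) ×ˢ ((Set.Icc (-(n : ℤ)) n) ×ˢ (Set.Icc (-(n : ℤ)) n)) := by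
      rintro ⟨x, y, z⟩ h
      have h : (n : ℤ) = x ^ 2 + y ^ 2 + 2 * z ^ 2 := h
      have b : ∀ t : ℤ, t ^ 2 ≤ n → -(n : ℤ) ≤ t ∧ t ≤ n := by
        intro t ht
        constructor
        · nlinarith [Int.le_self_sq (-t)]
        · nlinarith [Int.le_self_sq t]
      refine ⟨b x (by nlinarith [sq_nonneg y, sq_nonneg z]),
        b y (by nlinarith [sq_nonneg x, sq_nonneg z]),
        b z (by nlinarith [sq_nonneg y, sq_nonneg x, sq_nonneg z])⟩
    exact Set.Finite.subset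
      ((Set.finite_Icc _ _).prod ((Set.finite_Icc _ _).prod (Set.finite_Icc _ _))) hsub
  refine ⟨?_, ?_⟩
  · have hf : Finite (Set.range g) := hfin.to_subtype
    have : Finite (ClassGroup (Od (2 * n)) × Fin 4) :=
      Finite.of_injective (fun p => (⟨g p, p, rfl⟩ : Set.range g)) (fun p q h =>
        hinj (congrArg Subtype.val h))
    exact Finite.of_injective (fun C => ((C, 0) : ClassGroup (Od (2 * n)) × Fin 4))
      (fun C C' h => (Prod.mk.inj h).1)
  · rw [hr]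
    have e1 : (Set.range g).ncard = Nat.card (ClassGroup (Od (2 * n)) × Fin 4) := by
      rw [← Nat.card_coe_set_eq, Nat.card_range_of_injective hinj]
    rw [e1, Nat.card_prod, Nat.card_eq_fintype_card (α := Fin 4), Fintype.card_fin, mul_comm]

theorem card_E4 (n : ℕ) [NeZero n] (hs : Squarefree n) (h8 : n % 8 = 1) :
    {v : ℤ × ℤ × ℤ | (n : ℤ) = v.1 ^ 2 + v.2.1 ^ 2 + 2 * v.2.2 ^ 2}.ncard =
      4 * Nat.card (ClassGroup (Zsqrtd (-(2 * n : ℤ)))) := by
  rw [card_cast2]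
  exact (card_E4' n hs h8).2

end Pool.Agent.TM32
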