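import Mathlib
import Pool.Agent.Lib_helper72.TM32.Chi
set_option autoImplicit false
namespace Pool.Agent.TM32

theorem dec4 (e0 e1 x0 x1 a0 a1 a2 a3 : ZMod 4) (he0 : e0 = 0 ∨ e0 = 2) (he1 : e1 = 0 ∨ e1 = 2)
    (hx0 : x0 = 1 ∨ x0 = 3) (hx1 : x1 = 1 ∨ x1 = 3)
    (h0 : x1 * a1 + e1 * a2 + e1 * a3 = x0 * a1 + e0 * a2 + e0 * a3)
    (h1 : x1 * a0 + e1 * a3 - e1 * a2 = a0 * x0 + a2 * e0 - a3 * e0)
    (h2 : e1 * a0 + e1 * a1 - x1 * a3 = a0 * e0 + a3 * x0 - a1 * e0)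
    (h3 : e1 * a0 + x1 * a2 - e1 * a1 = a0 * e0 + a1 * e0 - a2 * x0)
    (h4 : a0 ^ 2 + a1 ^ 2 + a2 ^ 2 + a3 ^ 2 = 1 ∨ a0 ^ 2 + a1 ^ 2 + a2 ^ 2 + a3 ^ 2 = 3) :
    (e1 = 0 ↔ e0 = 0) ↔ a0 ^ 2 + a1 ^ 2 + a2 ^ 2 + a3 ^ 2 = 1 := by
  rcases he0 with rfl | rfl <;> rcases he1 with rfl | rfl <;> rcases hx0 with rfl | rfl <;>
    rcases hx1 with rfl | rfl <;> revert a0 a1 a2 a3 <;> decide

theorem cast4_odd (x : ℤ) (h : x % 2 = 1) : (x : ZMod 4) = 1 ∨ (x : ZMod 4) = 3 := by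
  have h4 : x % 4 = 1 ∨ x % 4 = 3 := by omega
  rcases h4 with h4 | h4
  · left
    have : ((x : ℤ) : ZMod 4) = ((1 : ℤ) : ZMod 4) := by
      rw [ZMod.intCast_eq_intCast_iff_dvd_sub]; push_cast; omega
    simpa using this
  · right
    have : ((x : ℤ) : ZMod 4) = ((3 : ℤ) : ZMod 4) := by
      rw [ZMod.intCast_eq_intCast_iff_dvd_sub]; push_cast; omega
    simpa using this

theorem cast4_even (c : ℤ) : ((2 * c : ℤ) : ZMod 4) = 0 ∨ ((2 * c : ℤ) : ZMod 4) = 2 := by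
  rcases Int.even_or_odd' c with ⟨d, rfl | rfl⟩
  · left
    rw [ZMod.intCast_zmod_eq_zero_iff_dvd]; push_cast; omega
  · right
    have : ((2 * (2 * d + 1) : ℤ) : ZMod 4) = ((2 : ℤ) : ZMod 4) := by
      rw [ZMod.intCast_eq_intCast_iff_dvd_sub]; push_cast; omega
    rw [this]; rfl

theorem cast4_dvd (x : ℤ) : (4 : ℤ) ∣ x ↔ (x : ZMod 4) = 0 := by
  rw [ZMod.intCast_zmod_eq_zero_iff_dvd]; push_cast; rfl

theorem par_rel {n : ℕ} (h8 : n % 8 = 1) {μ0 μ1 : Hq} (h0 : IsOm n μ0) (h1 : IsOm n μ1) (a : Hq)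
    (ha : nrm a % 2 = 1) (ht : a * μ0 = μ1 * a) :
    ((4 : ℤ) ∣ μ1.imJ ↔ (4 : ℤ) ∣ μ0.imJ) ↔ nrm a % 4 = 1 := by
  obtain ⟨c0, d0, hc0, hd0, hcd0⟩ := om_even h8 h0
  obtain ⟨c1, d1, hc1, hd1, hcd1⟩ := om_even h8 h1
  have z0 : ((μ0.imK : ℤ) : ZMod 4) = ((μ0.imJ : ℤ) : ZMod 4) := by
    rw [ZMod.intCast_eq_intCast_iff_dvd_sub, hc0, hd0]; push_cast; omega
  have z1 : ((μ1.imK : ℤ) : ZMod 4) = ((μ1.imJ : ℤ) : ZMod 4) := by
    rw [ZMod.intCast_eq_intCast_iff_dvd_sub, hc1, hd1]; push_cast; omega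
  have e0 := congrArg (fun q : Hq => ((q.re : ℤ) : ZMod 4)) ht
  have e1 := congrArg (fun q : Hq => ((q.imI : ℤ) : ZMod 4)) ht
  have e2 := congrArg (fun q : Hq => ((q.imJ : ℤ) : ZMod 4)) ht
  have e3 := congrArg (fun q : Hq => ((q.imK : ℤ) : ZMod 4)) ht
  simp only [Quaternion.re_mul, Quaternion.imI_mul, Quaternion.imJ_mul, Quaternion.imK_mul,
    h0.re0, h1.re0] at e0 e1 e2 e3
  push_cast at e0 e1 e2 e3
  rw [z0, z1] at e0 e1 e2
  rw [z0, z1] at e3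
  have hn : ((nrm a : ℤ) : ZMod 4) = (a.re : ZMod 4) ^ 2 + (a.imI : ZMod 4) ^ 2
      + (a.imJ : ZMod 4) ^ 2 + (a.imK : ZMod 4) ^ 2 := by
    unfold nrm; push_cast; ring
  have hodd : (a.re : ZMod 4) ^ 2 + (a.imI : ZMod 4) ^ 2 + (a.imJ : ZMod 4) ^ 2
      + (a.imK : ZMod 4) ^ 2 = 1 ∨ (a.re : ZMod 4) ^ 2 + (a.imI : ZMod 4) ^ 2
      + (a.imJ : ZMod 4) ^ 2 + (a.imK : ZMod 4) ^ 2 = 3 := by
    rw [← hn]; exact cast4_odd _ ha
  have main := dec4 (μ0.imJ : ZMod 4) (μ1.imJ : ZMod 4) (μ0.imI : ZMod 4) (μ1.imI : ZMod 4)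
    (a.re : ZMod 4) (a.imI : ZMod 4) (a.imJ : ZMod 4) (a.imK : ZMod 4)
    (by rw [hc0]; exact cast4_even c0) (by rw [hc1]; exact cast4_even c1) (cast4_odd _ h0.odd)
    (cast4_odd _ h1.odd)
    (by linear_combination e0) (by linear_combination -e1)
    (by linear_combination -e2) (by linear_combination -e3) hodd
  rw [cast4_dvd, cast4_dvd, main, ← hn]
  have h4 : nrm a % 4 = 1 ∨ nrm a % 4 = 3 := by omega
  have h5 : ((nrm a : ℤ) : ZMod 4) = ((1 : ℤ) : ZMod 4) ↔ nrm a % 4 = 1 := by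
    rw [ZMod.intCast_eq_intCast_iff_dvd_sub]; push_cast; omega
  rw [← h5, Int.cast_one]

theorem chi_half {G : Type*} [Group G] (c : G →* ℤˣ) (hc : Function.Surjective c) [Finite G]
    (e : ℤˣ) : 2 * Nat.card {g : G // c g = e} = Nat.card G := by
  obtain ⟨g0, hg0⟩ := hc (-1)
  have h1 : Nat.card {g : G // c g = e} = Nat.card {g : G // ¬ c g = e} := by
    refine Nat.card_congr ⟨fun g => ⟨g0 * g.1, ?_⟩, fun g => ⟨g0⁻¹ * g.1, ?_⟩, ?_, ?_⟩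
    · rw [map_mul, hg0, g.2]
      intro h
      rcases Int.units_eq_one_or e with rfl | rfl
      · exact absurd h (by decide)
      · exact absurd h (by decide)
    · rw [map_mul, map_inv, hg0]
      have := g.2
      rcases Int.units_eq_one_or e with rfl | rfl <;> rcases Int.units_eq_one_or (c g.1) with h | h
      · exact absurd h this
      · rw [h]; decide
      · rw [h]; decide
      · exact absurd h this
    · intro g; simp
    · intro g; simp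
  have h2 : Nat.card G = Nat.card {g : G // c g = e} + Nat.card {g : G // ¬ c g = e} := by
    classical
    rw [← Nat.card_sum]
    exact Nat.card_congr (Equiv.sumCompl (fun g => c g = e)).symm
  rw [h2, ← h1]; ring

/-- **Q6** -/
theorem half (n : ℕ) [NeZero n] (hs : Squarefree n) (h8 : n % 8 = 1) (h1 : 1 < n)
    (hne : ∃ x y z : ℤ, x ^ 2 + y ^ 2 + z ^ 2 = n) :
    Nat.card {v : ℤ × ℤ × ℤ // v.1 ^ 2 + v.2.1 ^ 2 + v.2.2 ^ 2 = n ∧ v.1 % 2 = 1 ∧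
        (4 : ℤ) ∣ v.2.1 ∧ (4 : ℤ) ∣ v.2.2} =
      2 * Nat.card (ClassGroup (Zsqrtd (-(n : ℤ)))) := by
  have hfinC := (cntOmega n hs h8 h1 hne).1
  have := ded n hs h8
  obtain ⟨μ0, h0⟩ := base_om h8 hne
  obtain ⟨s, hs0, hs1, hs2⟩ := main_bij hs h8 h1 h0
  set e : ℤˣ := if (4 : ℤ) ∣ μ0.imJ then 1 else -1 with he
  obtain ⟨f, hf⟩ := card_om (n := n) (Q := fun _ y z => (4 : ℤ) ∣ y ∧ (4 : ℤ) ∣ z)
    (P := fun C => chiC n h8 C = e) s (fun C => (hs0 C).1) hs1 hs2 (by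
      intro C v
      obtain ⟨hC, a, ha, hta, hcl⟩ := hs0 C
      obtain ⟨c, d, hc, hd, hcd⟩ := om_even h8 hC
      have e1 : ((4 : ℤ) ∣ (fl v (s C)).imJ ∧ (4 : ℤ) ∣ (fl v (s C)).imK) ↔ (4 : ℤ) ∣ (s C).imJ := by
        rw [fl_imJ, fl_imK]
        have f2 : s2 v = 1 ∨ s2 v = -1 := by fin_cases v <;> simp [s2]
        have f3 : s3 v = 1 ∨ s3 v = -1 := by fin_cases v <;> simp [s3]
        rw [hc, hd]
        rcases f2 with f2 | f2 <;> rcases f3 with f3 | f3 <;> rw [f2, f3] <;> omega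
      rw [e1]
      have e2 := par_rel h8 h0 hC a ha hta
      have e3 : chiC n h8 C = u4 ((nrm a).natAbs) := by
        rw [← hcl]
        unfold cls
        rw [chiC_mk0]
        show u4 (Ideal.absNorm (Iq h0 a)) = _
        rw [absNorm_Iq hs h0 a (s C) ha hta]
      rw [e3, u4_odd _ (by have := nrm_nonneg a; omega), he]
      have e4 : (nrm a).natAbs % 4 = 1 ↔ nrm a % 4 = 1 := by have := nrm_nonneg a; omega
      by_cases g1 : nrm a % 4 = 1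
      · rw [if_pos (e4.2 g1)]
        have e5 := e2.2 g1
        by_cases g2 : (4 : ℤ) ∣ μ0.imJ
        · rw [if_pos g2]; exact ⟨fun _ => rfl, fun _ => e5.2 g2⟩
        · rw [if_neg g2]
          exact ⟨fun h => absurd (e5.1 h) g2, fun h => absurd h (by decide)⟩
      · rw [if_neg (fun h => g1 (e4.1 h))]
        have e5 : ¬ ((4 : ℤ) ∣ (s C).imJ ↔ (4 : ℤ) ∣ μ0.imJ) := fun h => g1 (e2.1 h)
        by_cases g2 : (4 : ℤ) ∣ μ0.imJ
        · rw [if_pos g2]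
          exact ⟨fun h => absurd ⟨fun _ => g2, fun _ => h⟩ e5, fun h => absurd h (by decide)⟩
        · rw [if_neg g2]
          refine ⟨fun _ => rfl, fun _ => ?_⟩
          by_contra h
          exact e5 ⟨fun h' => absurd h' h, fun h' => absurd h' g2⟩)
  have e2 := chi_half (chiC n h8) (chiC_surj n hs h8 h1) e
  rw [← Nat.card_eq_of_bijective f hf, Nat.card_prod, Nat.card_eq_fintype_card (α := Fin 4),
    Fintype.card_fin]
  have e3 : Nat.card (ClassGroup (Zsqrtd (-(n : ℤ)))) = Nat.card (ClassGroup (Od n)) := rfl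
  rw [e3, ← e2]; ring

end Pool.Agent.TM32
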