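import Mathlib
import Pool.Prelude.Def_F_25f10a9b
import Pool.Agent.Lib_helper72.TM32.Half
set_option autoImplicit false
namespace Pool.Agent.TM32
open N9003ba20

theorem card_split {α : Type*} (X : Set α) (hX : X.Finite) (P : α → Prop) :
    X.ncard = {x | x ∈ X ∧ P x}.ncard + {x | x ∈ X ∧ ¬ P x}.ncard := by
  have h := Set.ncard_inter_add_ncard_sdiff_eq_ncard X {x | P x} hX
  rw [← h]
  rfl

theorem card_dbl {α : Type*} (X : Set α) (hX : X.Finite) (P : α → Prop) (σ : α → α)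
    (hσ : ∀ x, σ (σ x) = x) (hσX : ∀ x ∈ X, σ x ∈ X) (hP : ∀ x ∈ X, (P (σ x) ↔ ¬ P x)) :
    X.ncard = 2 * {x | x ∈ X ∧ P x}.ncard := by
  have h1 : {x | x ∈ X ∧ ¬ P x} = σ '' {x | x ∈ X ∧ P x} := by
    ext x
    constructor
    · rintro ⟨hx, hpx⟩
      exact ⟨σ x, ⟨hσX x hx, (hP x hx).2 hpx⟩, hσ x⟩
    · rintro ⟨y, ⟨hy, hpy⟩, rfl⟩
      refine ⟨hσX y hy, ?_⟩
      rw [hP y hy]; exact fun h => h hpy
  have hinj : Function.Injective σ := fun a b h => by rw [← hσ a, ← hσ b, h]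
  rw [card_split X hX P, h1, Set.ncard_image_of_injective _ hinj]; ring

theorem fin_box (n : ℕ) (X : Set (ℤ × ℤ × ℤ))
    (h : ∀ v ∈ X, v.1 ^ 2 + v.2.1 ^ 2 + v.2.2 ^ 2 ≤ (n : ℤ)) : X.Finite := by
  have hsub : X ⊆
      (Set.Icc (-(n : ℤ)) n) ×ˢ ((Set.Icc (-(n : ℤ)) n) ×ˢ (Set.Icc (-(n : ℤ)) n)) := by
    rintro ⟨x, y, z⟩ hv
    have h : x ^ 2 + y ^ 2 + z ^ 2 ≤ n := h _ hv
    have b : ∀ t : ℤ, t ^ 2 ≤ n → -(n : ℤ) ≤ t ∧ t ≤ n := by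
      intro t ht
      constructor
      · nlinarith [Int.le_self_sq (-t)]
      · nlinarith [Int.le_self_sq t]
    refine ⟨b x (by nlinarith [sq_nonneg y, sq_nonneg z]), b y (by nlinarith [sq_nonneg x, sq_nonneg z]),
      b z (by nlinarith [sq_nonneg y, sq_nonneg x])⟩
  exact Set.Finite.subset ((Set.finite_Icc _ _).prod ((Set.finite_Icc _ _).prod (Set.finite_Icc _ _))) hsub

/-- `y^2 + 8 t^2 + 8 z^2 = n` -/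
def Bs (n : ℕ) : Set (ℤ × ℤ × ℤ) := {v | (n : ℤ) = v.2.1 ^ 2 + 8 * v.1 ^ 2 + 8 * v.2.2 ^ 2}
/-- `y^2 + 16 (u^2 + v^2) = n` -/
def Ts (n : ℕ) : Set (ℤ × ℤ × ℤ) := {v | (n : ℤ) = v.1 ^ 2 + 16 * (v.2.1 ^ 2 + v.2.2 ^ 2)}

theorem Bs_fin (n : ℕ) : (Bs n).Finite := by
  apply fin_box n
  rintro ⟨x, y, z⟩ h
  have h : (n : ℤ) = y ^ 2 + 8 * x ^ 2 + 8 * z ^ 2 := h
  show x ^ 2 + y ^ 2 + z ^ 2 ≤ (n : ℤ)
  nlinarith [sq_nonneg x, sq_nonneg z]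

theorem Ts_fin (n : ℕ) : (Ts n).Finite := by
  apply fin_box n
  rintro ⟨x, y, z⟩ h
  have h : (n : ℤ) = x ^ 2 + 16 * (y ^ 2 + z ^ 2) := h
  show x ^ 2 + y ^ 2 + z ^ 2 ≤ (n : ℤ)
  nlinarith [sq_nonneg y, sq_nonneg z]

theorem x_even (n : ℕ) (h8 : n % 8 = 1) (x y w : ℤ) (h : (n : ℤ) = 2 * x ^ 2 + y ^ 2 + 8 * w) :
    x % 2 = 0 := by
  obtain ⟨k, hk⟩ : ∃ k : ℤ, (n : ℤ) = 8 * k + 1 := ⟨(n / 8 : ℕ), by omega⟩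
  rw [hk] at h
  rcases Int.even_or_odd' y with ⟨c, rfl | rfl⟩
  · exfalso
    have : 8 * k + 1 = 2 * (x ^ 2 + 2 * c ^ 2 + 4 * w) := by linarith
    omega
  · obtain ⟨f, hf⟩ := Int.even_mul_succ_self c
    rcases Int.even_or_odd' x with ⟨d, rfl | rfl⟩
    · omega
    · exfalso
      have : 8 * k = 4 * (2 * d ^ 2 + 2 * d + 2 * f + 2 * w) + 2 := by
        linear_combination h + 4 * hf
      omega

theorem card_B (n : ℕ) (h8 : n % 8 = 1) : (B n).ncard = (Bs n).ncard := by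
  have h1 : B n = (fun v : ℤ × ℤ × ℤ => (2 * v.1, v.2.1, v.2.2)) '' Bs n := by
    ext ⟨x, y, z⟩
    constructor
    · intro h
      have h : (n : ℤ) = 2 * x ^ 2 + y ^ 2 + 8 * z ^ 2 := h
      have h2 := x_even n h8 x y (z ^ 2) h
      obtain ⟨t, rfl⟩ : ∃ t, x = 2 * t := ⟨x / 2, by omega⟩
      refine ⟨(t, y, z), ?_, rfl⟩
      show (n : ℤ) = y ^ 2 + 8 * t ^ 2 + 8 * z ^ 2
      linarith
    · rintro ⟨⟨t, y', z'⟩, h, he⟩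
      have h : (n : ℤ) = y' ^ 2 + 8 * t ^ 2 + 8 * z' ^ 2 := h
      simp only [Prod.mk.injEq] at he
      obtain ⟨rfl, rfl, rfl⟩ := he
      show (n : ℤ) = 2 * (2 * t) ^ 2 + y' ^ 2 + 8 * z' ^ 2
      linarith
  rw [h1, Set.ncard_image_of_injective]
  rintro ⟨a, b, c⟩ ⟨a', b', c'⟩ he
  simp only [Prod.mk.injEq] at he ⊢
  omega

theorem card_A (n : ℕ) (h8 : n % 8 = 1) :
    (A n).ncard = {v | v ∈ Bs n ∧ v.2.2 % 2 = 0}.ncard := by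
  have h1 : {v | v ∈ Bs n ∧ v.2.2 % 2 = 0} =
      (fun v : ℤ × ℤ × ℤ => (v.1 , v.2.1, 2 * v.2.2)) '' {v | (n : ℤ) = v.2.1 ^ 2 + 8 * v.1 ^ 2 + 32 * v.2.2 ^ 2} := by
    ext ⟨x, y, z⟩
    constructor
    · rintro ⟨h, h2⟩
      have h : (n : ℤ) = y ^ 2 + 8 * x ^ 2 + 8 * z ^ 2 := h
      have h2 : z % 2 = 0 := h2
      obtain ⟨t, rfl⟩ : ∃ t, z = 2 * t := ⟨z / 2, by omega⟩
      refine ⟨(x, y, t), ?_, rfl⟩
      show (n : ℤ) = y ^ 2 + 8 * x ^ 2 + 32 * t ^ 2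
      linarith
    · rintro ⟨⟨x', y', t⟩, h, he⟩
      have h : (n : ℤ) = y' ^ 2 + 8 * x' ^ 2 + 32 * t ^ 2 := h
      simp only [Prod.mk.injEq] at he
      obtain ⟨rfl, rfl, rfl⟩ := he
      refine ⟨?_, ?_⟩
      · show (n : ℤ) = y' ^ 2 + 8 * x' ^ 2 + 8 * (2 * t) ^ 2
        linarith
      · show (2 * t) % 2 = 0
        omega
  have h2 : A n = (fun v : ℤ × ℤ × ℤ => (2 * v.1, v.2.1, v.2.2)) ''
      {v | (n : ℤ) = v.2.1 ^ 2 + 8 * v.1 ^ 2 + 32 * v.2.2 ^ 2} := by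
    ext ⟨x, y, z⟩
    constructor
    · intro h
      have h : (n : ℤ) = 2 * x ^ 2 + y ^ 2 + 32 * z ^ 2 := h
      have h2 := x_even n h8 x y (4 * z ^ 2) (by linarith)
      obtain ⟨t, rfl⟩ : ∃ t, x = 2 * t := ⟨x / 2, by omega⟩
      refine ⟨(t, y, z), ?_, rfl⟩
      show (n : ℤ) = y ^ 2 + 8 * t ^ 2 + 32 * z ^ 2
      linarith
    · rintro ⟨⟨t, y', z'⟩, h, he⟩
      have h : (n : ℤ) = y' ^ 2 + 8 * t ^ 2 + 32 * z' ^ 2 := h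
      simp only [Prod.mk.injEq] at he
      obtain ⟨rfl, rfl, rfl⟩ := he
      show (n : ℤ) = 2 * (2 * t) ^ 2 + y' ^ 2 + 32 * z' ^ 2
      linarith
  rw [h1, h2, Set.ncard_image_of_injective, Set.ncard_image_of_injective]
  · rintro ⟨a, b, c⟩ ⟨a', b', c'⟩ he
    simp only [Prod.mk.injEq] at he ⊢
    omega
  · rintro ⟨a, b, c⟩ ⟨a', b', c'⟩ he
    simp only [Prod.mk.injEq] at he ⊢
    omega

/-- rotation -/
theorem card_rot (n : ℕ) (e : ℤ) :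
    {v | (v ∈ Bs n ∧ (v.1 + v.2.2) % 2 = 0) ∧ v.2.2 % 2 = e}.ncard =
      {v | v ∈ Ts n ∧ (v.2.1 + v.2.2) % 2 = e}.ncard := by
  have h1 : {v | (v ∈ Bs n ∧ (v.1 + v.2.2) % 2 = 0) ∧ v.2.2 % 2 = e} =
      (fun v : ℤ × ℤ × ℤ => (v.2.1 + v.2.2, v.1, v.2.1 - v.2.2)) ''
        {v | v ∈ Ts n ∧ (v.2.1 + v.2.2) % 2 = e} := by
    ext ⟨x, y, z⟩
    constructor
    · rintro ⟨⟨h, h2⟩, h3⟩
      have h : (n : ℤ) = y ^ 2 + 8 * x ^ 2 + 8 * z ^ 2 := h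
      have h2 : (x + z) % 2 = 0 := h2
      have h3 : z % 2 = e := h3
      obtain ⟨u, hu⟩ : ∃ u, x + z = 2 * u := ⟨(x + z) / 2, by omega⟩
      obtain ⟨v, hv⟩ : ∃ v, x - z = 2 * v := ⟨(x - z) / 2, by omega⟩
      have hx : x = u + v := by omega
      have hz : z = u - v := by omega
      subst hx hz
      refine ⟨(y, u, v), ⟨?_, ?_⟩, rfl⟩
      · show (n : ℤ) = y ^ 2 + 16 * (u ^ 2 + v ^ 2)
        linarith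
      · show (u + v) % 2 = e
        omega
    · rintro ⟨⟨y', u, v⟩, ⟨h, h2⟩, he⟩
      have h : (n : ℤ) = y' ^ 2 + 16 * (u ^ 2 + v ^ 2) := h
      have h2 : (u + v) % 2 = e := h2
      simp only [Prod.mk.injEq] at he
      obtain ⟨rfl, rfl, rfl⟩ := he
      refine ⟨⟨?_, ?_⟩, ?_⟩
      · show (n : ℤ) = y' ^ 2 + 8 * (u + v) ^ 2 + 8 * (u - v) ^ 2
        linarith
      · show (u + v + (u - v)) % 2 = 0
        omega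
      · show (u - v) % 2 = e
        omega
  rw [h1, Set.ncard_image_of_injective]
  rintro ⟨a, b, c⟩ ⟨a', b', c'⟩ he
  simp only [Prod.mk.injEq] at he ⊢
  omega

theorem card_T (n : ℕ) (h8 : n % 8 = 1) :
    (Ts n).ncard = Nat.card {v : ℤ × ℤ × ℤ // v.1 ^ 2 + v.2.1 ^ 2 + v.2.2 ^ 2 = n ∧ v.1 % 2 = 1 ∧
        (4 : ℤ) ∣ v.2.1 ∧ (4 : ℤ) ∣ v.2.2} := by
  have h1 : {v : ℤ × ℤ × ℤ | v.1 ^ 2 + v.2.1 ^ 2 + v.2.2 ^ 2 = n ∧ v.1 % 2 = 1 ∧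
        (4 : ℤ) ∣ v.2.1 ∧ (4 : ℤ) ∣ v.2.2} =
      (fun v : ℤ × ℤ × ℤ => (v.1, 4 * v.2.1, 4 * v.2.2)) '' Ts n := by
    ext ⟨x, y, z⟩
    constructor
    · rintro ⟨h, h2, h3, h4⟩
      have h : x ^ 2 + y ^ 2 + z ^ 2 = (n : ℤ) := h
      obtain ⟨u, hu⟩ : (4 : ℤ) ∣ y := h3
      obtain ⟨v, hv⟩ : (4 : ℤ) ∣ z := h4
      subst hu hv
      refine ⟨(x, u, v), ?_, rfl⟩
      show (n : ℤ) = x ^ 2 + 16 * (u ^ 2 + v ^ 2)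
      linarith
    · rintro ⟨⟨y', u, v⟩, h, he⟩
      have h : (n : ℤ) = y' ^ 2 + 16 * (u ^ 2 + v ^ 2) := h
      simp only [Prod.mk.injEq] at he
      obtain ⟨rfl, rfl, rfl⟩ := he
      refine ⟨?_, ?_, ?_, ?_⟩
      · show y' ^ 2 + (4 * u) ^ 2 + (4 * v) ^ 2 = (n : ℤ)
        linarith
      · show y' % 2 = 1
        rcases Int.even_or_odd' y' with ⟨c, rfl | rfl⟩
        · exfalso
          have : (n : ℤ) = 2 * (2 * c ^ 2 + 8 * (u ^ 2 + v ^ 2)) := by linarith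
          omega
        · omega
      · exact ⟨u, rfl⟩
      · exact ⟨v, rfl⟩
  have h2 : Nat.card {v : ℤ × ℤ × ℤ // v.1 ^ 2 + v.2.1 ^ 2 + v.2.2 ^ 2 = n ∧ v.1 % 2 = 1 ∧
        (4 : ℤ) ∣ v.2.1 ∧ (4 : ℤ) ∣ v.2.2} = {v : ℤ × ℤ × ℤ | v.1 ^ 2 + v.2.1 ^ 2 + v.2.2 ^ 2 = n ∧ v.1 % 2 = 1 ∧
        (4 : ℤ) ∣ v.2.1 ∧ (4 : ℤ) ∣ v.2.2}.ncard := rfl
  rw [h2, h1, Set.ncard_image_of_injective]
  rintro ⟨a, b, c⟩ ⟨a', b', c'⟩ he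
  simp only [Prod.mk.injEq] at he ⊢
  omega

/-- `2|A| - |B| = |T| - 2 |T_odd|` -/
theorem ab_T (n : ℕ) (h8 : n % 8 = 1) :
    2 * ((A n).ncard : ℤ) - (B n).ncard = (Ts n).ncard
      - 2 * {v | v ∈ Ts n ∧ (v.2.1 + v.2.2) % 2 = 1}.ncard := by
  have hB := Bs_fin n
  have hT := Ts_fin n
  have e1 := card_split (Bs n) hB (fun v => (v.1 + v.2.2) % 2 = 0)
  have f1 : {v | v ∈ Bs n ∧ (v.1 + v.2.2) % 2 = 0}.Finite := hB.subset (fun v h => h.1)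
  have f2 : {v | v ∈ Bs n ∧ ¬ (v.1 + v.2.2) % 2 = 0}.Finite := hB.subset (fun v h => h.1)
  have f3 : {v | v ∈ Bs n ∧ v.2.2 % 2 = 0}.Finite := hB.subset (fun v h => h.1)
  have e2 := card_dbl {v | v ∈ Bs n ∧ ¬ (v.1 + v.2.2) % 2 = 0} f2 (fun v => v.2.2 % 2 = 0)
    (fun v => (v.2.2, v.2.1, v.1)) (fun _ => rfl) (by
      rintro ⟨x, y, z⟩ ⟨h, h2⟩
      have h : (n : ℤ) = y ^ 2 + 8 * x ^ 2 + 8 * z ^ 2 := h
      have h2 : ¬ (x + z) % 2 = 0 := h2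
      refine ⟨?_, ?_⟩
      · show (n : ℤ) = y ^ 2 + 8 * z ^ 2 + 8 * x ^ 2
        linarith
      · show ¬ (z + x) % 2 = 0
        omega) (by
      rintro ⟨x, y, z⟩ ⟨h, h2⟩
      have h2 : ¬ (x + z) % 2 = 0 := h2
      show x % 2 = 0 ↔ ¬ z % 2 = 0
      omega)
  have e3 := card_split {v | v ∈ Bs n ∧ (v.1 + v.2.2) % 2 = 0} f1 (fun v => v.2.2 % 2 = 0)
  have e4 := card_split {v | v ∈ Bs n ∧ v.2.2 % 2 = 0} f3 (fun v => (v.1 + v.2.2) % 2 = 0)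
  have e5 := card_split (Ts n) hT (fun v => (v.2.1 + v.2.2) % 2 = 0)
  have e6 := card_rot n 0
  have e7 := card_rot n 1
  have s1 : {x | x ∈ {v | v ∈ Bs n ∧ (v.1 + v.2.2) % 2 = 0} ∧ x.2.2 % 2 = 0} =
    {v | (v ∈ Bs n ∧ (v.1 + v.2.2) % 2 = 0) ∧ v.2.2 % 2 = 0} := rfl
  have s2 : {x | x ∈ {v | v ∈ Bs n ∧ (v.1 + v.2.2) % 2 = 0} ∧ ¬ x.2.2 % 2 = 0} =
    {v | (v ∈ Bs n ∧ (v.1 + v.2.2) % 2 = 0) ∧ v.2.2 % 2 = 1} := by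
    ext ⟨x, y, z⟩
    constructor
    · rintro ⟨h, h2⟩
      refine ⟨h, ?_⟩
      have h2 : ¬ z % 2 = 0 := h2
      show z % 2 = 1
      omega
    · rintro ⟨h, h2⟩
      refine ⟨h, ?_⟩
      have h2 : z % 2 = 1 := h2
      show ¬ z % 2 = 0
      omega
  have s3 : {x | x ∈ {v | v ∈ Bs n ∧ v.2.2 % 2 = 0} ∧ (x.1 + x.2.2) % 2 = 0} =
    {v | (v ∈ Bs n ∧ (v.1 + v.2.2) % 2 = 0) ∧ v.2.2 % 2 = 0} := by
    ext v
    constructor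
    · rintro ⟨⟨h, h2⟩, h3⟩; exact ⟨⟨h, h3⟩, h2⟩
    · rintro ⟨⟨h, h2⟩, h3⟩; exact ⟨⟨h, h3⟩, h2⟩
  have s4 : {x | x ∈ {v | v ∈ Bs n ∧ v.2.2 % 2 = 0} ∧ ¬ (x.1 + x.2.2) % 2 = 0} =
    {x | x ∈ {v | v ∈ Bs n ∧ ¬ (v.1 + v.2.2) % 2 = 0} ∧ x.2.2 % 2 = 0} := by
    ext v
    constructor
    · rintro ⟨⟨h, h2⟩, h3⟩; exact ⟨⟨h, h3⟩, h2⟩
    · rintro ⟨⟨h, h2⟩, h3⟩; exact ⟨⟨h, h3⟩, h2⟩
  have s5 : {x | x ∈ Ts n ∧ ¬ (x.2.1 + x.2.2) % 2 = 0} =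
    {v | v ∈ Ts n ∧ (v.2.1 + v.2.2) % 2 = 1} := by
    ext ⟨x, y, z⟩
    constructor
    · rintro ⟨h, h2⟩
      refine ⟨h, ?_⟩
      have h2 : ¬ (y + z) % 2 = 0 := h2
      show (y + z) % 2 = 1
      omega
    · rintro ⟨h, h2⟩
      refine ⟨h, ?_⟩
      have h2 : (y + z) % 2 = 1 := h2
      show ¬ (y + z) % 2 = 0
      omega
  rw [s1, s2, e6, e7] at e3
  rw [s3, s4, e6] at e4
  rw [s5] at e5
  have hA := card_A n h8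
  have hB' := card_B n h8
  omega

/-- **Q7** -/
theorem T_odd (n : ℕ) (h8 : n % 8 = 1) :
    ∃ N : ℤ, ({v | v ∈ Ts n ∧ (v.2.1 + v.2.2) % 2 = 1}.ncard : ℤ) = 16 * N +
      8 * Nat.card {p : ℕ × ℕ // 0 < p.1 ∧ 0 < p.2 ∧ p.2 % 2 = 1 ∧ n = p.1 ^ 2 + 16 * p.2 ^ 2} := by
  have hT := Ts_fin n
  have hy : ∀ y u v : ℤ, (n : ℤ) = y ^ 2 + 16 * (u ^ 2 + v ^ 2) → y ≠ 0 := by
    rintro y u v h rfl
    have : (n : ℤ) = 2 * (8 * (u ^ 2 + v ^ 2)) := by linarith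
    omega
  -- first: choose which one is even
  have f1 : {v | v ∈ Ts n ∧ (v.2.1 + v.2.2) % 2 = 1}.Finite := hT.subset (fun v h => h.1)
  have e1 := card_dbl {v | v ∈ Ts n ∧ (v.2.1 + v.2.2) % 2 = 1} f1 (fun v => v.2.1 % 2 = 0)
    (fun v => (v.1, v.2.2, v.2.1)) (fun _ => rfl) (by
      rintro ⟨y, u, v⟩ ⟨h, h2⟩
      have h : (n : ℤ) = y ^ 2 + 16 * (u ^ 2 + v ^ 2) := h
      have h2 : (u + v) % 2 = 1 := h2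
      refine ⟨?_, ?_⟩
      · show (n : ℤ) = y ^ 2 + 16 * (v ^ 2 + u ^ 2)
        linarith
      · show (v + u) % 2 = 1
        omega) (by
      rintro ⟨y, u, v⟩ ⟨h, h2⟩
      have h2 : (u + v) % 2 = 1 := h2
      show v % 2 = 0 ↔ ¬ u % 2 = 0
      omega)
  set W : Set (ℤ × ℤ × ℤ) := {v | (n : ℤ) = v.1 ^ 2 + 16 * (v.2.1 ^ 2 + v.2.2 ^ 2) ∧ v.2.1 % 2 = 0 ∧ v.2.2 % 2 = 1}
    with hW
  have s1 : {x | x ∈ {v | v ∈ Ts n ∧ (v.2.1 + v.2.2) % 2 = 1} ∧ x.2.1 % 2 = 0} = W := by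
    ext ⟨y, u, v⟩
    constructor
    · rintro ⟨⟨h, h2⟩, h3⟩
      have h2 : (u + v) % 2 = 1 := h2
      have h3 : u % 2 = 0 := h3
      refine ⟨h, h3, ?_⟩
      show v % 2 = 1
      omega
    · rintro ⟨h, h2, h3⟩
      have h2 : u % 2 = 0 := h2
      have h3 : v % 2 = 1 := h3
      refine ⟨⟨h, ?_⟩, h2⟩
      show (u + v) % 2 = 1
      omega
  rw [s1] at e1
  have fW : W.Finite := hT.subset (fun v h => h.1)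
  -- sign of y
  have e2 := card_dbl W fW (fun v => 0 < v.1) (fun v => (-v.1, v.2.1, v.2.2)) (by
      rintro ⟨y, u, v⟩; simp) (by
      rintro ⟨y, u, v⟩ ⟨h, h2, h3⟩
      have h : (n : ℤ) = y ^ 2 + 16 * (u ^ 2 + v ^ 2) := h
      refine ⟨?_, h2, h3⟩
      show (n : ℤ) = (-y) ^ 2 + 16 * (u ^ 2 + v ^ 2)
      linarith) (by
      rintro ⟨y, u, v⟩ ⟨h, h2, h3⟩
      have := hy y u v h
      show 0 < -y ↔ ¬ 0 < y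
      omega)
  have f2 : {x | x ∈ W ∧ 0 < x.1}.Finite := fW.subset (fun v h => h.1)
  -- sign of v
  have e3 := card_dbl {x | x ∈ W ∧ 0 < x.1} f2 (fun v => 0 < v.2.2) (fun v => (v.1, v.2.1, -v.2.2)) (by
      rintro ⟨y, u, v⟩; simp) (by
      rintro ⟨y, u, v⟩ ⟨⟨h, h2, h3⟩, h4⟩
      have h : (n : ℤ) = y ^ 2 + 16 * (u ^ 2 + v ^ 2) := h
      have h3 : v % 2 = 1 := h3
      refine ⟨⟨?_, h2, ?_⟩, h4⟩
      · show (n : ℤ) = y ^ 2 + 16 * (u ^ 2 + (-v) ^ 2)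
        linarith
      · show (-v) % 2 = 1
        omega) (by
      rintro ⟨y, u, v⟩ ⟨⟨h, h2, h3⟩, h4⟩
      have h3 : v % 2 = 1 := h3
      show 0 < -v ↔ ¬ 0 < v
      omega)
  set V : Set (ℤ × ℤ × ℤ) := {x | x ∈ {x | x ∈ W ∧ 0 < x.1} ∧ 0 < x.2.2} with hV
  have fV : V.Finite := f2.subset (fun v h => h.1)
  have e4 := card_split V fV (fun v => v.2.1 = 0)
  have f4 : {x | x ∈ V ∧ ¬ x.2.1 = 0}.Finite := fV.subset (fun v h => h.1)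
  have e5 := card_dbl {x | x ∈ V ∧ ¬ x.2.1 = 0} f4 (fun v => 0 < v.2.1)
    (fun v => (v.1, -v.2.1, v.2.2)) (by
      rintro ⟨y, u, v⟩; simp) (by
      rintro ⟨y, u, v⟩ ⟨⟨⟨⟨h, h2, h3⟩, h4⟩, h5⟩, h6⟩
      have h : (n : ℤ) = y ^ 2 + 16 * (u ^ 2 + v ^ 2) := h
      have h2 : u % 2 = 0 := h2
      have h6 : ¬ u = 0 := h6
      refine ⟨⟨⟨⟨?_, ?_, h3⟩, h4⟩, h5⟩, ?_⟩
      · show (n : ℤ) = y ^ 2 + 16 * ((-u) ^ 2 + v ^ 2)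
        linarith
      · show (-u) % 2 = 0
        omega
      · show ¬ (-u) = 0
        omega) (by
      rintro ⟨y, u, v⟩ ⟨_, h6⟩
      have h6 : ¬ u = 0 := h6
      show 0 < -u ↔ ¬ 0 < u
      omega)
  have s2 : {x | x ∈ V ∧ x.2.1 = 0} = (fun p : ℕ × ℕ => ((p.1 : ℤ), (0 : ℤ), (p.2 : ℤ))) ''
      {p : ℕ × ℕ | 0 < p.1 ∧ 0 < p.2 ∧ p.2 % 2 = 1 ∧ n = p.1 ^ 2 + 16 * p.2 ^ 2} := by
    ext ⟨y, u, v⟩
    constructor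
    · rintro ⟨⟨⟨⟨h, h2, h3⟩, h4⟩, h5⟩, h6⟩
      have h : (n : ℤ) = y ^ 2 + 16 * (u ^ 2 + v ^ 2) := h
      have h3 : v % 2 = 1 := h3
      have h4 : 0 < y := h4
      have h5 : 0 < v := h5
      have h6 : u = 0 := h6
      subst h6
      obtain ⟨y', rfl⟩ := Int.eq_ofNat_of_zero_le h4.le
      obtain ⟨v', rfl⟩ := Int.eq_ofNat_of_zero_le h5.le
      refine ⟨(y', v'), ⟨?_, ?_, ?_, ?_⟩, rfl⟩
      · show 0 < y'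
        omega
      · show 0 < v'
        omega
      · show v' % 2 = 1
        omega
      · show n = y' ^ 2 + 16 * v' ^ 2
        have : (n : ℤ) = ((y' ^ 2 + 16 * v' ^ 2 : ℕ) : ℤ) := by push_cast; linarith
        exact_mod_cast this
    · rintro ⟨⟨y', v'⟩, ⟨h1, h2, h3, h4⟩, he⟩
      have h1 : 0 < y' := h1
      have h2 : 0 < v' := h2
      have h3 : v' % 2 = 1 := h3
      have h4 : n = y' ^ 2 + 16 * v' ^ 2 := h4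
      simp only [Prod.mk.injEq] at he
      obtain ⟨rfl, rfl, rfl⟩ := he
      refine ⟨⟨⟨⟨?_, ?_, ?_⟩, ?_⟩, ?_⟩, rfl⟩
      · show (n : ℤ) = (y' : ℤ) ^ 2 + 16 * ((0 : ℤ) ^ 2 + (v' : ℤ) ^ 2)
        rw [h4]; push_cast; ring
      · show (0 : ℤ) % 2 = 0
        rfl
      · show (v' : ℤ) % 2 = 1
        omega
      · show (0 : ℤ) < y'
        omega
      · show (0 : ℤ) < v'
        omega
  have e6 : {x | x ∈ V ∧ x.2.1 = 0}.ncard =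
      Nat.card {p : ℕ × ℕ // 0 < p.1 ∧ 0 < p.2 ∧ p.2 % 2 = 1 ∧ n = p.1 ^ 2 + 16 * p.2 ^ 2} := by
    rw [s2, Set.ncard_image_of_injective]
    · rfl
    · rintro ⟨a, b⟩ ⟨a', b'⟩ he
      simp only [Prod.mk.injEq] at he ⊢
      omega
  refine ⟨({x | x ∈ {x | x ∈ V ∧ ¬ x.2.1 = 0} ∧ 0 < x.2.1}.ncard : ℤ) , ?_⟩
  rw [← e6]
  omega

/-- **Q7**, final form -/
theorem a32 (n : ℕ) [NeZero n] (hs : Squarefree n) (h8 : n % 8 = 1) (h1 : 1 < n)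
    (hne : ∃ x y z : ℤ, x ^ 2 + y ^ 2 + z ^ 2 = n) :
    ∃ N : ℤ, 2 * ((A n).ncard : ℤ) - ((B n).ncard : ℤ) =
      2 * (Nat.card (ClassGroup (Zsqrtd (-(n : ℤ)))) : ℤ) - 32 * N -
      16 * (Nat.card {p : ℕ × ℕ // 0 < p.1 ∧ 0 < p.2 ∧ p.2 % 2 = 1 ∧ n = p.1 ^ 2 + 16 * p.2 ^ 2} : ℤ) := by
  obtain ⟨N, hN⟩ := T_odd n h8
  have e1 := ab_T n h8
  have e2 := card_T n h8
  have e3 := half n hs h8 h1 hne
  refine ⟨N, ?_⟩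
  rw [e1, e2, e3, hN]
  push_cast
  ring

end Pool.Agent.TM32
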