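import Pool.Agent.Lib_helper51.TM32.Defs2
import Pool.Agent.Lib_helper37.TM32.Z4
import Pool.Agent.Lib_helper37.TM32.I1
import Pool.Agent.Lib_helper82.Quartic.Quad

/-!
TM32, block I2 (helper72): G8
-/

set_option autoImplicit false

namespace Pool.Agent.TM32

open Zsqrtd

/-! BEGIN STUBS (Z4, I1) -/

/-! END STUBS -/

theorem I2_neg {n : ℕ} (hn : n % 4 = 1) : jacobiSym (-1) n = 1 := by
  rw [jacobiSym.at_neg_one (Nat.odd_iff.2 (by omega)), ZMod.χ₄_nat_one_mod_four (by omega)]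

theorem I2_list {n : ℕ} (hn : n % 4 = 1) (L : List ℕ) (hL : ∀ l ∈ L, l.Prime) :
    jacobiSym ((L.prod : ℕ) : ℤ) n =
      jacobiSym 2 n ^ (L.count 2) *
      ((L.filter (fun l => l ≠ 2)).map (fun l => jacobiSym (n : ℤ) l)).prod := by
  induction L with
  | nil => simp
  | cons l L ih =>
    have h1 := ih fun x hx => hL x (List.mem_cons_of_mem _ hx)
    have hl : l.Prime := hL l List.mem_cons_self
    rw [List.prod_cons, Nat.cast_mul, jacobiSym.mul_left, h1]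
    by_cases h2 : l = 2
    · subst h2
      rw [List.filter_cons_of_neg (by simp), List.count_cons_self, pow_succ]
      push_cast
      ring
    · rw [List.filter_cons_of_pos (by simpa using h2), List.map_cons, List.prod_cons,
        List.count_cons_of_ne (by simpa using h2)]
      rw [jacobiSym.quadratic_reciprocity_one_mod_four' (hl.odd_of_ne_two h2) hn]
      ring

theorem I2_Q {n : ℕ} (hn : n % 4 = 1) {k : ℤ} (hk : k ≠ 0) :
    jacobiSym k n = jacobiSym 2 n ^ (padicValInt 2 k) * Lp k (fun l => jacobiSym (n : ℤ) l) := by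
  have h0 : k.natAbs ≠ 0 := Int.natAbs_ne_zero.2 hk
  have h1 : jacobiSym (k.natAbs : ℤ) n =
      jacobiSym 2 n ^ (padicValInt 2 k) * Lp k (fun l => jacobiSym (n : ℤ) l) := by
    have h2 := I2_list hn k.natAbs.primeFactorsList fun l hl => Nat.prime_of_mem_primeFactorsList hl
    rw [Nat.prod_primeFactorsList h0, Nat.primeFactorsList_count_eq,
      Nat.factorization_def _ Nat.prime_two] at h2
    exact h2
  rcases Int.natAbs_eq k with h | h
  · rw [← h1, ← h]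
  · rw [← h1]
    conv_lhs => rw [h]
    rw [← neg_one_mul, jacobiSym.mul_left, I2_neg hn, one_mul]

theorem I2_mul {k k' : ℤ} (hk : k ≠ 0) (hk' : k' ≠ 0) (f : ℕ → ℤ) :
    Lp (k * k') f = Lp k f * Lp k' f := by
  unfold Lp
  rw [Int.natAbs_mul, (((Nat.perm_primeFactorsList_mul (Int.natAbs_ne_zero.2 hk)
    (Int.natAbs_ne_zero.2 hk')).filter _).map f).prod_eq, List.filter_append, List.map_append,
    List.prod_append]

theorem I2_two (f : ℕ → ℤ) : Lp 2 f = 1 := by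
  unfold Lp
  have h : (2 : ℤ).natAbs = 2 := rfl
  rw [h, Nat.primeFactorsList_prime Nat.prime_two]
  simp

theorem I2_congr {k : ℤ} {f g : ℕ → ℤ}
    (h : ∀ l : ℕ, l.Prime → l ≠ 2 → (l : ℤ) ∣ k → f l = g l) : Lp k f = Lp k g := by
  unfold Lp
  congr 1
  refine List.map_congr_left fun l hl => ?_
  rw [List.mem_filter] at hl
  refine h l (Nat.prime_of_mem_primeFactorsList hl.1) (by simpa using hl.2) ?_
  exact Int.natCast_dvd.2 (Nat.dvd_of_mem_primeFactorsList hl.1)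

theorem I2_fun (k : ℤ) (f g : ℕ → ℤ) : Lp k f * Lp k g = Lp k (fun l => f l * g l) := by
  unfold Lp
  rw [List.prod_map_mul]

theorem I2_jac {l : ℕ} [Fact l.Prime] (a : ℤ) :
    jacobiSym a l = quadraticChar (ZMod l) (a : ZMod l) := by
  rw [← jacobiSym.legendreSym.to_jacobiSym]; rfl

/-- the identity at an odd prime `l ∣ H` -/
theorem I2_local {l : ℕ} (hl : l.Prime) (_hl2 : l ≠ 2) (a0 a1 b0 b1 e : ℤ)
    (hH : (l : ℤ) ∣ a0 * b1 - a1 * b0)
    (he : e = 8 * (b0 ^ 2 + b1 ^ 2) + (a0 ^ 2 + a1 ^ 2) - 4 * (a0 * b1 - a1 * b0))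
    (hel : ¬ (l : ℤ) ∣ e) :
    (if (l : ℤ) ∣ a0 ^ 2 + a1 ^ 2 then jacobiSym (b0 ^ 2 + b1 ^ 2) l
      else jacobiSym (a0 ^ 2 + a1 ^ 2) l) * jacobiSym e l =
    (if (l : ℤ) ∣ (a0 + a1) ^ 2 + 8 * (b0 + b1) ^ 2 then jacobiSym (a1 ^ 2 + 8 * b1 ^ 2) l
      else jacobiSym ((a0 + a1) ^ 2 + 8 * (b0 + b1) ^ 2) l) := by
  have : Fact l.Prime := ⟨hl⟩
  simp only [I2_jac]
  have cast0 : ∀ t : ℤ, (l : ℤ) ∣ t ↔ ((t : ℤ) : ZMod l) = 0 := fun t =>
    (ZMod.intCast_zmod_eq_zero_iff_dvd t l).symm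
  rw [cast0] at hH hel
  simp only [cast0]
  push_cast at hH hel ⊢
  have he' : ((e : ℤ) : ZMod l) = 8 * ((b0 : ZMod l) ^ 2 + (b1 : ZMod l) ^ 2)
      + ((a0 : ZMod l) ^ 2 + (a1 : ZMod l) ^ 2) := by
    rw [he]; push_cast
    linear_combination (-4) * hH
  rw [he'] at hel ⊢
  generalize (a0 : ZMod l) = x0 at *
  generalize (a1 : ZMod l) = x1 at *
  generalize (b0 : ZMod l) = y0 at *
  generalize (b1 : ZMod l) = y1 at *
  set χ := quadraticChar (ZMod l) with hχ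
  have sq1 : ∀ x : ZMod l, x ≠ 0 → χ (x ^ 2) = 1 := fun x hx => quadraticChar_sq_one' hx
  have sq2 : ∀ x : ZMod l, x ≠ 0 → χ x * χ x = 1 := fun x hx => by
    rw [← map_mul, ← pow_two]; exact sq1 x hx
  by_cases h0 : x0 = 0 ∧ x1 = 0
  · obtain ⟨rfl, rfl⟩ := h0
    have hy : y0 ^ 2 + y1 ^ 2 ≠ 0 := by
      intro h; apply hel; rw [h]; ring
    have e1 : ((0 : ZMod l) ^ 2 + 0 ^ 2 = 0) := by ring
    rw [if_pos e1]
    have e2 : 8 * (y0 ^ 2 + y1 ^ 2) + ((0 : ZMod l) ^ 2 + 0 ^ 2) = 8 * (y0 ^ 2 + y1 ^ 2) := by ring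
    rw [e2, map_mul, mul_comm (χ 8), ← mul_assoc, sq2 _ hy, one_mul]
    by_cases h1 : y0 + y1 = 0
    · have e3 : ((0 : ZMod l) + 0) ^ 2 + 8 * (y0 + y1) ^ 2 = 0 := by rw [h1]; ring
      rw [if_pos e3]
      have hy1 : y1 ≠ 0 := by
        rintro rfl
        apply hy
        rw [add_zero] at h1
        rw [h1]; ring
      have e4 : (0 : ZMod l) ^ 2 + 8 * y1 ^ 2 = 8 * y1 ^ 2 := by ring
      rw [e4, map_mul, sq1 _ hy1, mul_one]
    · have h8 : (8 : ZMod l) ≠ 0 := by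
        intro h8
        apply hel
        rw [h8]; ring
      have e3 : ((0 : ZMod l) + 0) ^ 2 + 8 * (y0 + y1) ^ 2 = 8 * (y0 + y1) ^ 2 := by ring
      have e5 : ¬ (((0 : ZMod l) + 0) ^ 2 + 8 * (y0 + y1) ^ 2 = 0) := by
        rw [e3]; exact mul_ne_zero h8 (pow_ne_zero 2 h1)
      rw [if_neg e5, e3, map_mul, sq1 _ h1, mul_one]
  · obtain ⟨t, ht0, ht1⟩ : ∃ t, y0 = t * x0 ∧ y1 = t * x1 := by
      by_cases hx0 : x0 = 0
      · have hx1 : x1 ≠ 0 := fun h => h0 ⟨hx0, h⟩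
        refine ⟨y1 / x1, ?_, ?_⟩
        · rw [hx0] at hH ⊢
          have : x1 * y0 = 0 := by linear_combination -hH
          rcases mul_eq_zero.1 this with h | h
          · exact absurd h hx1
          · rw [h]; ring
        · field_simp
      · refine ⟨y0 / x0, ?_, ?_⟩
        · field_simp
        · field_simp
          linear_combination hH
    subst ht0 ht1
    have e1 : 8 * ((t * x0) ^ 2 + (t * x1) ^ 2) + (x0 ^ 2 + x1 ^ 2)
        = (1 + 8 * t ^ 2) * (x0 ^ 2 + x1 ^ 2) := by ring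
    rw [e1] at hel ⊢
    have hn : x0 ^ 2 + x1 ^ 2 ≠ 0 := fun h => hel (by rw [h]; ring)
    have ht : 1 + 8 * t ^ 2 ≠ 0 := fun h => hel (by rw [h]; ring)
    rw [if_neg hn, map_mul, mul_comm (χ (1 + 8 * t ^ 2)), ← mul_assoc, sq2 _ hn, one_mul]
    have e2 : (x0 + x1) ^ 2 + 8 * (t * x0 + t * x1) ^ 2 = (1 + 8 * t ^ 2) * (x0 + x1) ^ 2 := by ring
    have e3 : x1 ^ 2 + 8 * (t * x1) ^ 2 = (1 + 8 * t ^ 2) * x1 ^ 2 := by ring
    rw [e2, e3]
    by_cases h1 : x0 + x1 = 0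
    · rw [if_pos (by rw [h1]; ring)]
      have hx1 : x1 ≠ 0 := by
        rintro rfl
        apply h0
        rw [add_zero] at h1
        exact ⟨h1, rfl⟩
      rw [map_mul, sq1 _ hx1, mul_one]
    · rw [if_neg (mul_ne_zero ht (pow_ne_zero 2 h1)), map_mul, sq1 _ h1, mul_one]

/-- coprimality of the two elements of `ℤ[√-2]` -/
theorem I2_cop {a0 a1 b0 b1 H e : ℤ} (hodd : (a0 + a1) % 2 = 1) (hH : H = a0 * b1 - a1 * b0)
    (he : e = 8 * (b0 ^ 2 + b1 ^ 2) + (a0 ^ 2 + a1 ^ 2) - 4 * H) (hc : IsCoprime e H) :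
    IsCoprime (⟨a1, 2 * b1⟩ : Zs) ⟨a0 + a1, 2 * (b0 + b1)⟩ := by
  apply isCoprime_of_prime_dvd
  · rintro ⟨-, h2⟩
    have := congrArg Zsqrtd.re h2
    simp at this
    omega
  · intro π hπ h1 h2
    -- a rational prime
    have hNne : π.norm.natAbs ≠ 0 := by
      intro h
      have h3 : π.norm = 0 := Int.natAbs_eq_zero.1 h
      exact hπ.ne_zero ((Zsqrtd.norm_eq_zero_iff (by norm_num) π).1 h3)
    have hdN : π ∣ ((π.norm.natAbs : ℕ) : Zs) := by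
      have h3 : π ∣ ((π.norm : ℤ) : Zs) := ⟨star π, Zsqrtd.norm_eq_mul_conj π⟩
      rcases Int.natAbs_eq π.norm with h4 | h4
      · rw [h4] at h3
        simpa using h3
      · rw [h4] at h3
        simpa using h3
    obtain ⟨l, hl, hπl⟩ : ∃ l : ℕ, l.Prime ∧ π ∣ ((l : ℤ) : Zs) := by
      have h3 : π ∣ (((π.norm.natAbs.primeFactorsList.map (fun l : ℕ => (l : Zs))).prod)) := by
        have h4 : ((π.norm.natAbs.primeFactorsList.map (fun l : ℕ => (l : Zs))).prod)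
            = ((π.norm.natAbs : ℕ) : Zs) := by
          rw [← Nat.prod_primeFactorsList hNne]
          rw [Nat.prod_primeFactorsList hNne]
          conv_rhs => rw [← Nat.prod_primeFactorsList hNne]
          rw [Nat.cast_list_prod]
        rw [h4]; exact hdN
      rw [Prime.dvd_prod_iff hπ] at h3
      obtain ⟨x, hx, hx2⟩ := h3
      obtain ⟨l, hl, rfl⟩ := List.mem_map.1 hx
      exact ⟨l, Nat.prime_of_mem_primeFactorsList hl, by simpa using hx2⟩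
    have hlP : Prime (l : ℤ) := Nat.prime_iff_prime_int.1 hl
    have hint : ∀ t : ℤ, π ∣ (t : Zs) → (l : ℤ) ∣ t := by
      intro t ht
      by_contra hlt
      have hco : IsCoprime (l : ℤ) t := (hlP.coprime_iff_not_dvd).2 hlt
      obtain ⟨u, v, huv⟩ := hco
      have h3 : π ∣ ((1 : ℤ) : Zs) := by
        rw [← huv]
        push_cast
        exact dvd_add (Dvd.dvd.mul_left (by simpa using hπl) _) (Dvd.dvd.mul_left ht _)
      rw [Int.cast_one] at h3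
      exact hπ.not_isUnit (isUnit_of_dvd_one h3)
    -- l odd
    have hN : (l : ℤ) ∣ (a0 + a1) ^ 2 + 8 * (b0 + b1) ^ 2 := by
      apply hint
      have h3 : (((a0 + a1) ^ 2 + 8 * (b0 + b1) ^ 2 : ℤ) : Zs)
          = (⟨a0 + a1, 2 * (b0 + b1)⟩ : Zs) * ⟨a0 + a1, -(2 * (b0 + b1))⟩ := by
        apply Zsqrtd.ext
        · rw [Zsqrtd.re_mul, Zsqrtd.re_intCast]; ring
        · rw [Zsqrtd.im_mul, Zsqrtd.im_intCast]; ring
      rw [h3]
      exact h2.mul_right _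
    have hl2 : l ≠ 2 := by
      rintro rfl
      obtain ⟨c, hc'⟩ := hN
      obtain ⟨d, hd⟩ : ∃ d, a0 + a1 = 2 * d + 1 := ⟨(a0 + a1) / 2, by omega⟩
      rw [hd] at hc'
      have : 2 * (2 * d ^ 2 + 2 * d + 4 * (b0 + b1) ^ 2) + 1 = 2 * c := by
        push_cast at hc'; linarith
      omega
    have hH2 : (l : ℤ) ∣ H := by
      have h3 : (l : ℤ) ∣ 2 * H := by
        apply hint
        have h4 : ((2 * H : ℤ) : Zs) = (⟨a0 + a1, 2 * (b0 + b1)⟩ : Zs) * ((2 * b1 : ℤ) : Zs)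
            - (⟨a1, 2 * b1⟩ : Zs) * ((2 * (b0 + b1) : ℤ) : Zs) := by
          apply Zsqrtd.ext
          · rw [Zsqrtd.re_sub, Zsqrtd.re_mul, Zsqrtd.re_mul, Zsqrtd.re_intCast, Zsqrtd.re_intCast,
              Zsqrtd.re_intCast, Zsqrtd.im_intCast, Zsqrtd.im_intCast, hH]; ring
          · rw [Zsqrtd.im_sub, Zsqrtd.im_mul, Zsqrtd.im_mul, Zsqrtd.re_intCast, Zsqrtd.re_intCast,
              Zsqrtd.im_intCast, Zsqrtd.im_intCast, Zsqrtd.im_intCast]; ring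
        rw [h4]
        exact dvd_sub (h2.mul_right _) (h1.mul_right _)
      rcases hlP.dvd_or_dvd h3 with h4 | h4
      · exfalso
        have h5 : l ∣ 2 := by exact_mod_cast h4
        exact hl2 ((Nat.prime_dvd_prime_iff_eq hl Nat.prime_two).1 h5)
      · exact h4
    have he2 : (l : ℤ) ∣ e := by
      have h3 : (l : ℤ) ∣ (a0 ^ 2 + 8 * b0 ^ 2) + (a1 ^ 2 + 8 * b1 ^ 2) := by
        apply dvd_add
        · apply hint
          have h4 : ((a0 ^ 2 + 8 * b0 ^ 2 : ℤ) : Zs) =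
              ((⟨a0 + a1, 2 * (b0 + b1)⟩ : Zs) - ⟨a1, 2 * b1⟩) * ⟨a0, -(2 * b0)⟩ := by
            apply Zsqrtd.ext
            · rw [Zsqrtd.re_mul, Zsqrtd.re_intCast, Zsqrtd.re_sub, Zsqrtd.im_sub]; ring
            · rw [Zsqrtd.im_mul, Zsqrtd.im_intCast, Zsqrtd.re_sub, Zsqrtd.im_sub]; ring
          rw [h4]
          exact (dvd_sub h2 h1).mul_right _
        · apply hint
          have h4 : ((a1 ^ 2 + 8 * b1 ^ 2 : ℤ) : Zs) = (⟨a1, 2 * b1⟩ : Zs) * ⟨a1, -(2 * b1)⟩ := by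
            apply Zsqrtd.ext
            · rw [Zsqrtd.re_mul, Zsqrtd.re_intCast]; ring
            · rw [Zsqrtd.im_mul, Zsqrtd.im_intCast]; ring
          rw [h4]
          exact h1.mul_right _
      have h5 : e = (a0 ^ 2 + 8 * b0 ^ 2) + (a1 ^ 2 + 8 * b1 ^ 2) - 4 * H := by rw [he]; ring
      rw [h5]
      exact dvd_sub h3 (hH2.mul_left _)
    exact hlP.not_isUnit (hc.isUnit_of_dvd' he2 hH2)

open Pool.Agent.Quartic82 in
theorem G8 {α β : GaussianInt} (hα : Od α) (h : IsCoprime β α) (H e : ℤ)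
    (hH : H = α.re * β.im - α.im * β.re) (h0 : H ≠ 0)
    (he : e = 8 * β.norm + α.norm - 4 * H) (hc : IsCoprime e H) :
    Q2 β α * ((jacobiSym H e.natAbs : ℤ) : GaussianInt) =
      ((qs ⟨α.im, 2 * β.im⟩ ⟨α.re + α.im, 2 * (β.re + β.im)⟩ *
        (if α.im % 4 = 2 then -1 else 1) : ℤ) : GaussianInt) := by
  obtain ⟨a0, a1⟩ := α
  obtain ⟨b0, b1⟩ := β
  simp only at hH
  have hna : (⟨a0, a1⟩ : GaussianInt).norm = a0 ^ 2 + a1 ^ 2 := by
    rw [Zsqrtd.norm_def]; ring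
  have hnb : (⟨b0, b1⟩ : GaussianInt).norm = b0 ^ 2 + b1 ^ 2 := by
    rw [Zsqrtd.norm_def]; ring
  have hα' : (a0 ^ 2 + a1 ^ 2) % 2 = 1 := by
    have : (⟨a0, a1⟩ : GaussianInt).norm % 2 = 1 := hα
    rw [hna] at this; exact this
  rw [hna, hnb] at he
  have hodd : (a0 + a1) % 2 = 1 ∧ (a0 ^ 2 + a1 ^ 2) % 4 = 1 := by
    rcases Int.even_or_odd' a0 with ⟨c, rfl | rfl⟩ <;> rcases Int.even_or_odd' a1 with ⟨d, rfl | rfl⟩
    · exfalso
      have : (2 * c) ^ 2 + (2 * d) ^ 2 = 2 * (2 * c ^ 2 + 2 * d ^ 2) := by ring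
      omega
    · refine ⟨by omega, ?_⟩
      have : (2 * c) ^ 2 + (2 * d + 1) ^ 2 = 4 * (c ^ 2 + d ^ 2 + d) + 1 := by ring
      omega
    · refine ⟨by omega, ?_⟩
      have : (2 * c + 1) ^ 2 + (2 * d) ^ 2 = 4 * (c ^ 2 + d ^ 2 + c) + 1 := by ring
      omega
    · exfalso
      have : (2 * c + 1) ^ 2 + (2 * d + 1) ^ 2 = 2 * (2 * c ^ 2 + 2 * d ^ 2 + 2 * c + 2 * d + 1) := by
        ring
      omega
  -- e is positive and 1 mod 4
  have he4 : e % 4 = 1 := by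
    have : e = 4 * (2 * (b0 ^ 2 + b1 ^ 2) - H) + (a0 ^ 2 + a1 ^ 2) := by rw [he]; ring
    omega
  have hepos : 0 < e := by
    have h1 : e = (2 * b0 + a1) ^ 2 + (2 * b1 - a0) ^ 2 + 4 * (b0 ^ 2 + b1 ^ 2) := by
      rw [he, hH]; ring
    have h2 : 0 ≤ e := by rw [h1]; positivity
    omega
  obtain ⟨n, rfl⟩ := Int.eq_ofNat_of_zero_le hepos.le
  have hn4 : n % 4 = 1 := by omega
  have hcopA := I2_cop hodd.1 hH he hc
  have hk2 : (⟨a0 + a1, 2 * (b0 + b1)⟩ : Zs).re * (⟨a1, 2 * b1⟩ : Zs).im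
      - (⟨a0 + a1, 2 * (b0 + b1)⟩ : Zs).im * (⟨a1, 2 * b1⟩ : Zs).re = 2 * H := by
    rw [hH]; ring
  have hY := lemY (x := ⟨a1, 2 * b1⟩) (A := ⟨a0 + a1, 2 * (b0 + b1)⟩)
    ⟨hodd.1, by show (2 * (b0 + b1)) % 2 = 0; omega⟩ hcopA (by
      rw [hk2]; exact mul_ne_zero two_ne_zero h0)
  have hZ := lemZ (x := ⟨b0, b1⟩) (α := ⟨a0, a1⟩) hα h (by
    show a0 * b1 - a1 * b0 ≠ 0
    rw [← hH]; exact h0)
  rw [hk2, I2_mul two_ne_zero h0, I2_two, one_mul] at hY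
  have hNA : (⟨a0 + a1, 2 * (b0 + b1)⟩ : Zs).norm = (a0 + a1) ^ 2 + 8 * (b0 + b1) ^ 2 := by
    rw [Zsqrtd.norm_def]; ring
  have hNB : (⟨a1, 2 * b1⟩ : Zs).norm = a1 ^ 2 + 8 * b1 ^ 2 := by
    rw [Zsqrtd.norm_def]; ring
  rw [hNA, hNB] at hY
  have hk3 : (⟨a0, a1⟩ : GaussianInt).re * (⟨b0, b1⟩ : GaussianInt).im
      - (⟨a0, a1⟩ : GaussianInt).im * (⟨b0, b1⟩ : GaussianInt).re = H := by rw [hH]
  rw [hk3, hna, hnb] at hZ
  rw [hZ, hY, Int.natAbs_natCast, I2_Q hn4 h0, ← Int.cast_mul]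
  congr 1
  show (if a1 % 4 = 2 then (-1 : ℤ) else 1) * _ * _ * _ = _ * (if a1 % 4 = 2 then (-1 : ℤ) else 1)
  have hloc : Lp H (fun l => if (l : ℤ) ∣ a0 ^ 2 + a1 ^ 2 then jacobiSym (b0 ^ 2 + b1 ^ 2) l
      else jacobiSym (a0 ^ 2 + a1 ^ 2) l) * Lp H (fun l => jacobiSym ((n : ℕ) : ℤ) l) =
      Lp H (fun l => if (l : ℤ) ∣ (a0 + a1) ^ 2 + 8 * (b0 + b1) ^ 2 then
        jacobiSym (a1 ^ 2 + 8 * b1 ^ 2) l else jacobiSym ((a0 + a1) ^ 2 + 8 * (b0 + b1) ^ 2) l) := by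
    rw [I2_fun]
    apply I2_congr
    intro l hl hl2 hlH
    apply I2_local hl hl2 a0 a1 b0 b1 n (by rw [← hH]; exact hlH) (by rw [← hH]; exact he)
    intro hle
    exact (Nat.prime_iff_prime_int.1 hl).not_isUnit (hc.isUnit_of_dvd' hle hlH)
  have hpow : jacobiSym 2 (a0 ^ 2 + a1 ^ 2).natAbs ^ (padicValInt 2 H) *
      jacobiSym 2 n ^ (padicValInt 2 H) = 1 := by
    by_cases hv : padicValInt 2 H = 0
    · rw [hv]; simp
    · have h2H : (2 : ℤ) ∣ H := by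
        by_contra h2
        exact hv (padicValInt.eq_zero_of_not_dvd h2)
      obtain ⟨H', hH'⟩ := h2H
      have h8 : ((a0 ^ 2 + a1 ^ 2).natAbs : ℤ) % 8 = (n : ℤ) % 8 := by
        have h3 : 0 ≤ a0 ^ 2 + a1 ^ 2 := by positivity
        rw [Int.natAbs_of_nonneg h3]
        have h4 : (n : ℤ) = 8 * (b0 ^ 2 + b1 ^ 2 - H') + (a0 ^ 2 + a1 ^ 2) := by
          rw [he, hH']; ring
        rw [h4]; omega
      have h8' : (a0 ^ 2 + a1 ^ 2).natAbs % 8 = n % 8 := by exact_mod_cast h8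
      have h9 : jacobiSym 2 (a0 ^ 2 + a1 ^ 2).natAbs = jacobiSym 2 n := by
        rw [jacobiSym.at_two (Nat.odd_iff.2 (by omega)), jacobiSym.at_two (Nat.odd_iff.2 (by omega))]
        rw [ZMod.χ₈_nat_eq_if_mod_eight, ZMod.χ₈_nat_eq_if_mod_eight, h8']
        have : (a0 ^ 2 + a1 ^ 2).natAbs % 2 = n % 2 := by omega
        rw [this]
      rw [h9, ← mul_pow, ← pow_two, jacobiSym.sq_one, one_pow]
      rw [Int.gcd_comm]
      have : ((2 : ℤ).natAbs).Coprime n := by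
        show Nat.Coprime 2 n
        rw [Nat.coprime_two_left, Nat.odd_iff]; omega
      rw [Int.gcd_comm]
      exact this
  rw [← hloc]
  generalize Lp H (fun l => if (l : ℤ) ∣ a0 ^ 2 + a1 ^ 2 then jacobiSym (b0 ^ 2 + b1 ^ 2) l
      else jacobiSym (a0 ^ 2 + a1 ^ 2) l) = P1
  generalize Lp H (fun l => jacobiSym ((n : ℕ) : ℤ) l) = P2
  linear_combination ((if a1 % 4 = 2 then (-1 : ℤ) else 1) * P1 * P2) * hpow

end Pool.Agent.TM32
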