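import Mathlib
import Pool.Agent.Lib_helper72.TM32.K1a
set_option autoImplicit false
namespace Pool.Agent.TM32

open scoped nonZeroDivisors

/-- the number theory of `m² = a² + p b²` -/
theorem pell_shape {p : ℕ} (hp : p.Prime) (hp2 : p % 2 = 1) (m a b : ℤ) (hm : 0 < m)
    (hm2 : m % 2 = 1) (hmp : ¬ (p : ℤ) ∣ m) (h : m ^ 2 = a ^ 2 + p * b ^ 2)
    (hab : IsCoprime a b) :
    (∃ u v : ℤ, (a = u ^ 2 - p * v ^ 2 ∧ b = 2 * u * v) ∨
      (-a = u ^ 2 - p * v ^ 2 ∧ -b = 2 * u * v)) ∨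
    (∃ u v : ℤ, (2 * a = u ^ 2 - p * v ^ 2 ∧ 2 * b = 2 * u * v) ∨
      (-(2 * a) = u ^ 2 - p * v ^ 2 ∧ -(2 * b) = 2 * u * v)) := by
  have hpP : Prime (p : ℤ) := Nat.prime_iff_prime_int.1 hp
  -- coprimality of m and a
  have hma : IsCoprime m a := by
    rw [Int.isCoprime_iff_gcd_eq_one]
    show Nat.Coprime m.natAbs a.natAbs
    apply Nat.Coprime.symm
    apply Nat.coprime_of_dvd
    intro q hq h1 h2
    have hqP : Prime (q : ℤ) := Nat.prime_iff_prime_int.1 hq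
    have h1' : (q : ℤ) ∣ a := Int.natCast_dvd.2 h1
    have h2' : (q : ℤ) ∣ m := Int.natCast_dvd.2 h2
    have h3 : (q : ℤ) ∣ p * b ^ 2 := by
      have : (p : ℤ) * b ^ 2 = m * m - a * a := by linear_combination -h
      rw [this]
      exact dvd_sub (h2'.mul_right _) (h1'.mul_right _)
    rcases hqP.dvd_or_dvd h3 with h4 | h4
    · have h5 : q = p := (Nat.prime_dvd_prime_iff_eq hq hp).1 (by exact_mod_cast h4)
      rw [h5] at h2'; exact hmp h2'
    · have h5 := hqP.dvd_of_dvd_pow h4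
      exact hqP.not_isUnit (hab.isUnit_of_dvd' h1' h5)
  have hnp := h
  obtain ⟨p', hp'⟩ : ∃ p' : ℤ, (p : ℤ) = 2 * p' + 1 := ⟨(p / 2 : ℕ), by omega⟩
  obtain ⟨m', hm'⟩ : ∃ m', m = 2 * m' + 1 := ⟨m / 2, by omega⟩
  -- general splitting lemma
  have split : ∀ x y c : ℤ, IsCoprime x y → x * y = p * c ^ 2 → 0 ≤ x → 0 ≤ y →
      (∃ u v : ℤ, x = u ^ 2 ∧ y = p * v ^ 2 ∧ c = u * v) ∨
      (∃ u v : ℤ, x = p * v ^ 2 ∧ y = u ^ 2 ∧ c = u * v) := by
    have aux : ∀ x y c : ℤ, IsCoprime x y → x * y = p * c ^ 2 → 0 ≤ x → 0 ≤ y → (p : ℤ) ∣ y →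
        (∃ u v : ℤ, x = u ^ 2 ∧ y = p * v ^ 2 ∧ c = u * v) := by
      intro x y c hxy hc hx hy hd
      obtain ⟨y', rfl⟩ := hd
      have hp0 : (p : ℤ) ≠ 0 := hpP.ne_zero
      have hp1 : (0 : ℤ) < p := by exact_mod_cast hp.pos
      have h1 : x * y' = c ^ 2 := by
        apply mul_left_cancel₀ hp0
        linear_combination hc
      have hxy' : IsCoprime x y' := hxy.of_mul_right_right
      have hy' : 0 ≤ y' := by nlinarith
      obtain ⟨u, hu⟩ := Int.sq_of_isCoprime hxy' h1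
      have hu' : x = u ^ 2 := by
        rcases hu with hu | hu
        · exact hu
        · have := sq_nonneg u
          have h2 : x = 0 := by linarith
          have h3 : u ^ 2 = 0 := by linarith
          rw [h2, h3]
      obtain ⟨v, hv⟩ := Int.sq_of_isCoprime hxy'.symm (by rw [mul_comm]; exact h1)
      have hv' : y' = v ^ 2 := by
        rcases hv with hv | hv
        · exact hv
        · have := sq_nonneg v
          have h2 : y' = 0 := by linarith
          have h3 : v ^ 2 = 0 := by linarith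
          rw [h2, h3]
      have h4 : c ^ 2 = (u * v) ^ 2 := by rw [← h1, hu', hv']; ring
      rcases sq_eq_sq_iff_eq_or_eq_neg.1 h4 with h5 | h5
      · exact ⟨u, v, hu', by rw [hv'], h5⟩
      · exact ⟨u, -v, hu', by rw [hv']; ring, by rw [h5]; ring⟩
    intro x y c hxy hc hx hy
    have hd : (p : ℤ) ∣ x * y := ⟨c ^ 2, hc⟩
    rcases hpP.dvd_or_dvd hd with h1 | h1
    · right
      obtain ⟨u, v, h2, h3, h4⟩ := aux y x c hxy.symm (by rw [mul_comm]; exact hc) hy hx h1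
      exact ⟨u, v, h3, h2, h4⟩
    · left
      exact aux x y c hxy hc hx hy h1
  have hp1 : (0 : ℤ) < p := by exact_mod_cast hp.pos
  have hle : -m ≤ a ∧ a ≤ m := by
    have h1 : a ^ 2 ≤ m ^ 2 := by nlinarith [sq_nonneg b]
    exact abs_le.1 (abs_le_of_sq_le_sq h1 hm.le) |>.imp id id
  rcases Int.even_or_odd' b with ⟨b', hb | hb⟩
  · left
    -- a odd
    have ha2 : a % 2 = 1 := by
      rcases Int.even_or_odd' a with ⟨a', ha | ha⟩
      · exfalso
        rw [ha, hb, hm'] at h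
        have : 2 * (2 * m' ^ 2 + 2 * m') + 1 = 2 * (2 * a' ^ 2 + 2 * p * b' ^ 2) := by linarith
        omega
      · omega
    obtain ⟨x, hx⟩ : ∃ x, m - a = 2 * x := ⟨(m - a) / 2, by omega⟩
    obtain ⟨y, hy⟩ : ∃ y, m + a = 2 * y := ⟨(m + a) / 2, by omega⟩
    have hm3 : m = x + y := by linarith
    have ha3 : a = y - x := by linarith
    have hxy : x * y = p * b' ^ 2 := by
      rw [hm3, ha3, hb] at h
      linarith
    have hcop : IsCoprime x y := by
      obtain ⟨s, t, hst⟩ := hma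
      refine ⟨s - t, s + t, ?_⟩
      rw [hm3, ha3] at hst
      linear_combination hst
    rcases split x y b' hcop hxy (by omega) (by omega) with ⟨u, v, h1, h2, h3⟩ | ⟨u, v, h1, h2, h3⟩
    · refine ⟨u, -v, Or.inr ⟨?_, ?_⟩⟩
      · rw [ha3, h1, h2]; ring
      · rw [hb, h3]; ring
    · refine ⟨u, v, Or.inl ⟨?_, ?_⟩⟩
      · rw [ha3, h1, h2]
      · rw [hb, h3]; ring
  · right
    have hcop : IsCoprime (m - a) (m + a) := by
      have ha2 : a % 2 = 0 := by
        rcases Int.even_or_odd' a with ⟨a', ha | ha⟩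
        · omega
        · exfalso
          rw [ha, hb, hm', hp'] at h
          have : 2 * (2 * m' ^ 2 + 2 * m') + 1 = 2 * (2 * a' ^ 2 + 2 * a' + 1 + (2 * p' + 1) * (2 * b' ^ 2 + 2 * b') + p') := by
            linarith
          omega
      obtain ⟨a', ha'⟩ : ∃ a', a = 2 * a' := ⟨a / 2, by omega⟩
      -- m-a and m+a odd with combination 2
      obtain ⟨s, t, hst⟩ := hma
      have h2 : (s - t) * (m - a) + (s + t) * (m + a) = 2 := by linear_combination 2 * hst
      -- (m - a) odd: 1 = (m - a) - 2 * k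
      refine ⟨1 - (m' - a') * (s - t), -(m' - a') * (s + t), ?_⟩
      have h3 : m - a = 2 * (m' - a') + 1 := by rw [hm', ha']; ring
      linear_combination -(m' - a') * h2 + h3
    have hxy : (m - a) * (m + a) = p * b ^ 2 := by linear_combination h
    rcases split (m - a) (m + a) b hcop hxy (by omega) (by omega) with
      ⟨u, v, h1, h2, h3⟩ | ⟨u, v, h1, h2, h3⟩
    · refine ⟨u, -v, Or.inr ⟨?_, ?_⟩⟩
      · linear_combination h1 - h2
      · rw [h3]; ring
    · refine ⟨u, v, Or.inl ⟨?_, ?_⟩⟩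
      · linear_combination h2 - h1
      · rw [h3]; ring

/-- the prime over `2` -/
def P2 (n : ℕ) : Ideal (Od n) := Ideal.span {((2 : ℤ) : Od n), Zsqrtd.sqrtd - ((1 : ℤ) : Od n)}

theorem mem_P2 (n : ℕ) (h8 : n % 8 = 1) (z : Od n) : z ∈ P2 n ↔ (2 : ℤ) ∣ z.re + z.im := by
  unfold P2
  rw [mem_pair n 2 1 (by omega), one_mul]

theorem absNorm_P2 (n : ℕ) [NeZero n] [IsDedekindDomain (Od n)] (h8 : n % 8 = 1) :
    Ideal.absNorm (P2 n) = 2 := absNorm_pair n 2 1 (by push_cast; omega)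

theorem P2_ne (n : ℕ) [NeZero n] [IsDedekindDomain (Od n)] (h8 : n % 8 = 1) : P2 n ≠ 0 := by
  intro h
  have := absNorm_P2 n h8
  rw [h, map_zero] at this
  omega

theorem P2_sq (n : ℕ) [NeZero n] [IsDedekindDomain (Od n)] (h8 : n % 8 = 1) :
    P2 n * P2 n = Ideal.span {((2 : ℤ) : Od n)} := by
  obtain ⟨k, hk⟩ : ∃ k : ℤ, (n : ℤ) = 8 * k + 1 := ⟨(n / 8 : ℕ), by omega⟩
  have hle : P2 n * P2 n ≤ Ideal.span {((2 : ℤ) : Od n)} := by
    rw [Ideal.mul_le]
    intro x hx y hy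
    rw [mem_P2 n h8] at hx hy
    obtain ⟨s, hs⟩ := hx
    obtain ⟨t, ht⟩ := hy
    rw [Ideal.mem_span_singleton]
    have e1 : x.re = 2 * s - x.im := by linarith
    have e2 : y.re = 2 * t - y.im := by linarith
    refine ⟨⟨2 * s * t - s * y.im - t * x.im - 4 * k * (x.im * y.im),
      s * y.im + t * x.im - x.im * y.im⟩, ?_⟩
    apply Zsqrtd.ext
    · rw [Zsqrtd.re_mul, Zsqrtd.re_mul, e1, e2]
      simp only [Zsqrtd.re_intCast, Zsqrtd.im_intCast]
      linear_combination (-(x.im * y.im)) * hk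
    · rw [Zsqrtd.im_mul, Zsqrtd.im_mul, e1, e2]
      simp only [Zsqrtd.re_intCast, Zsqrtd.im_intCast]
      ring
  rw [← Ideal.dvd_iff_le] at hle
  obtain ⟨K, hK⟩ := hle
  have h1 := congrArg Ideal.absNorm hK
  rw [map_mul, map_mul, absNorm_P2 n h8, absNorm_span] at h1
  have h2 : (((2 : ℤ) : Od n).re ^ 2 + (n : ℤ) * ((2 : ℤ) : Od n).im ^ 2).natAbs = 4 := by
    rw [Zsqrtd.re_intCast, Zsqrtd.im_intCast]; norm_num
  rw [h2] at h1
  have h3 : Ideal.absNorm K = 1 := by omega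
  rw [Ideal.absNorm_eq_one_iff] at h3
  rw [hK, h3, Ideal.mul_top]

/-- the class of the prime over `2` -/
noncomputable def cP (n : ℕ) [NeZero n] [IsDedekindDomain (Od n)] (h8 : n % 8 = 1) :
    ClassGroup (Od n) :=
  ClassGroup.mk0 ⟨P2 n, mem_nonZeroDivisors_iff_ne_zero.2 (P2_ne n h8)⟩

theorem cP_sq (n : ℕ) [NeZero n] [IsDedekindDomain (Od n)] (h8 : n % 8 = 1) :
    cP n h8 * cP n h8 = 1 := by
  unfold cP
  rw [← map_mul, ClassGroup.mk0_eq_one_iff]
  show (P2 n * P2 n).IsPrincipal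
  rw [P2_sq n h8]
  exact ⟨⟨_, rfl⟩⟩

theorem cP_ne (n : ℕ) [NeZero n] [IsDedekindDomain (Od n)] (h8 : n % 8 = 1) (h1 : 1 < n) :
    cP n h8 ≠ 1 := by
  unfold cP
  rw [Ne, ClassGroup.mk0_eq_one_iff]
  intro h
  obtain ⟨⟨z, hz⟩⟩ := h
  have hz' : P2 n = Ideal.span {z} := hz
  have e1 := absNorm_P2 n h8
  rw [hz', absNorm_span] at e1
  have h9 : (9 : ℤ) ≤ n := by omega
  have e2 : z.re ^ 2 + (n : ℤ) * z.im ^ 2 = 2 := by
    have h3 : 0 ≤ z.re ^ 2 + (n : ℤ) * z.im ^ 2 := by positivity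
    omega
  have him : z.im = 0 := by
    by_contra hne
    have h3 : 1 ≤ z.im ^ 2 := by
      have : 0 < z.im ^ 2 := by positivity
      omega
    nlinarith [sq_nonneg z.re]
  rw [him] at e2
  have h4 : z.re ^ 2 = 2 := by linarith
  have h5 : z.re ≤ 1 := by nlinarith
  have h6 : -1 ≤ z.re := by nlinarith
  have h7 : z.re = -1 ∨ z.re = 0 ∨ z.re = 1 := by omega
  rcases h7 with h7 | h7 | h7 <;> rw [h7] at h4 <;> norm_num at h4

theorem ideal_sq_inj {n : ℕ} [NeZero n] [IsDedekindDomain (Od n)] (I J : Ideal (Od n))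
    (h : I ^ 2 = J ^ 2) : I = J := by
  apply le_antisymm
  · rw [← Ideal.dvd_iff_le]
    exact (UniqueFactorizationMonoid.pow_dvd_pow_iff_dvd two_ne_zero).1 (by rw [h])
  · rw [← Ideal.dvd_iff_le]
    exact (UniqueFactorizationMonoid.pow_dvd_pow_iff_dvd two_ne_zero).1 (by rw [h])

theorem sq_re (n : ℕ) (u v : ℤ) : ((⟨u, v⟩ : Od n) ^ 2).re = u ^ 2 - n * v ^ 2 := by
  rw [pow_two (⟨u, v⟩ : Od n), Zsqrtd.re_mul]; ring

theorem sq_im (n : ℕ) (u v : ℤ) : ((⟨u, v⟩ : Od n) ^ 2).im = 2 * u * v := by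
  rw [pow_two (⟨u, v⟩ : Od n), Zsqrtd.im_mul]; ring

/-- K(b) -/
theorem two_torsion {p : ℕ} [NeZero p] [IsDedekindDomain (Od p)] (hp : p.Prime) (h8 : p % 8 = 1)
    (g : ClassGroup (Od p)) (hg : g ^ 2 = 1) : g = 1 ∨ g = cP p h8 := by
  obtain ⟨m, r, I, hm0, hmp, hm2, hmr, hI, hIg⟩ := exists_rep g p hp.ne_zero
  have hIprin : ((I : Ideal (Od p)) * (I : Ideal (Od p))).IsPrincipal := by
    have h1 : ClassGroup.mk0 (I * I) = 1 := by rw [map_mul, hIg, ← pow_two, hg]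
    rw [ClassGroup.mk0_eq_one_iff] at h1
    exact h1
  obtain ⟨⟨z, hz⟩⟩ := hIprin
  have hz' : (I : Ideal (Od p)) * (I : Ideal (Od p)) = Ideal.span {z} := hz
  have hIn : Ideal.absNorm (I : Ideal (Od p)) = m := absNorm_ker p m r hmr _ hI
  have e1 := congrArg Ideal.absNorm hz'
  rw [map_mul, hIn, absNorm_span] at e1
  have e2 : (m : ℤ) ^ 2 = z.re ^ 2 + p * z.im ^ 2 := by
    have h3 : 0 ≤ z.re ^ 2 + (p : ℤ) * z.im ^ 2 := by positivity
    have h4 : (((z.re ^ 2 + (p : ℤ) * z.im ^ 2).natAbs : ℕ) : ℤ) = z.re ^ 2 + (p : ℤ) * z.im ^ 2 :=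
      Int.natAbs_of_nonneg h3
    rw [← h4, ← e1]; push_cast; ring
  -- coprimality
  have hcop : IsCoprime z.re z.im := by
    rw [Int.isCoprime_iff_gcd_eq_one]
    show Nat.Coprime z.re.natAbs z.im.natAbs
    apply Nat.coprime_of_dvd
    intro q hq h1 h2
    have hqP : Prime (q : ℤ) := Nat.prime_iff_prime_int.1 hq
    have h1' : (q : ℤ) ∣ z.re := Int.natCast_dvd.2 h1
    have h2' : (q : ℤ) ∣ z.im := Int.natCast_dvd.2 h2
    have hqm : (q : ℤ) ∣ m := by
      apply hqP.dvd_of_dvd_pow (n := 2)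
      rw [e2]
      exact dvd_add (h1'.trans (dvd_pow_self _ two_ne_zero))
        ((h2'.trans (dvd_pow_self _ two_ne_zero)).mul_left _)
    have hqm' : q ∣ m := by exact_mod_cast hqm
    have hq2 : q ≠ 2 := by
      rintro rfl
      omega
    have hx : (Zsqrtd.sqrtd - (r : Od p)) ∈ (I : Ideal (Od p)) := by
      rw [hI]
      simp
    have hxx : (Zsqrtd.sqrtd - (r : Od p)) * (Zsqrtd.sqrtd - (r : Od p)) ∈ Ideal.span {z} := by
      rw [← hz']; exact Ideal.mul_mem_mul hx hx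
    obtain ⟨w, hw⟩ := Ideal.mem_span_singleton.1 hxx
    have f1 := congrArg Zsqrtd.re hw
    have f2 := congrArg Zsqrtd.im hw
    simp only [Zsqrtd.re_mul, Zsqrtd.im_mul, Zsqrtd.re_sub, Zsqrtd.im_sub, Zsqrtd.re_intCast,
      Zsqrtd.im_intCast, Zsqrtd.re_sqrtd, Zsqrtd.im_sqrtd] at f1 f2
    have g1 : (q : ℤ) ∣ r ^ 2 - p := by
      have : r ^ 2 - (p : ℤ) = z.re * w.re + -(p : ℤ) * z.im * w.im := by linear_combination f1
      rw [this]
      exact dvd_add (h1'.mul_right _) ((h2'.mul_left _).mul_right _)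
    have g2 : (q : ℤ) ∣ 2 * r := by
      have : 2 * r = -(z.re * w.im + z.im * w.re) := by linear_combination -f2
      rw [this]
      exact (dvd_add (h1'.mul_right _) (h2'.mul_right _)).neg_right
    have g3 : (q : ℤ) ∣ r := by
      rcases hqP.dvd_or_dvd g2 with h | h
      · exfalso
        have h' : q ∣ 2 := by exact_mod_cast h
        exact hq2 ((Nat.prime_dvd_prime_iff_eq hq Nat.prime_two).1 h')
      · exact h
    have g4 : (q : ℤ) ∣ p := by
      have : (p : ℤ) = r * r - (r ^ 2 - p) := by ring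
      rw [this]
      exact dvd_sub (g3.mul_right _) g1
    have g5 : q = p := (Nat.prime_dvd_prime_iff_eq hq hp).1 (by exact_mod_cast g4)
    rw [g5] at hqm'
    have := Nat.Coprime.eq_one_of_dvd hmp.symm hqm'
    exact hp.one_lt.ne' this
  have hmp' : ¬ (p : ℤ) ∣ m := by
    intro h
    have h' : p ∣ m := by exact_mod_cast h
    have := Nat.Coprime.eq_one_of_dvd hmp.symm h'
    exact hp.one_lt.ne' this
  have hshape := pell_shape hp (by omega) m z.re z.im (by exact_mod_cast hm0) (by omega) hmp' e2 hcop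
  have hzneg : Ideal.span {-z} = Ideal.span {z} := Ideal.span_singleton_neg z
  rcases hshape with ⟨u, v, huv⟩ | ⟨u, v, huv⟩
  · left
    have h1 : Ideal.span {z} = Ideal.span {(⟨u, v⟩ : Od p)} ^ 2 := by
      rw [Ideal.span_singleton_pow]
      rcases huv with ⟨ha, hb⟩ | ⟨ha, hb⟩
      · congr 2
        apply Zsqrtd.ext
        · rw [ha, sq_re]
        · rw [hb, sq_im]
      · rw [← hzneg]
        congr 2
        apply Zsqrtd.ext
        · rw [Zsqrtd.re_neg, ha, sq_re]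
        · rw [Zsqrtd.im_neg, hb, sq_im]
    have h2 : (I : Ideal (Od p)) = Ideal.span {(⟨u, v⟩ : Od p)} := by
      apply ideal_sq_inj
      rw [← h1, pow_two, hz']
    rw [← hIg, ClassGroup.mk0_eq_one_iff, h2]
    exact ⟨⟨_, rfl⟩⟩
  · right
    have h1 : Ideal.span {((2 : ℤ) : Od p) * z} = Ideal.span {(⟨u, v⟩ : Od p)} ^ 2 := by
      rw [Ideal.span_singleton_pow]
      rcases huv with ⟨ha, hb⟩ | ⟨ha, hb⟩
      · congr 2
        apply Zsqrtd.ext
        · rw [sq_re, Zsqrtd.re_mul, Zsqrtd.re_intCast, Zsqrtd.im_intCast]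
          linear_combination ha
        · rw [sq_im, Zsqrtd.im_mul, Zsqrtd.re_intCast, Zsqrtd.im_intCast]
          linear_combination hb
      · rw [← Ideal.span_singleton_neg]
        congr 2
        apply Zsqrtd.ext
        · rw [Zsqrtd.re_neg, sq_re, Zsqrtd.re_mul, Zsqrtd.re_intCast, Zsqrtd.im_intCast]
          linear_combination ha
        · rw [Zsqrtd.im_neg, sq_im, Zsqrtd.im_mul, Zsqrtd.re_intCast, Zsqrtd.im_intCast]
          linear_combination hb
    have h2 : P2 p * (I : Ideal (Od p)) = Ideal.span {(⟨u, v⟩ : Od p)} := by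
      apply ideal_sq_inj
      rw [← h1, mul_pow, pow_two, pow_two, P2_sq p h8, hz', Ideal.span_singleton_mul_span_singleton]
    have h3 : cP p h8 * g = 1 := by
      rw [← hIg]
      unfold cP
      rw [← map_mul, ClassGroup.mk0_eq_one_iff]
      show (P2 p * (I : Ideal (Od p))).IsPrincipal
      rw [h2]
      exact ⟨⟨_, rfl⟩⟩
    have h4 : cP p h8 * g = cP p h8 * cP p h8 := by rw [h3, cP_sq]
    exact mul_left_cancel h4

end Pool.Agent.TM32
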