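import Mathlib
import Pool.Agent.Lib_helper72.TM32.K1b
set_option autoImplicit false
namespace Pool.Agent.TM32

open scoped nonZeroDivisors

/-- the ideal `(e, f + √-p)` -/
def EI (p : ℕ) (e f : ℤ) : Ideal (Od p) :=
  Ideal.span {(e : Od p), Zsqrtd.sqrtd - ((-f : ℤ) : Od p)}

theorem EI_dvd {p : ℕ} {e f : ℤ} (hpef : (p : ℤ) = 2 * e ^ 2 - f ^ 2) : e ∣ (-f) ^ 2 + p :=
  ⟨2 * e, by rw [hpef]; ring⟩

theorem mem_EI {p : ℕ} {e f : ℤ} (hpef : (p : ℤ) = 2 * e ^ 2 - f ^ 2) (z : Od p) :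
    z ∈ EI p e f ↔ e ∣ z.re - f * z.im := by
  unfold EI
  rw [mem_pair p e (-f) (EI_dvd hpef)]
  have : z.re + -f * z.im = z.re - f * z.im := by ring
  rw [this]

theorem absNorm_EI {p : ℕ} [NeZero p] [IsDedekindDomain (Od p)] {e f : ℤ} (he : 0 < e)
    (hpef : (p : ℤ) = 2 * e ^ 2 - f ^ 2) : Ideal.absNorm (EI p e f) = e.natAbs := by
  obtain ⟨k, rfl⟩ := Int.eq_ofNat_of_zero_le he.le
  exact absNorm_pair p k (-f) (EI_dvd hpef)

theorem EI_ne {p : ℕ} [NeZero p] [IsDedekindDomain (Od p)] {e f : ℤ} (he : 0 < e)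
    (hpef : (p : ℤ) = 2 * e ^ 2 - f ^ 2) : EI p e f ≠ 0 := by
  intro h
  have := absNorm_EI he hpef
  rw [h, map_zero] at this
  omega

/-- its class -/
noncomputable def cE {p : ℕ} [NeZero p] [IsDedekindDomain (Od p)] {e f : ℤ} (he : 0 < e)
    (hpef : (p : ℤ) = 2 * e ^ 2 - f ^ 2) : ClassGroup (Od p) :=
  ClassGroup.mk0 ⟨EI p e f, mem_nonZeroDivisors_iff_ne_zero.2 (EI_ne he hpef)⟩

theorem ef_odd {p : ℕ} (h8 : p % 8 = 1) {e f : ℤ} (hpef : (p : ℤ) = 2 * e ^ 2 - f ^ 2) :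
    e % 2 = 1 ∧ f % 2 = 1 := by
  obtain ⟨k, hk⟩ : ∃ k : ℤ, (p : ℤ) = 8 * k + 1 := ⟨(p / 8 : ℕ), by omega⟩
  rw [hk] at hpef
  have hf : f % 2 = 1 := by
    rcases Int.even_or_odd' f with ⟨c, rfl | rfl⟩
    · exfalso
      have : 8 * k + 1 = 2 * (e ^ 2 - 2 * c ^ 2) := by linarith
      omega
    · omega
  refine ⟨?_, hf⟩
  obtain ⟨c, hc⟩ : ∃ c, f = 2 * c + 1 := ⟨f / 2, by omega⟩
  rcases Int.even_or_odd' e with ⟨d, rfl | rfl⟩
  · exfalso
    rw [hc] at hpef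
    have : 8 * k + 1 + 1 = 4 * (2 * d ^ 2 - c ^ 2 - c) := by linarith
    omega
  · omega

/-- K(c), first part: `P E² = (f + √-p)` -/
theorem PEE {p : ℕ} [NeZero p] [IsDedekindDomain (Od p)] (h8 : p % 8 = 1) {e f : ℤ} (he : 0 < e)
    (hpef : (p : ℤ) = 2 * e ^ 2 - f ^ 2) :
    P2 p * (EI p e f * EI p e f) = Ideal.span {(⟨f, 1⟩ : Od p)} := by
  obtain ⟨he2, hf2⟩ := ef_odd h8 hpef
  obtain ⟨c, hc⟩ : ∃ c, f = 2 * c + 1 := ⟨f / 2, by omega⟩
  obtain ⟨k, hk⟩ : ∃ k : ℤ, (p : ℤ) = 8 * k + 1 := ⟨(p / 8 : ℕ), by omega⟩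
  have h1 : ((2 : ℤ) : Od p) * ((e : Od p) * (e : Od p)) = (⟨f, 1⟩ : Od p) * ⟨f, -1⟩ := by
    apply Zsqrtd.ext
    · simp only [Zsqrtd.re_mul, Zsqrtd.im_mul, Zsqrtd.re_intCast, Zsqrtd.im_intCast]
      linear_combination -hpef
    · simp only [Zsqrtd.re_mul, Zsqrtd.im_mul, Zsqrtd.re_intCast, Zsqrtd.im_intCast]
      ring
  have h2 : (Zsqrtd.sqrtd - ((1 : ℤ) : Od p)) * ((e : Od p) * (e : Od p))
      = (⟨f, 1⟩ : Od p) * ⟨4 * k - c, c + 1⟩ := by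
    have e1 : 2 * e ^ 2 = p + f ^ 2 := by linarith
    apply Zsqrtd.ext
    · simp only [Zsqrtd.re_mul, Zsqrtd.im_mul, Zsqrtd.re_intCast, Zsqrtd.im_intCast,
        Zsqrtd.re_sub, Zsqrtd.im_sub, Zsqrtd.re_sqrtd, Zsqrtd.im_sqrtd]
      have e2 : (2 : ℤ) * ((0 - 1) * (e * e + -(p : ℤ) * 0 * 0) + -(p : ℤ) * (1 - 0) * (e * 0 + 0 * e))
        = 2 * (f * (4 * k - c) + -(p : ℤ) * 1 * (c + 1)) := by
        rw [hc] at e1 ⊢
        rw [hk] at e1 ⊢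
        linear_combination -e1
      linarith
    · simp only [Zsqrtd.re_mul, Zsqrtd.im_mul, Zsqrtd.re_intCast, Zsqrtd.im_intCast,
        Zsqrtd.re_sub, Zsqrtd.im_sub, Zsqrtd.re_sqrtd, Zsqrtd.im_sqrtd]
      have e2 : (2 : ℤ) * ((0 - 1) * (e * 0 + 0 * e) + (1 - 0) * (e * e + -(p : ℤ) * 0 * 0))
        = 2 * (f * (c + 1) + 1 * (4 * k - c)) := by
        rw [hc] at e1 ⊢
        rw [hk] at e1
        linear_combination e1
      linarith
  have h3 : (Zsqrtd.sqrtd - ((-f : ℤ) : Od p)) = (⟨f, 1⟩ : Od p) := by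
    apply Zsqrtd.ext <;> simp
  have hle : P2 p * (EI p e f * EI p e f) ≤ Ideal.span {(⟨f, 1⟩ : Od p)} := by
    rw [Ideal.mul_le]
    intro x hx s hs
    refine Submodule.mul_induction_on hs ?_ ?_
    · intro y hy z hz
      unfold P2 at hx
      unfold EI at hy hz
      obtain ⟨α, β, rfl⟩ := Ideal.mem_span_pair.1 hx
      obtain ⟨a, b, rfl⟩ := Ideal.mem_span_pair.1 hy
      obtain ⟨c', d, rfl⟩ := Ideal.mem_span_pair.1 hz
      rw [h3, Ideal.mem_span_singleton]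
      refine ⟨a * c' * (α * (⟨f, -1⟩ : Od p) + β * (⟨4 * k - c, c + 1⟩ : Od p)) +
        (α * ((2 : ℤ) : Od p) + β * (Zsqrtd.sqrtd - ((1 : ℤ) : Od p))) *
          (a * (e : Od p) * d + b * c' * (e : Od p) + b * d * (⟨f, 1⟩ : Od p)), ?_⟩
      linear_combination (a * c' * α) * h1 + (a * c' * β) * h2
    · intro y z hy hz
      rw [mul_add]; exact Ideal.add_mem _ hy hz
  rw [← Ideal.dvd_iff_le] at hle
  obtain ⟨K, hK⟩ := hle
  have h4 := congrArg Ideal.absNorm hK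
  rw [map_mul, map_mul, map_mul, absNorm_P2 p h8, absNorm_span, absNorm_EI he hpef] at h4
  have h5 : ((f : ℤ) ^ 2 + (p : ℤ) * (1 : ℤ) ^ 2).natAbs = 2 * (e.natAbs * e.natAbs) := by
    have : f ^ 2 + (p : ℤ) * 1 ^ 2 = 2 * (e * e) := by rw [hpef]; ring
    rw [this, Int.natAbs_mul, Int.natAbs_mul]; rfl
  have h6 : ((⟨f, 1⟩ : Od p).re ^ 2 + (p : ℤ) * (⟨f, 1⟩ : Od p).im ^ 2).natAbs =
      ((f : ℤ) ^ 2 + (p : ℤ) * (1 : ℤ) ^ 2).natAbs := rfl
  rw [h6, h5] at h4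
  have h7 : 0 < 2 * (e.natAbs * e.natAbs) := by
    have : 0 < e.natAbs := by omega
    positivity
  have h8' : Ideal.absNorm K = 1 := by
    have : 2 * (e.natAbs * e.natAbs) * Ideal.absNorm K = 2 * (e.natAbs * e.natAbs) * 1 := by
      rw [mul_one]; exact h4.symm
    exact Nat.eq_of_mul_eq_mul_left h7 this
  rw [Ideal.absNorm_eq_one_iff] at h8'
  rw [hK, h8', Ideal.mul_top]

theorem K_c1 {p : ℕ} [NeZero p] [IsDedekindDomain (Od p)] (h8 : p % 8 = 1) {e f : ℤ} (he : 0 < e)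
    (hpef : (p : ℤ) = 2 * e ^ 2 - f ^ 2) : cE he hpef * cE he hpef = cP p h8 := by
  have h1 : cP p h8 * (cE he hpef * cE he hpef) = 1 := by
    unfold cP cE
    rw [← map_mul, ← map_mul, ClassGroup.mk0_eq_one_iff]
    show (P2 p * (EI p e f * EI p e f)).IsPrincipal
    rw [PEE h8 he hpef]
    exact ⟨⟨_, rfl⟩⟩
  have h2 : cP p h8 * (cE he hpef * cE he hpef) = cP p h8 * cP p h8 := by rw [h1, cP_sq]
  exact mul_left_cancel h2

theorem K_c2 {p : ℕ} [NeZero p] [IsDedekindDomain (Od p)] (h8 : p % 8 = 1) {e f : ℤ} (he : 0 < e)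
    (hpef : (p : ℤ) = 2 * e ^ 2 - f ^ 2) : chiC p h8 (cE he hpef) = u4 e.natAbs := by
  unfold cE
  rw [chiC_mk0]
  show u4 (Ideal.absNorm (EI p e f)) = _
  rw [absNorm_EI he hpef]

/-- K(d) -/
theorem K_d {p : ℕ} [NeZero p] [IsDedekindDomain (Od p)] (hp : p.Prime) (h8 : p % 8 = 1)
    {e f : ℤ} (he : 0 < e) (hpef : (p : ℤ) = 2 * e ^ 2 - f ^ 2) (M : ClassGroup (Od p))
    (hM : M ^ 2 = cE he hpef) :
    ∃ (m : ℕ) (t y : ℤ), 0 < m ∧ m % 2 = 1 ∧ e * m ^ 2 = t ^ 2 + p * y ^ 2 ∧ IsCoprime t y ∧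
      e ∣ t - f * y ∧ chiC p h8 M = u4 m := by
  have hN : p * e.natAbs ≠ 0 := mul_ne_zero hp.ne_zero (by omega)
  obtain ⟨m, r, I, hm0, hmN, hm2, hmr, hI, hIM⟩ := exists_rep M⁻¹ (p * e.natAbs) hN
  have hmp : Nat.Coprime m p := Nat.Coprime.coprime_mul_right_right hmN
  have hme : Nat.Coprime m e.natAbs := Nat.Coprime.coprime_mul_left_right hmN
  have hIn : Ideal.absNorm (I : Ideal (Od p)) = m := absNorm_ker p m r hmr _ hI
  have hprin : (EI p e f * ((I : Ideal (Od p)) * (I : Ideal (Od p)))).IsPrincipal := by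
    have h1 : ClassGroup.mk0 (⟨EI p e f, mem_nonZeroDivisors_iff_ne_zero.2 (EI_ne he hpef)⟩ *
        (I * I)) = 1 := by
      rw [map_mul, map_mul, hIM]
      have : ClassGroup.mk0 ⟨EI p e f, mem_nonZeroDivisors_iff_ne_zero.2 (EI_ne he hpef)⟩
        = cE he hpef := rfl
      rw [this, ← hM]
      group
    rw [ClassGroup.mk0_eq_one_iff] at h1
    exact h1
  obtain ⟨⟨z, hz⟩⟩ := hprin
  have hz' : EI p e f * ((I : Ideal (Od p)) * (I : Ideal (Od p))) = Ideal.span {z} := hz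
  have e1 := congrArg Ideal.absNorm hz'
  rw [map_mul, map_mul, hIn, absNorm_span, absNorm_EI he hpef] at e1
  have e2 : e * (m : ℤ) ^ 2 = z.re ^ 2 + p * z.im ^ 2 := by
    have h3 : 0 ≤ z.re ^ 2 + (p : ℤ) * z.im ^ 2 := by positivity
    have h4 : (((z.re ^ 2 + (p : ℤ) * z.im ^ 2).natAbs : ℕ) : ℤ) = z.re ^ 2 + (p : ℤ) * z.im ^ 2 :=
      Int.natAbs_of_nonneg h3
    have h5 : ((e.natAbs : ℕ) : ℤ) = e := Int.natAbs_of_nonneg he.le
    rw [← h4, ← e1]; push_cast; rw [abs_of_pos he]; ring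
  have hmI : ((m : ℤ) : Od p) ∈ (I : Ideal (Od p)) := by
    rw [hI]; simp
  have hx : (Zsqrtd.sqrtd - (r : Od p)) ∈ (I : Ideal (Od p)) := by
    rw [hI]; simp
  have heE : (e : Od p) ∈ EI p e f := Ideal.subset_span (by simp)
  have hfE : (⟨f, 1⟩ : Od p) ∈ EI p e f := by
    rw [mem_EI hpef]; simp
  have hcop : IsCoprime z.re z.im := by
    rw [Int.isCoprime_iff_gcd_eq_one]
    show Nat.Coprime z.re.natAbs z.im.natAbs
    apply Nat.coprime_of_dvd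
    intro q hq h1 h2
    have hqP : Prime (q : ℤ) := Nat.prime_iff_prime_int.1 hq
    have h1' : (q : ℤ) ∣ z.re := Int.natCast_dvd.2 h1
    have h2' : (q : ℤ) ∣ z.im := Int.natCast_dvd.2 h2
    have hall : ∀ s ∈ EI p e f, ∀ x1 ∈ (I : Ideal (Od p)), ∀ x2 ∈ (I : Ideal (Od p)),
        (q : ℤ) ∣ (s * (x1 * x2)).re ∧ (q : ℤ) ∣ (s * (x1 * x2)).im := by
      intro s hs x1 hx1 x2 hx2
      have h3 : s * (x1 * x2) ∈ Ideal.span {z} := by
        rw [← hz']; exact Ideal.mul_mem_mul hs (Ideal.mul_mem_mul hx1 hx2)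
      obtain ⟨w, hw⟩ := Ideal.mem_span_singleton.1 h3
      rw [hw, Zsqrtd.re_mul, Zsqrtd.im_mul]
      refine ⟨dvd_add (h1'.mul_right _) ((h2'.mul_left _).mul_right _),
        dvd_add (h1'.mul_right _) (h2'.mul_right _)⟩
    have hqm : (q : ℤ) ∣ m := by
      have h3 := (hall _ hfE _ hmI _ hmI).2
      have h4 : ((⟨f, 1⟩ : Od p) * (((m : ℤ) : Od p) * ((m : ℤ) : Od p))).im = m * m := by
        simp only [Zsqrtd.im_mul, Zsqrtd.re_mul, Zsqrtd.re_intCast, Zsqrtd.im_intCast]; ring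
      rw [h4] at h3
      rcases hqP.dvd_or_dvd h3 with h | h <;> exact h
    have hqm' : q ∣ m := by exact_mod_cast hqm
    have hq2 : q ≠ 2 := by
      rintro rfl
      omega
    have hqe : ¬ (q : ℤ) ∣ e := by
      intro h
      have h' : q ∣ e.natAbs := Int.natCast_dvd.1 h
      have := Nat.eq_one_of_dvd_coprimes hme hqm' h'
      exact hq.one_lt.ne' this
    have hqp : ¬ (q : ℤ) ∣ p := by
      intro h
      have h' : q ∣ p := by exact_mod_cast h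
      have := Nat.eq_one_of_dvd_coprimes hmp hqm' h'
      exact hq.one_lt.ne' this
    obtain ⟨g1, g2⟩ := hall _ heE _ hx _ hx
    have f1 : ((e : Od p) * ((Zsqrtd.sqrtd - (r : Od p)) * (Zsqrtd.sqrtd - (r : Od p)))).re
        = e * (r ^ 2 - p) := by
      simp only [Zsqrtd.im_mul, Zsqrtd.re_mul, Zsqrtd.re_intCast, Zsqrtd.im_intCast,
        Zsqrtd.re_sub, Zsqrtd.im_sub, Zsqrtd.re_sqrtd, Zsqrtd.im_sqrtd]; ring
    have f2 : ((e : Od p) * ((Zsqrtd.sqrtd - (r : Od p)) * (Zsqrtd.sqrtd - (r : Od p)))).im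
        = e * (-(2 * r)) := by
      simp only [Zsqrtd.im_mul, Zsqrtd.re_mul, Zsqrtd.re_intCast, Zsqrtd.im_intCast,
        Zsqrtd.re_sub, Zsqrtd.im_sub, Zsqrtd.re_sqrtd, Zsqrtd.im_sqrtd]; ring
    rw [f1] at g1
    rw [f2] at g2
    have g3 := (hqP.dvd_or_dvd g1).resolve_left hqe
    have g4 := (hqP.dvd_or_dvd g2).resolve_left hqe
    rw [dvd_neg] at g4
    have g5 : (q : ℤ) ∣ r := by
      rcases hqP.dvd_or_dvd g4 with h | h
      · exfalso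
        have h' : q ∣ 2 := by exact_mod_cast h
        exact hq2 ((Nat.prime_dvd_prime_iff_eq hq Nat.prime_two).1 h')
      · exact h
    apply hqp
    have : (p : ℤ) = r * r - (r ^ 2 - p) := by ring
    rw [this]
    exact dvd_sub (g5.mul_right _) g3
  have hzE : z ∈ EI p e f := by
    have h3 : z ∈ EI p e f * ((I : Ideal (Od p)) * (I : Ideal (Od p))) := by
      rw [hz']; exact Ideal.mem_span_singleton_self z
    exact Ideal.mul_le_left h3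
  refine ⟨m, z.re, z.im, hm0, hm2, e2, hcop, (mem_EI hpef z).1 hzE, ?_⟩
  have h3 : chiC p h8 M⁻¹ = u4 m := by
    rw [← hIM, chiC_mk0, hIn]
  rw [map_inv, Int.units_inv_eq_self] at h3
  exact h3

end Pool.Agent.TM32
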