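import Pool.Agent.Lib_helper33.TM32.K2
import Pool.Agent.Lib_helper33.TM32.K3
import Pool.Agent.Lib_helper72.TM32.K1d
import Pool.Agent.Lib_helper72.TM32.A32
set_option autoImplicit false
namespace Pool.Agent.TM32

theorem K_main {p : ℕ} [NeZero p] (hp : p.Prime) (h8 : p % 8 = 1)
    {e f : ℤ} (he : 0 < e) (hpef : (p : ℤ) = 2 * e ^ 2 - f ^ 2) :
    (e % 4 = 3 → Nat.card (ClassGroup (Zsqrtd (-(p : ℤ)))) % 8 = 4) ∧
    (e % 4 = 1 → 8 ∣ Nat.card (ClassGroup (Zsqrtd (-(p : ℤ)))) ∧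
      ((e : ZMod p)) ^ ((p - 1) / 4) = ((jacobiSym f e.natAbs * jacobiSym 2 e.natAbs *
        (-1) ^ (Nat.card (ClassGroup (Zsqrtd (-(p : ℤ)))) / 8) : ℤ) : ZMod p)) := by
  have hs : Squarefree p := hp.squarefree
  have h1 : 1 < p := hp.one_lt
  have hne : ∃ x y z : ℤ, x ^ 2 + y ^ 2 + z ^ 2 = (p : ℤ) := by
    have : Fact p.Prime := ⟨hp⟩
    obtain ⟨a, b, hab⟩ := Nat.Prime.sq_add_sq (p := p) (by omega)
    exact ⟨a, b, 0, by rw [← hab]; push_cast; ring⟩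
  have hfin := (cntOmega p hs h8 h1 hne).1
  have := ded p hs h8
  have hχ : ∃ g, chiC p h8 g = -1 := chiC_surj p hs h8 h1 (-1)
  obtain ⟨g4, g3, g1⟩ := grp (chiC p h8) hχ (cP p h8) (cE he hpef) (cP_ne p h8 h1)
    (two_torsion hp h8) (by rw [pow_two]; exact K_c1 h8 he hpef)
  have hc2 := K_c2 h8 he hpef
  have hodd := (ef_odd h8 hpef).1
  rw [u4_odd _ (by omega)] at hc2
  refine ⟨?_, ?_⟩
  · intro h3
    apply g3
    rw [hc2, if_neg (by omega)]
  · intro h3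
    obtain ⟨k8, ⟨M, hM⟩, kM⟩ := g1 (by rw [hc2, if_pos (by omega)])
    refine ⟨k8, ?_⟩
    obtain ⟨m, t, y, hm0, hm2, hq, hty, hd, hchi⟩ := K_d hp h8 he hpef M hM
    have hk := kM M hM
    rw [hchi, u4_odd _ hm2] at hk
    have js := jac_step hp h8 he h3 hpef (m := (m : ℤ)) (t := t) (y := y) (by exact_mod_cast hm0)
      (by omega) hq hty hd
    rw [js]
    congr 2
    have hk' := congrArg (fun u : ℤˣ => (u : ℤ)) hk
    simp only [Units.val_pow_eq_pow_val, Units.val_neg, Units.val_one] at hk'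
    rw [← hk']
    by_cases h4 : m % 4 = 1
    · rw [if_pos h4, if_pos (by omega)]; rfl
    · rw [if_neg h4, if_neg (by omega)]; rfl

end Pool.Agent.TM32
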