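import Mathlib
import Pool.Agent.Lib_helper72.TM32.A32
set_option autoImplicit false
namespace Pool.Agent.TM32
open N9003ba20

/-- `|B_n| = 4 h(-4n)` -/
theorem card_B4 (n : ℕ) [NeZero n] (hs : Squarefree n) (h8 : n % 8 = 1) (h1 : 1 < n)
    (hne : ∃ x y z : ℤ, x ^ 2 + y ^ 2 + z ^ 2 = n) :
    (B n).ncard = 4 * Nat.card (ClassGroup (Zsqrtd (-(n : ℤ)))) := by
  have hB := card_B n h8
  have hO := (cntOmega n hs h8 h1 hne).2
  have h1 : {v : ℤ × ℤ × ℤ | v.1 ^ 2 + v.2.1 ^ 2 + v.2.2 ^ 2 = n ∧ v.1 % 2 = 1} =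
      (fun v : ℤ × ℤ × ℤ => (v.2.1, 2 * (v.1 + v.2.2), 2 * (v.1 - v.2.2))) '' Bs n := by
    ext ⟨x, y, z⟩
    constructor
    · rintro ⟨h, h2⟩
      have h : x ^ 2 + y ^ 2 + z ^ 2 = (n : ℤ) := h
      have h2 : x % 2 = 1 := h2
      obtain ⟨c, d, hc, hd, hcd⟩ := om_even h8 (μ := mkq 0 x y z) ⟨rfl, h, h2⟩
      have hc : y = 2 * c := hc
      have hd : z = 2 * d := hd
      obtain ⟨u, hu⟩ : ∃ u, c = d + 2 * u := ⟨(c - d) / 2, by omega⟩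
      refine ⟨(d + u, x, u), ?_, ?_⟩
      · show (n : ℤ) = x ^ 2 + 8 * (d + u) ^ 2 + 8 * u ^ 2
        rw [← h, hc, hd, hu]; ring
      · show (x, 2 * (d + u + u), 2 * (d + u - u)) = (x, y, z)
        rw [hc, hd, hu]
        simp only [Prod.mk.injEq, true_and]
        constructor <;> ring
    · rintro ⟨⟨t, y', z'⟩, h, he⟩
      have h : (n : ℤ) = y' ^ 2 + 8 * t ^ 2 + 8 * z' ^ 2 := h
      simp only [Prod.mk.injEq] at he
      obtain ⟨rfl, rfl, rfl⟩ := he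
      refine ⟨?_, ?_⟩
      · show y' ^ 2 + (2 * (t + z')) ^ 2 + (2 * (t - z')) ^ 2 = (n : ℤ)
        linarith
      · show y' % 2 = 1
        rcases Int.even_or_odd' y' with ⟨c, rfl | rfl⟩
        · exfalso
          have : (n : ℤ) = 2 * (2 * c ^ 2 + 4 * (t ^ 2 + z' ^ 2)) := by linarith
          omega
        · omega
  have h2 : Nat.card {v : ℤ × ℤ × ℤ // v.1 ^ 2 + v.2.1 ^ 2 + v.2.2 ^ 2 = n ∧ v.1 % 2 = 1} =
      {v : ℤ × ℤ × ℤ | v.1 ^ 2 + v.2.1 ^ 2 + v.2.2 ^ 2 = n ∧ v.1 % 2 = 1}.ncard := rfl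
  rw [h2, h1, Set.ncard_image_of_injective] at hO
  · rw [hB, hO]
  · rintro ⟨a, b, c⟩ ⟨a', b', c'⟩ he
    simp only [Prod.mk.injEq] at he ⊢
    omega

end Pool.Agent.TM32
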